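import Pool.Agent.Work.MP_609cce_lc_szk.Blocks

/-!
# Compressions to `O (log n)` symbols per string, statistical zero knowledge and collisions
-/

namespace ORDist

open PTime Turing

attribute [local instance] finCode

/-- if an NP-hard language has an OR-compression to `O (log n)` symbols per string, then for every
language `L` in NP there is a length-decreasing polynomial time map such that `L` is in P if its
collisions can be found in polynomial time -/
theorem exists_shrinking_log {S : Type} [Finite S] [Nonempty S] {R R' : Set (List S)}
    (hR : NPHard R) {D : List (List S) → List S} (hD : ORCompressionLog R R' D)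
    {L : Set (List Bool)} (hL : InNP L) :
    ∃ C : List Bool × List Bool → List Bool, Shrinking C ∧ ((∃ A, CollisionFinder C A) → InP L) := by
  classical
  obtain ⟨V, p, hV0, hL⟩ := hL
  have hV : PT V := by
    have h : PT (fun z : List Bool × List Bool => [V z]) := PT.ofTM2 hV0.some pt_pairStr
    exact (h.headD (PT.const false)).congr fun z => rfl
  obtain ⟨E, c, PM, M, hEpt, hE, hM⟩ := exists_blockMap hR hD hV p
  refine ⟨_, shrinking_mapC hEpt, ?_⟩
  rintro ⟨A, hA⟩
  obtain ⟨d, hd, hdL⟩ := search_main hV hEpt (pt_rate c)
    (PM + 1) (PM * (8 * (2 * PM) ^ c)) p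
    (fun _ y => ∃ v ∈ y, v ∈ R') hE (by
      intro x
      obtain ⟨h1, h2, h3⟩ := hM x
      refine ⟨M x, h1, ?_, ?_, ?_⟩
      · simp only [Polynomial.eval_add, Polynomial.eval_one]
        omega
      · simp only [Polynomial.eval_mul, Polynomial.eval_pow, Polynomial.eval_ofNat]
        exact mul_pow_rate_le h1 h2
      · intro T hT hTl
        have h5 := h3 T hT hTl
        have h9 : M x * rate c (M x) = M x * (c * (M x).bits.length) + 3 * M x := by
          unfold rate
          ring
        omega) hA
  exact ⟨d, hd.polyTime_dec, fun x => (hL x).trans (hdL x).symm⟩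

end ORDist

namespace ORZ

open ORDist PTime Turing

attribute [local instance] finCode

/-- If an NP-hard language has an OR-compression to `O (log n)` symbols per string, then every
language in NP is decided in polynomial time with an oracle which tells disjoint supports from
exponentially small distance. -/
theorem exists_samplers_log {S : Type} [Finite S] [Nonempty S] {R R' : Set (List S)}
    (hR : ORDist.NPHard R) {D : List (List S) → List S} (hD : ORCompressionLog R R' D)
    {L : Set (List Bool)} (hL : ORDist.InNP L) :
    ∃ (C : List Bool × List Bool → List Bool) (l : Polynomial ℕ),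
      PolyTime pairStr (fun y => y) C ∧ ∀ W : List Bool → Bool, Tells C l W → InPO W L := by
  classical
  obtain ⟨V, p, hV0, hL⟩ := hL
  have hV : PT V := by
    have h : PT (fun z : List Bool × List Bool => [V z]) := PT.ofTM2 hV0.some pt_pairStr
    exact (h.headD (PT.const false)).congr fun z => rfl
  obtain ⟨E, c, PM, M, hEpt, hE, hM⟩ := exists_blockMap hR hD hV p
  refine ⟨mapZ E, coinsZ, polyTime_mapZ hEpt, fun W hW => ?_⟩
  let P : Polynomial ℕ := PM + 1
  let K : Polynomial ℕ := P * (512 * (2 * P) ^ (4 * c))
  let T : Polynomial ℕ := (p + 1) * (K * (P * P * K + 1)) + (P * P * K + 1) * 2 + 1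
  have hPev : ∀ n, 1 ≤ P.eval n := fun n => by simp [P]
  have hKev : ∀ n, 1 ≤ K.eval n := by
    intro n
    have h1 := hPev n
    simp only [K, Polynomial.eval_mul, Polynomial.eval_pow, Polynomial.eval_ofNat]
    exact Nat.mul_pos h1 (Nat.mul_pos (by norm_num) (pow_pos (by omega) _))
  refine ⟨fun x => (iterZ V P K p (rateZ c) W x (T.eval x.length)).1,
    polyTimeO_search hV (pt_rateZ _) hKev W, fun x => ?_⟩
  rw [hL x]
  have hGQ : GoodQ (fun u => V (x, u)) (K.eval x.length) (p.eval x.length)
      (P.eval x.length * P.eval x.length * K.eval x.length)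
      (nodeZ (P.eval x.length) (K.eval x.length) (rateZ c))
      (qZ W x (P.eval x.length) (K.eval x.length) (rateZ c)) := by
    obtain ⟨h1, h2, h3⟩ := hM x
    have h4 : M x ≤ P.eval x.length := by
      simp only [P, Polynomial.eval_add, Polynomial.eval_one]
      omega
    refine goodQ (Pr := fun y => ∃ v ∈ y, v ∈ R') (b0 := M x * (c * (M x).bits.length) + 1) hW
      h1 h4 (fun m => by unfold rateZ; omega) (fun m hm hmP => ?_) ?_ ?_ (hE x)
    · simp only [K, Polynomial.eval_mul, Polynomial.eval_pow, Polynomial.eval_ofNat]
      exact mul_pow_rateZ_le hm hmP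
    · intro A hA hAl
      exact h3 A hA hAl
    · generalize M x = m at h1
      unfold rateZ
      have h5 : (4 * (c * m.bits.length) + 9) * m = 4 * (m * (c * m.bits.length)) + 9 * m := by
        ring
      rw [h5]
      omega
  have h1 := zsearch_correct (hKev x.length) hGQ
  have hT : T.eval x.length = (p.eval x.length + 1) * (K.eval x.length *
      (P.eval x.length * P.eval x.length * K.eval x.length + 1)) +
      (P.eval x.length * P.eval x.length * K.eval x.length + 1) * 2 + 1 := by
    simp only [T, Polynomial.eval_mul, Polynomial.eval_add, Polynomial.eval_one,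
      Polynomial.eval_ofNat]
  rw [← h1, ← hT]
  rfl

end ORZ
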