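import Pool.Agent.Work.MP_609cce_lc_szk.ChunkO
import Pool.Agent.Work.MP_609cce_lc_szk.LogForm

/-!
# Deciding with an oracle which gives collisions bit by bit
-/

namespace ORZ

open ORDist PTime Turing

attribute [local instance] finCode

/-- the pair of strings of length `|x|` whose bits are given by the oracle `W` about `x` -/
def rdW (W : List Bool → Bool) (x : List Bool) : List Bool × List Bool :=
  ((List.range x.length).map fun i => W (pairStr (x, List.replicate i true)),
    (List.range x.length).map fun i => W (pairStr (x, List.replicate (x.length + i) true)))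

/-- the oracle `W` gives, bit by bit, collisions of the maps `u ↦ C (x, u)` -/
def GivesCollisions (C : List Bool × List Bool → List Bool) (W : List Bool → Bool) : Prop :=
  ∀ x : List Bool, x ≠ [] → (rdW W x).1 ≠ (rdW W x).2 ∧ C (x, (rdW W x).1) = C (x, (rdW W x).2)

/-- the two halves of a piece of answers -/
def splitO (n : ℕ) (ch : List Bool) : List Bool × List Bool := (ch.take n, (ch.drop n).take n)

theorem splitO_chunkW {W : List Bool → Bool} {n : ℕ} {k : List Bool} (h : 2 * k.length ≤ n) :
    splitO k.length (chunkW W n k) = rdW W k := by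
  unfold splitO rdW chunkW
  refine Prod.ext ?_ ?_
  · refine List.ext_getElem (by simp; omega) fun i h1 h2 => ?_
    simp
  · refine List.ext_getElem (by simp; omega) fun i h1 h2 => ?_
    simp

section

variable {γ : Type} [Code γ] [DecidableEq γ] (V : List Bool × List Bool → Bool)
  (E : List Bool × List (List Bool) → γ) (r : ℕ → ℕ) (K N : Polynomial ℕ)

/-- the pruning step given by two strings -/
def selO (w : List Bool × List Bool) (U : List (List Bool)) (m : ℕ) : Step :=
  (bsel w.1 U m (r m), bsel w.2 U m (r m),
    ((bsel w.1 U m (r m)).filter fun v => !decide (v ∈ bsel w.2 U m (r m))).headD [])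

/-- the step is correct -/
def delO (x : List Bool) (U : List (List Bool)) (st : Step) : Bool :=
  stepOK (fun S => E (x, S)) U st && decide (st.2.2 ∈ U)

/-- the key of a state -/
def keyO (x : List Bool) (s : StZ) : List Bool := enc (keyFor r x s.2.1 s.2.2)

/-- the transition for a piece of answers -/
def trO (x : List Bool) (s : StZ) (ch : List Bool) : StZ :=
  ztr (fun u => V (x, u)) (K.eval x.length) (N.eval x.length)
    (fun _ _ => (selO r (splitO (keyO r x s).length ch) s.2.1 s.2.2).2.2) s
    (delO E x s.2.1 (selO r (splitO (keyO r x s).length ch) s.2.1 s.2.2))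

/-- the nodes for the oracle `W` -/
def ndO (W : List Bool → Bool) (x : List Bool) (U : List (List Bool)) (c : ℕ) : List Bool :=
  (selO r (rdW W (enc (keyFor r x U c))) U c).2.2

/-- the decisions for the oracle `W` -/
def qO (W : List Bool → Bool) (x : List Bool) (U : List (List Bool)) (c : ℕ) : Bool :=
  delO E x U (selO r (rdW W (enc (keyFor r x U c))) U c)

variable {V E r K N}

theorem trO_eq {W : List Bool → Bool} {x : List Bool} {s : StZ} {n : ℕ}
    (h : 2 * (keyO r x s).length ≤ n) :
    trO V E r K N x s (chunkW W n (keyO r x s)) =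
      zstep (fun u => V (x, u)) (K.eval x.length) (N.eval x.length) (ndO r W x)
        (qO E r W x) s := by
  unfold trO
  rw [splitO_chunkW h]
  rfl

/-- the decisions are good -/
theorem goodO {W : List Bool → Bool} (hW : GivesCollisions (mapC E) W) {x : List Bool}
    {m0 C Kx Nx : ℕ} (h1 : 1 ≤ m0) (hC : m0 < C) (hK : m0 * 2 ^ r m0 ≤ Kx)
    (hb : ∀ S : List (List Bool), S.length = m0 → (∀ u ∈ S, u.length ≤ Nx + 1) →
      sz (E (x, S)) + 2 ≤ m0 * r m0) {Pr : γ → Prop}
    (hE : ∀ A : List (List Bool), A ≠ [] →
      (Pr (E (x, A)) ↔ ∃ u ∈ A, Good (fun u => V (x, u)) Nx u)) :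
    GoodQ (fun u => V (x, u)) Kx Nx C (ndO r W x) (qO E r W x) := by
  refine ⟨fun U hU hKU hlen => ⟨m0, hC, ?_⟩, fun U c hU hKU hc hq => ?_,
    fun U c hU hKU hc hq hg => ?_⟩
  · have hne : enc (keyFor r x U m0) ≠ [] := enc_ne_nil _
    obtain ⟨h3, h4⟩ := hW _ hne
    have h1' : (rdW W (enc (keyFor r x U m0))).1.length = (enc (keyFor r x U m0)).length := by
      simp [rdW]
    have h2' : (rdW W (enc (keyFor r x U m0))).2.length = (enc (keyFor r x U m0)).length := by
      simp [rdW]
    have h5 : U.length ≤ (enc (keyFor r x U m0)).length := by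
      have h6 := length_le_sz U
      have h7 := sz_pair x (U, (List.replicate m0 true, List.replicate (r m0) true))
      have h8 := sz_pair U (List.replicate m0 true, List.replicate (r m0) true)
      unfold sz at h6 h7 h8
      unfold keyFor
      omega
    have h6 : m0 * r m0 ≤ m0 * 2 ^ r m0 := Nat.mul_le_mul_left _ (Nat.lt_two_pow_self).le
    have hla : (List.replicate m0 true).length = m0 := List.length_replicate
    have hlb : (List.replicate (r m0) true).length = r m0 := List.length_replicate
    have hc := collision_mapC E (x := x) hU (a := List.replicate m0 true)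
      (b := List.replicate (r m0) true) (by rw [hla, hlb]; omega)
      (by
        intro S hS hSU
        rw [hla] at hS
        rw [hla, hlb]
        exact hb S hS fun u hu => hlen u (hSU hu))
      (w := (rdW W (enc (keyFor r x U m0))).1) (w' := (rdW W (enc (keyFor r x U m0))).2)
      (by rw [hla, hlb, h1']; omega) (by rw [hla, hlb, h2']; omega) h3 h4
    rw [hla, hlb] at hc
    obtain ⟨⟨u, hu, huT⟩, hc2⟩ := hc
    have hS := bsel_subset (w := (rdW W (enc (keyFor r x U m0))).1) (U := U) (m := m0)
      (r := r m0) (by rw [h1']; omega) (by omega)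
    have hT := bsel_subset (w := (rdW W (enc (keyFor r x U m0))).2) (U := U) (m := m0)
      (r := r m0) (by rw [h2']; omega) (by omega)
    have hT0 : bsel (rdW W (enc (keyFor r x U m0))).2 U m0 (r m0) ≠ [] := by
      intro h0
      have := length_bsel (rdW W (enc (keyFor r x U m0))).2 U m0 (r m0)
      rw [h0] at this
      simp at this
      omega
    unfold qO delO selO
    generalize bsel (rdW W (enc (keyFor r x U m0))).1 U m0 (r m0) = S at *
    generalize bsel (rdW W (enc (keyFor r x U m0))).2 U m0 (r m0) = T at *
    have hmem : (S.filter fun v => !decide (v ∈ T)).headD [] ∈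
        S.filter fun v => !decide (v ∈ T) := by
      have h1 : u ∈ S.filter fun v => !decide (v ∈ T) := List.mem_filter.2 ⟨hu, by simp [huT]⟩
      revert h1
      generalize S.filter (fun v => !decide (v ∈ T)) = l
      intro h1
      cases l with
      | nil => simp at h1
      | cons a l => simp
    generalize (S.filter fun v => !decide (v ∈ T)).headD [] = y at hmem
    rw [List.mem_filter] at hmem
    obtain ⟨h7, h8⟩ := hmem
    simp only [Bool.not_eq_true', decide_eq_false_iff_not] at h8
    simp only [stepOK, Bool.and_eq_true, Bool.not_eq_true', List.isEmpty_eq_false_iff,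
      List.all_eq_true, decide_eq_true_eq, decide_eq_false_iff_not]
    exact ⟨⟨⟨⟨⟨hT0, fun v hv => hT hv⟩, h7⟩, h8⟩, hc2⟩, hS h7⟩
  · unfold qO delO at hq
    simp only [Bool.and_eq_true, decide_eq_true_eq] at hq
    exact hq.2
  · unfold qO delO at hq
    simp only [Bool.and_eq_true, decide_eq_true_eq] at hq
    have h2 := good_applyStep (E := fun S => E (x, S)) hE hg
      (selO r (rdW W (enc (keyFor r x U c))) U c)
    unfold applyStep at h2
    rw [hq.1, cond_true] at h2
    exact h2

theorem pt_selO (hr : PT r) {α : Type} [Code α] {w : α → List Bool × List Bool}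
    {U : α → List (List Bool)} {m : α → ℕ} (hw : PT w) (hU : PT U) (hm : PT m) :
    PT (fun a => selO r (w a) (U a) (m a)) := by
  have hrm : PT (fun a => r (m a)) := hr.comp hm
  have h1 := pt_bsel hw.fst' hU hm hrm
  have h2 := pt_bsel hw.snd' hU hm hrm
  have h3 : PT (fun a => (bsel (w a).1 (U a) (m a) (r (m a))).filter fun v =>
      !decide (v ∈ bsel (w a).2 (U a) (m a) (r (m a)))) :=
    PT.filter (p := fun y : α × List Bool =>
      !decide (y.2 ∈ bsel (w y.1).2 (U y.1) (m y.1) (r (m y.1)))) h1
      (PT.mem' (h2.comp PT.fst) PT.snd).not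
  exact h1.pair (h2.pair (PT.headD h3 (PT.const [])))

theorem pt_keyO (hr : PT r) : PT (fun z : List Bool × StZ => keyO r z.1 z.2) := by
  have h1 : PT (fun z : List Bool × StZ => (z.1, z.2.2.1, z.2.2.2)) :=
    PT.fst.pair (PT.snd.snd'.fst'.pair PT.snd.snd'.snd')
  exact (PT.comp (f := fun z : List Bool × StZ => (z.1, z.2.2.1, z.2.2.2)) (pt_keyFor hr)
    h1).quote

theorem pt_trO (hV : PT V) (hE : PT E) (hr : PT r) :
    PT (fun y : List Bool × StZ × List Bool => trO V E r K N y.1 y.2.1 y.2.2) := by
  have hx : PT (fun y : List Bool × StZ × List Bool => y.1) := PT.fst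
  have hs : PT (fun y : List Bool × StZ × List Bool => y.2.1) := PT.snd.fst'
  have hch : PT (fun y : List Bool × StZ × List Bool => y.2.2) := PT.snd.snd'
  have hU : PT (fun y : List Bool × StZ × List Bool => y.2.1.2.1) := hs.snd'.fst'
  have hc : PT (fun y : List Bool × StZ × List Bool => y.2.1.2.2) := hs.snd'.snd'
  have hK : PT (fun y : List Bool × StZ × List Bool => K.eval y.1.length) :=
    PT.polyEval K hx.length
  have hN : PT (fun y : List Bool × StZ × List Bool => N.eval y.1.length) :=
    PT.polyEval N hx.length
  have hn : PT (fun y : List Bool × StZ × List Bool => (keyO r y.1 y.2.1).length) :=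
    (PT.comp (f := fun y : List Bool × StZ × List Bool => (y.1, y.2.1)) (pt_keyO hr)
      (hx.pair hs)).length
  have hsp : PT (fun y : List Bool × StZ × List Bool =>
      splitO (keyO r y.1 y.2.1).length y.2.2) := (hch.take hn).pair ((hch.drop hn).take hn)
  have hsel : PT (fun y : List Bool × StZ × List Bool =>
      selO r (splitO (keyO r y.1 y.2.1).length y.2.2) y.2.1.2.1 y.2.1.2.2) :=
    pt_selO hr hsp hU hc
  have hnd := hsel.snd'.snd'
  have hdel : PT (fun y : List Bool × StZ × List Bool => delO E y.1 y.2.1.2.1
      (selO r (splitO (keyO r y.1 y.2.1).length y.2.2) y.2.1.2.1 y.2.1.2.2)) :=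
    (PT.comp (f := fun y : List Bool × StZ × List Bool => (y.1, y.2.1.2.1,
      selO r (splitO (keyO r y.1 y.2.1).length y.2.2) y.2.1.2.1 y.2.1.2.2)) (pt_stepOK hE)
      (hx.pair (hU.pair hsel))).and (PT.mem' hU hnd)
  have hlong : PT (fun y : List Bool × StZ × List Bool =>
      decide (K.eval y.1.length ≤ y.2.1.2.1.length)) := PT.le hK hU.length
  have hfil : PT (fun y : List Bool × StZ × List Bool => y.2.1.2.1.filter fun v =>
      !decide (v = (selO r (splitO (keyO r y.1 y.2.1).length y.2.2) y.2.1.2.1
        y.2.1.2.2).2.2)) :=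
    PT.filter (p := fun w : (List Bool × StZ × List Bool) × List Bool => !decide (w.2 =
      (selO r (splitO (keyO r w.1.1 w.1.2.1).length w.1.2.2) w.1.2.1.2.1
        w.1.2.1.2.2).2.2)) hU (PT.eq PT.snd (hnd.comp PT.fst)).not
  have hN1 : PT (fun w : (List Bool × StZ × List Bool) × List Bool => N.eval w.1.1.length) :=
    PT.polyEval N PT.fst.fst'.length
  have hV1 : PT (fun w : (List Bool × StZ × List Bool) × List Bool => V (w.1.1, w.2)) :=
    PT.comp (f := fun w : (List Bool × StZ × List Bool) × List Bool => (w.1.1, w.2)) hV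
      (PT.fst.fst'.pair PT.snd)
  have hany : PT (fun y : List Bool × StZ × List Bool =>
      y.2.1.2.1.any fun u => V (y.1, u) && decide (u.length ≤ N.eval y.1.length)) :=
    PT.any (p := fun w : (List Bool × StZ × List Bool) × List Bool =>
      V (w.1.1, w.2) && decide (w.2.length ≤ N.eval w.1.1.length)) hU
      (hV1.and (PT.le PT.snd.length hN1))
  have hexp : PT (fun y : List Bool × StZ × List Bool =>
      expandN (N.eval y.1.length) y.2.1.2.1) := by
    show PT (fun y : List Bool × StZ × List Bool =>
      expand (y.2.1.2.1.filter fun u : List Bool => decide (u.length ≤ N.eval y.1.length)))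
    exact pt_expand.comp (PT.filter (p := fun w : (List Bool × StZ × List Bool) × List Bool =>
      decide (w.2.length ≤ N.eval w.1.1.length)) hU (PT.le PT.snd.length hN1))
  exact PT.cond hlong
    (PT.cond hdel (hs.fst'.pair (hfil.pair (PT.const 0)))
      (hs.fst'.pair (hU.pair hc.succ)))
    ((hs.fst'.or hany).pair (hexp.pair (PT.const 0)))

/-- the states are small -/
theorem binv_foldO (hK : ∀ n, 1 ≤ K.eval n) (x : List Bool) (l : List (List Bool)) :
    BInv (K.eval x.length) (N.eval x.length) l.length
      (l.foldl (trO V E r K N x) (false, [[]], 0)) := by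
  induction l using List.reverseRecOn with
  | nil => exact binv_zero (hK _)
  | append_singleton l b ih =>
    rw [List.foldl_append, List.length_append, List.length_singleton]
    have h1 : ∀ s : StZ, BInv (K.eval x.length) (N.eval x.length) l.length s →
        BInv (K.eval x.length) (N.eval x.length) (l.length + 1) (trO V E r K N x s b) :=
      fun s hs => by unfold trO; exact binv_step hs _
    exact h1 _ ih

theorem pt_stateO (hV : PT V) (hE : PT E) (hr : PT r) (hK : ∀ n, 1 ≤ K.eval n)
    (L : Polynomial ℕ) : PT (fun z : List Bool × List Bool =>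
      stateC (trO V E r K N) (false, [[]], 0) L z.1 z.2) := by
  have hg : PT (fun y : (List Bool × List Bool) × StZ × List Bool =>
      trO V E r K N y.1.1 y.2.1 y.2.2) :=
    PT.comp (f := fun y : (List Bool × List Bool) × StZ × List Bool => (y.1.1, y.2.1, y.2.2))
      (pt_trO hV hE hr) (PT.fst.fst'.pair (PT.snd.fst'.pair PT.snd.snd'))
  refine PT.foldl (l := fun z : List Bool × List Bool => pieces (L.eval z.1.length) z.2)
    (s := fun _ => ((false, [[]], 0) : StZ))
    (g := fun y : (List Bool × List Bool) × StZ × List Bool =>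
      trO V E r K N y.1.1 y.2.1 y.2.2)
    (pt_pieces (PT.polyEval L PT.fst.length) PT.snd) (PT.const _) hg
    (2 * K * (4 * (N + 1) + 2) + 2 * Polynomial.X + 10) ?_
  rintro ⟨x, l⟩ l' hl'
  have h2 := sz_state (binv_foldO (V := V) (E := E) (r := r) (N := N) hK x l')
  have h3 : x.length ≤ sz (x, l) := by
    have := length_le_sz x
    rw [sz_pair]
    omega
  have h4 : l'.length ≤ sz (x, l) := by
    have h5 := length_le_sz l
    have h6 := hl'.length_le
    have h7 : (pieces (L.eval x.length) l).length ≤ l.length := by
      unfold pieces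
      rw [List.length_map, List.length_range]
      exact Nat.div_le_self _ _
    simp only at h6
    rw [sz_pair]
    omega
  have h5 := eval_mono K h3
  have h6 := eval_mono N h3
  simp only at h5 h6
  simp only [Polynomial.eval_add, Polynomial.eval_mul, Polynomial.eval_X, Polynomial.eval_ofNat,
    Polynomial.eval_one]
  refine h2.trans ?_
  have h7 : 2 * K.eval x.length * (4 * (N.eval x.length + 1) + 2) ≤
      2 * K.eval (sz (x, l)) * (4 * (N.eval (sz (x, l)) + 1) + 2) :=
    Nat.mul_le_mul (by omega) (by omega)
  omega

/-- the iterations agree -/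
theorem iterC_eq {L : Polynomial ℕ} (hK : ∀ n, 1 ≤ K.eval n) (W : List Bool → Bool)
    (x : List Bool) (t : ℕ) (hL : ∀ s : StZ, BInv (K.eval x.length) (N.eval x.length) t s →
      2 * (keyO r x s).length ≤ L.eval x.length) : ∀ j ≤ t,
    BInv (K.eval x.length) (N.eval x.length) j
      (iterC (trO V E r K N) (keyO r) (false, [[]], 0) L W x j) ∧
    iterC (trO V E r K N) (keyO r) (false, [[]], 0) L W x j =
      (zstep (fun u => V (x, u)) (K.eval x.length) (N.eval x.length) (ndO r W x)
        (qO E r W x))^[j] (false, [[]], 0) := by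
  intro j
  induction j with
  | zero => intro _; exact ⟨binv_zero (hK _), rfl⟩
  | succ j ih =>
    intro hj
    obtain ⟨h1, h2⟩ := ih (by omega)
    have h3 : iterC (trO V E r K N) (keyO r) (false, [[]], 0) L W x (j + 1) =
        trO V E r K N x (iterC (trO V E r K N) (keyO r) (false, [[]], 0) L W x j)
          (chunkW W (L.eval x.length)
            (keyO r x (iterC (trO V E r K N) (keyO r) (false, [[]], 0) L W x j))) := by
      unfold iterC
      rw [Function.iterate_succ_apply']
    have h4 : 2 * (keyO r x (iterC (trO V E r K N) (keyO r) (false, [[]], 0) L W x j)).length ≤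
        L.eval x.length := hL _ ⟨h1.1, h1.2.1, h1.2.2.trans (by omega)⟩
    rw [Function.iterate_succ_apply', ← h2, h3, trO_eq h4]
    exact ⟨binv_step h1 _, rfl⟩

/-- the bound for the keys -/
theorem exists_keyBound (hr : PT r) (T : Polynomial ℕ) : ∃ L : Polynomial ℕ,
    (∀ n, 1 ≤ L.eval n) ∧ ∀ (x : List Bool) (s : StZ),
      BInv (K.eval x.length) (N.eval x.length) (T.eval x.length) s →
        2 * (keyO r x s).length ≤ L.eval x.length := by
  obtain ⟨q, hq⟩ := hr.size
  refine ⟨2 * (4 * Polynomial.X + 2 * K * (4 * (N + 1) + 2) + 4 * T + 4 * q.comp (2 * T + 1) + 10),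
    fun n => by simp only [Polynomial.eval_add, Polynomial.eval_mul, Polynomial.eval_ofNat]; omega,
    ?_⟩
  rintro x ⟨f, U, c⟩ ⟨h1, h2, h3⟩
  simp only at h1 h2 h3
  have e1 : (keyO r x (f, U, c)).length = sz x + (sz U + (sz (List.replicate c true) +
      sz (List.replicate (r c) true) + 1) + 1) + 1 := by
    show sz (keyFor r x U c) = _
    unfold keyFor
    rw [sz_pair, sz_pair, sz_pair]
  have e2 := sz_str x
  have e3 := sz_strs h1 h2
  have e4 := sz_str (List.replicate c true)
  have e5 := sz_str (List.replicate (r c) true)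
  rw [List.length_replicate] at e4 e5
  have e6 := hq c
  have e7 : sz c ≤ 2 * T.eval x.length + 1 := by rw [sz_nat]; omega
  have e8 : q.eval (sz c) ≤ q.eval (2 * T.eval x.length + 1) := eval_mono q e7
  have e9 : r c ≤ sz (r c) := by rw [sz_nat]; omega
  simp only [Polynomial.eval_add, Polynomial.eval_mul, Polynomial.eval_X, Polynomial.eval_ofNat,
    Polynomial.eval_one, Polynomial.eval_comp]
  omega

end

/-- **Main theorem.** If an NP-hard language has an OR-compression to `O (log n)` symbols per
string, then for every `L` in NP there is a length-decreasing polynomial time map such that `L` is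
decided in polynomial time with every oracle which gives its collisions bit by bit, and without
oracle if the collisions can be found in polynomial time. -/
theorem exists_collisions {S : Type} [Finite S] [Nonempty S] {R R' : Set (List S)}
    (hR : ORDist.NPHard R) {D : List (List S) → List S} (hD : ORCompressionLog R R' D)
    {L : Set (List Bool)} (hL : ORDist.InNP L) :
    ∃ C : List Bool × List Bool → List Bool, Shrinking C ∧
      (∀ W : List Bool → Bool, GivesCollisions C W → InPO W L) ∧
      ((∃ A, CollisionFinder C A) → InP L) := by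
  classical
  obtain ⟨V, p, hV0, hL⟩ := hL
  have hV : PT V := by
    have h : PT (fun z : List Bool × List Bool => [V z]) := PT.ofTM2 hV0.some pt_pairStr
    exact (h.headD (PT.const false)).congr fun z => rfl
  obtain ⟨E, c, PM, M, hEpt, hE, hM⟩ := exists_blockMap hR hD hV p
  have hshort : ∀ (x : List Bool) (A : List (List Bool)), A.length = M x →
      (∀ u ∈ A, u.length ≤ p.eval x.length + 1) → sz (E (x, A)) + 2 ≤ M x * rate c (M x) := by
    intro x A hA hAl
    obtain ⟨h1, _, h3⟩ := hM x
    have h5 := h3 A hA hAl
    have h9 : M x * rate c (M x) = M x * (c * (M x).bits.length) + 3 * M x := by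
      unfold rate
      ring
    omega
  refine ⟨mapC E, shrinking_mapC hEpt, fun W hW => ?_, ?_⟩
  · let C : Polynomial ℕ := PM + 1
    let K : Polynomial ℕ := PM * (8 * (2 * PM) ^ c) + 1
    let T : Polynomial ℕ := (p + 1) * (K * (C + 1)) + (C + 1) * 2 + 1
    have hK : ∀ n, 1 ≤ K.eval n := fun n => by simp [K]
    obtain ⟨Lp, hLp1, hLp2⟩ := exists_keyBound (K := K) (N := p) (pt_rate c) T
    refine ⟨fun x => (iterC (trO V E (rate c) K p) (keyO (rate c)) (false, [[]], 0) Lp W x
        (T.eval x.length)).1,
      polyTimeO_procC (trO V E (rate c) K p) (keyO (rate c)) (false, [[]], 0) (fun s => s.1) Lp T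
        (pt_procC (pt_stateO hV hEpt (pt_rate c) hK Lp) (pt_keyO (pt_rate c)) PT.fst) hLp1 W,
      fun x => ?_⟩
    beta_reduce
    rw [hL x, (iterC_eq hK W x (T.eval x.length) (hLp2 x) _ le_rfl).2]
    obtain ⟨h1, h2, h3⟩ := hM x
    have hGQ : GoodQ (fun u => V (x, u)) (K.eval x.length) (p.eval x.length)
        (C.eval x.length) (ndO (rate c) W x) (qO E (rate c) W x) := by
      refine goodO (Pr := fun y => ∃ v ∈ y, v ∈ R') hW h1 ?_ ?_ (hshort x) (hE x)
      · simp only [C, Polynomial.eval_add, Polynomial.eval_one]
        omega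
      · simp only [K, Polynomial.eval_add, Polynomial.eval_one, Polynomial.eval_mul,
          Polynomial.eval_pow, Polynomial.eval_ofNat]
        exact (mul_pow_rate_le h1 h2).trans (Nat.le_succ _)
    have h4 := zsearch_correct (hK x.length) hGQ
    have hT : T.eval x.length = (p.eval x.length + 1) * (K.eval x.length *
        (C.eval x.length + 1)) + (C.eval x.length + 1) * 2 + 1 := by
      simp only [T, Polynomial.eval_mul, Polynomial.eval_add, Polynomial.eval_one,
        Polynomial.eval_ofNat]
    rw [hT]
    exact h4.symm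
  · rintro ⟨A, hA⟩
    obtain ⟨d, hd, hdL⟩ := search_main hV hEpt (pt_rate c)
      (PM + 1) (PM * (8 * (2 * PM) ^ c)) p
      (fun _ y => ∃ v ∈ y, v ∈ R') hE (by
        intro x
        obtain ⟨h1, h2, h3⟩ := hM x
        refine ⟨M x, h1, ?_, ?_, hshort x⟩
        · simp only [Polynomial.eval_add, Polynomial.eval_one]
          omega
        · simp only [Polynomial.eval_mul, Polynomial.eval_pow, Polynomial.eval_ofNat]
          exact mul_pow_rate_le h1 h2) hA
    exact ⟨d, hd.polyTime_dec, fun x => (hL x).trans (hdL x).symm⟩

end ORZ
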