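import Pool.Agent.Work.MP_609cce_lc_szk.ZMain
import Pool.Agent.Work.MP_609cce_lc_nd.NDefs

/-!
# Compressions to `O (log n)` symbols per string: cutting a list of instances into blocks

A compression of `m (n)` strings of length at most `n` to `c · m (n) · (log n + 1)` symbols is
applied to `n + 1` blocks of `m (n)` strings.  The number of all strings is then at least `n + 1`,
so the outputs together are short compared with `M log M`, where `M = m (n) (n + 1)`.
-/

namespace ORDist

open PTime Turing

attribute [local instance] finCode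

/-- the nonempty blocks of size `b` of a list -/
def blocks {α : Type} (b : ℕ) (A : List α) : List (List α) :=
  ((List.range A.length).map fun i => (A.drop (i * b)).take b).filter fun T => !T.isEmpty

theorem mem_blocks {α : Type} {b : ℕ} {A T : List α} (h : T ∈ blocks b A) :
    T ≠ [] ∧ T ⊆ A := by
  obtain ⟨h1, h2⟩ := List.mem_filter.1 h
  obtain ⟨i, _, rfl⟩ := List.mem_map.1 h1
  refine ⟨by rintro h3; rw [h3] at h2; simp at h2, fun u hu => ?_⟩
  exact List.mem_of_mem_drop (List.mem_of_mem_take hu)

theorem exists_block {α : Type} {b : ℕ} (hb : 1 ≤ b) {A : List α} {u : α} (hu : u ∈ A) :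
    ∃ T ∈ blocks b A, u ∈ T := by
  obtain ⟨k, hk, rfl⟩ := List.mem_iff_getElem.1 hu
  have h1 : k / b < A.length := lt_of_le_of_lt (Nat.div_le_self _ _) hk
  have h2 : k / b * b + k % b = k := by
    rw [mul_comm]; exact Nat.div_add_mod k b
  have h3 : k % b < b := Nat.mod_lt _ hb
  have h4 : A[k] ∈ (A.drop (k / b * b)).take b := by
    rw [List.mem_iff_getElem]
    refine ⟨k % b, ?_, ?_⟩
    · rw [List.length_take, List.length_drop]
      omega
    · rw [List.getElem_take, List.getElem_drop]
      congr 1
  refine ⟨(A.drop (k / b * b)).take b, List.mem_filter.2 ⟨List.mem_map.2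
    ⟨k / b, List.mem_range.2 h1, rfl⟩, ?_⟩, h4⟩
  cases h : (A.drop (k / b * b)).take b with
  | nil => rw [h] at h4; simp at h4
  | cons a l => rfl

theorem length_block {α : Type} {b N : ℕ} {A T : List α} (hA : A.length = b * N)
    (h : T ∈ blocks b A) : T.length = b := by
  obtain ⟨h1, h2⟩ := List.mem_filter.1 h
  obtain ⟨i, _, rfl⟩ := List.mem_map.1 h1
  have h3 : 0 < ((A.drop (i * b)).take b).length := by
    rw [List.length_pos_iff]
    rintro h3
    rw [h3] at h2
    simp at h2
  rw [List.length_take, List.length_drop, hA] at h3 ⊢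
  have h4 : i < N := by
    by_contra h5
    have : b * N ≤ i * b := by
      rw [mul_comm b N]
      exact Nat.mul_le_mul_right _ (by omega)
    omega
  have h5 : (i + 1) * b ≤ N * b := Nat.mul_le_mul_right _ h4
  rw [add_mul, one_mul] at h5
  have h6 : b * N = N * b := mul_comm _ _
  omega

theorem blocks_length {α : Type} {b N : ℕ} {A : List α} (hA : A.length = b * N) :
    (blocks b A).length ≤ N := by
  unfold blocks
  rw [List.filter_map, List.length_map]
  have h1 : (List.range A.length).filter ((fun T : List α => !T.isEmpty) ∘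
      fun i => (A.drop (i * b)).take b) ⊆ List.range N := by
    intro i hi
    obtain ⟨_, h2⟩ := List.mem_filter.1 hi
    rw [List.mem_range]
    by_contra h3
    have h4 : A.length ≤ i * b := by
      rw [hA, mul_comm b N]
      exact Nat.mul_le_mul_right _ (by omega)
    rw [Function.comp_apply, List.drop_eq_nil_of_le h4] at h2
    simp at h2
  have h2 : ((List.range A.length).filter ((fun T : List α => !T.isEmpty) ∘
      fun i => (A.drop (i * b)).take b)).Nodup := List.nodup_range.filter _
  have h3 := (List.subperm_of_subset h2 h1).length_le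
  rwa [List.length_range] at h3

/-- the size of the blocks for a list of `M` instances and the parameter `n` -/
def blockSize (n M : ℕ) : ℕ := (M / (n + 1) - 1) + 1

theorem blockSize_mul {n m : ℕ} (hm : 1 ≤ m) : blockSize n (m * (n + 1)) = m := by
  unfold blockSize
  rw [Nat.mul_div_cancel _ (Nat.succ_pos n)]
  omega

section

variable {S : Type} [Finite S]

/-- the outputs of `D` on the blocks of instances -/
def blockMap (D : List (List S) → List S) (f : List Bool → List S) (n0 : Polynomial ℕ)
    (z : List Bool × List (List Bool)) : List (List S) :=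
  (blocks (blockSize (n0.eval z.1.length) z.2.length) z.2).map fun T =>
    D (T.map fun u => f (pairStr (z.1, u)))

theorem pt_blocks {α β : Type} [Code α] [Code β] {b : α → ℕ} {A : α → List β} (hb : PT b)
    (hA : PT A) : PT (fun a => blocks (b a) (A a)) := by
  have h1 : PT (fun x : α × ℕ => ((A x.1).drop (x.2 * b x.1)).take (b x.1)) :=
    ((hA.comp PT.fst).drop (PT.snd.mul (hb.comp PT.fst))).take (hb.comp PT.fst)
  exact PT.filter (l := fun a => (List.range (A a).length).map fun i =>
      ((A a).drop (i * b a)).take (b a))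
    (p := fun x : α × List β => !x.2.isEmpty)
    (PT.map (l := fun a => List.range (A a).length)
      (g := fun x : α × ℕ => ((A x.1).drop (x.2 * b x.1)).take (b x.1)) hA.length.range h1)
    PT.snd.isEmpty.not

theorem pt_blockMap {D : List (List S) → List S} {f : List Bool → List S} (hD : PT D)
    (hf : PT f) (n0 : Polynomial ℕ) : PT (blockMap D f n0) := by
  have h1 : PT (fun z : List Bool × List (List Bool) =>
      blockSize (n0.eval z.1.length) z.2.length) :=
    ((PT.snd.length).div (PT.polyEval n0 PT.fst.length).succ).pred.succ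
  have hg : PT (fun x : (List Bool × List (List Bool)) × List (List Bool) =>
      D (x.2.map fun u => f (pairStr (x.1.1, u)))) := by
    have hg' : PT (fun x : ((List Bool × List (List Bool)) × List (List Bool)) × List Bool =>
        f (pairStr (x.1.1.1, x.2))) :=
      hf.comp (pt_pairStr.comp (PT.fst.fst'.fst'.pair PT.snd))
    exact hD.comp (PT.map PT.snd hg')
  exact PT.map (pt_blocks h1 PT.snd) hg

/-- **Compressions to `O (log n)` symbols per string give short outputs on blocks.** -/
theorem exists_blockMap [Nonempty S] {R R' : Set (List S)} (hR : NPHard R)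
    {D : List (List S) → List S} (hD : ORCompressionLog R R' D)
    {V : List Bool × List Bool → Bool} (hV : PT V) (p : Polynomial ℕ) :
    ∃ (E : List Bool × List (List Bool) → List (List S)) (c : ℕ) (PM : Polynomial ℕ)
      (M : List Bool → ℕ), PT E ∧
      (∀ (x : List Bool) (A : List (List Bool)), A ≠ [] →
        ((∃ y ∈ E (x, A), y ∈ R') ↔
          ∃ u ∈ A, Good (fun u => V (x, u)) (p.eval x.length) u)) ∧
      ∀ x : List Bool, 1 ≤ M x ∧ M x ≤ PM.eval x.length ∧
        ∀ A : List (List Bool), A.length = M x → (∀ u ∈ A, u.length ≤ p.eval x.length + 1) →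
          sz (E (x, A)) ≤ M x * (c * (M x).bits.length) + 1 := by
  classical
  have : Inhabited S := Classical.inhabited_of_nonempty inferInstance
  obtain ⟨f, hf0, hf⟩ := hR _ (prefix_inNP hV p)
  have hf1 : PT f := PT.ofTM2 (ea := fun x : List Bool => x) (eb := fun x : List S => x)
    (f := f) hf0.some PT.id
  have hD1 : PT D := PT.ofTM2 (ea := seqStr) (eb := fun x : List S => x) (f := D)
    hD.polyTime.some pt_seqStr
  obtain ⟨c, mm, pm, hmm⟩ := hD.short
  obtain ⟨q, hq⟩ := hf1.size
  obtain ⟨B, hB⟩ : ∃ B : ℕ, ∀ s : S, sz s ≤ B := by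
    have := Fintype.ofFinite S
    exact ⟨∑ s : S, sz s, fun s => Finset.single_le_sum (f := fun s : S => sz s)
      (fun _ _ => Nat.zero_le _) (Finset.mem_univ s)⟩
  let n0 : Polynomial ℕ := q.comp (4 * (2 * Polynomial.X + 1 + (p + 1)) + 1)
  have hn0 : ∀ x u : List Bool, u.length ≤ p.eval x.length + 1 →
      (f (pairStr (x, u))).length ≤ n0.eval x.length := by
    intro x u hu
    refine (length_le_sz _).trans ((hq _).trans ?_)
    have h1 := sz_str (pairStr (x, u))
    rw [pairStr_length] at h1
    have h2 := eval_mono q (show sz (pairStr (x, u)) ≤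
      4 * (2 * x.length + 1 + (p.eval x.length + 1)) + 1 by omega)
    simp only [n0, Polynomial.eval_comp, Polynomial.eval_add, Polynomial.eval_mul,
      Polynomial.eval_ofNat, Polynomial.eval_X, Polynomial.eval_one]
    exact h2
  have hgood : ∀ x u : List Bool, f (pairStr (x, u)) ∈ R ↔
      Good (fun u => V (x, u)) (p.eval x.length) u := by
    intro x u
    rw [← hf]
    exact mem_prefix
  have hblk : ∀ (x : List Bool) (T : List (List Bool)), T ≠ [] →
      (D (T.map fun u => f (pairStr (x, u))) ∈ R' ↔
        ∃ u ∈ T, Good (fun u => V (x, u)) (p.eval x.length) u) := by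
    intro x A hA
    rw [hD.correct _ (by simpa using hA)]
    constructor
    · rintro ⟨w, hw, hwR⟩
      obtain ⟨u, hu, rfl⟩ := List.mem_map.1 hw
      exact ⟨u, hu, (hgood x u).1 hwR⟩
    · rintro ⟨u, hu, hg⟩
      exact ⟨_, List.mem_map.2 ⟨u, hu, rfl⟩, (hgood x u).2 hg⟩
  refine ⟨blockMap D f n0, c * (B + 1) + 2, (pm.comp n0) * (n0 + 1),
    fun x => mm (n0.eval x.length) * (n0.eval x.length + 1), pt_blockMap hD1 hf1 n0,
    fun x A _ => ?_, fun x => ?_⟩
  · unfold blockMap
    constructor
    · rintro ⟨y, hy, hyR⟩
      obtain ⟨T, hT, rfl⟩ := List.mem_map.1 hy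
      obtain ⟨hT1, hT2⟩ := mem_blocks hT
      obtain ⟨u, hu, hg⟩ := (hblk x T hT1).1 hyR
      exact ⟨u, hT2 hu, hg⟩
    · rintro ⟨u, hu, hg⟩
      obtain ⟨T, hT, huT⟩ := exists_block
        (b := blockSize (n0.eval x.length) A.length) (by unfold blockSize; omega) hu
      exact ⟨_, List.mem_map.2 ⟨T, hT, rfl⟩,
        (hblk x T (mem_blocks hT).1).2 ⟨u, huT, hg⟩⟩
  · obtain ⟨h1, h2, h3⟩ := hmm (n0.eval x.length)
    refine ⟨Nat.mul_pos h1 (Nat.succ_pos _), ?_, fun A hA hlen => ?_⟩
    · simp only [Polynomial.eval_mul, Polynomial.eval_comp, Polynomial.eval_add,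
        Polynomial.eval_one]
      exact Nat.mul_le_mul_right _ h2
    · simp only at hA
      have hbs : blockSize (n0.eval x.length) A.length = mm (n0.eval x.length) := by
        rw [hA, blockSize_mul h1]
      have e1 : blockMap D f n0 (x, A) = (blocks (mm (n0.eval x.length)) A).map fun T =>
          D (T.map fun u => f (pairStr (x, u))) := by
        unfold blockMap
        simp only
        rw [hbs]
      rw [e1]
      beta_reduce
      have h4 : ∀ y ∈ (blocks (mm (n0.eval x.length)) A).map (fun T =>
          D (T.map fun u => f (pairStr (x, u)))),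
          sz y ≤ c * mm (n0.eval x.length) * (Nat.log 2 (n0.eval x.length) + 1) * (B + 1) + 1 := by
        intro y hy
        obtain ⟨T, hT, rfl⟩ := List.mem_map.1 hy
        have h5 := h3 (T.map fun u => f (pairStr (x, u)))
          (by rw [List.length_map]; exact length_block hA hT)
          (by
            intro w hw
            obtain ⟨u, hu, rfl⟩ := List.mem_map.1 hw
            exact hn0 x u (hlen u ((mem_blocks hT).2 hu)))
        have h6 := sz_list_le (l := D (T.map fun u => f (pairStr (x, u)))) (B := B)
          fun s _ => hB s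
        exact h6.trans (Nat.add_le_add_right (Nat.mul_le_mul_right _ h5) _)
      have h5 := sz_list_le h4
      rw [List.length_map] at h5
      have h6 := blocks_length hA
      generalize mm (n0.eval x.length) = m at *
      generalize n0.eval x.length = n at *
      have h7 : Nat.log 2 n + 1 ≤ (m * (n + 1)).bits.length := by
        refine le_trans ?_ (log_lt_bits (Nat.mul_pos h1 (Nat.succ_pos n)))
        refine Nat.add_le_add_right (Nat.log_mono_right ?_) _
        exact (Nat.le_succ n).trans (Nat.le_mul_of_pos_left _ h1)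
      generalize (m * (n + 1)).bits.length = b at h7 ⊢
      generalize Nat.log 2 n = t at h4 h5 h7
      generalize (blocks m A).length = L at h5 h6
      refine h5.trans (Nat.add_le_add_right ?_ _)
      calc L * (c * m * (t + 1) * (B + 1) + 1 + 1)
          ≤ (n + 1) * (c * m * (t + 1) * (B + 1) + 1 + 1) := Nat.mul_le_mul_right _ h6
        _ ≤ (n + 1) * (m * ((c * (B + 1) + 2) * (t + 1))) := by
            refine Nat.mul_le_mul_left _ ?_
            have h8 : 1 * 1 ≤ m * (t + 1) := Nat.mul_le_mul h1 (Nat.succ_pos t)
            nlinarith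
        _ ≤ (n + 1) * (m * ((c * (B + 1) + 2) * b)) :=
            Nat.mul_le_mul_left _ (Nat.mul_le_mul_left _ (Nat.mul_le_mul_left _ h7))
        _ = m * (n + 1) * ((c * (B + 1) + 2) * b) := by ring

end

end ORDist
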