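import Pool.Agent.Work.MP_609cce_lc_szk.ZMach

/-!
# Procedures which read the values of a function bit by bit from an oracle
-/

namespace ORZ

open ORDist PTime

/-- the complete pieces of length `L` of a list of answers -/
def pieces (L : ℕ) (l : List Bool) : List (List Bool) :=
  (List.range (l.length / L)).map fun i => (l.drop (i * L)).take L

theorem pieces_aux {L i k : ℕ} {B ch : List Bool} (hB : B.length = i * L) (hk : k < i) :
    ((B ++ ch).drop (k * L)).take L = (B.drop (k * L)).take L := by
  have h3 : (k + 1) * L ≤ i * L := Nat.mul_le_mul_right _ hk
  rw [add_mul, one_mul] at h3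
  rw [List.drop_append_of_le_length (by omega),
    List.take_append_of_le_length (by rw [List.length_drop]; omega)]

theorem pieces_append_short {L i : ℕ} {B ch : List Bool} (hL : 1 ≤ L) (hB : B.length = i * L)
    (hch : ch.length < L) : pieces L (B ++ ch) = pieces L B := by
  unfold pieces
  have h1 : (B ++ ch).length / L = i := by
    rw [List.length_append, hB, mul_comm, Nat.mul_add_div hL, Nat.div_eq_of_lt hch, Nat.add_zero]
  have h2 : B.length / L = i := by rw [hB, Nat.mul_div_cancel _ hL]
  rw [h1, h2]
  exact List.map_congr_left fun k hk => pieces_aux hB (List.mem_range.1 hk)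

theorem pieces_snoc {L i : ℕ} {B ch : List Bool} (hL : 1 ≤ L) (hB : B.length = i * L)
    (hch : ch.length = L) : pieces L (B ++ ch) = pieces L B ++ [ch] := by
  unfold pieces
  have h1 : (B ++ ch).length / L = i + 1 := by
    rw [List.length_append, hB, hch, show i * L + L = (i + 1) * L by ring,
      Nat.mul_div_cancel _ hL]
  have h2 : B.length / L = i := by rw [hB, Nat.mul_div_cancel _ hL]
  rw [h1, h2, List.range_succ, List.map_append]
  congr 1
  · exact List.map_congr_left fun k hk => pieces_aux hB (List.mem_range.1 hk)
  · simp only [List.map_cons, List.map_nil]
    rw [← hB, List.drop_append_of_le_length le_rfl, List.drop_length, List.nil_append,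
      List.take_of_length_le hch.le]

theorem length_answers (A : List Bool → Bool) (M : OProc) (x : List Bool) (k : ℕ) :
    (answers A M x k).length = k := by
  induction k with
  | zero => rfl
  | succ k ih => rw [answers, List.length_append, ih]; rfl

/-- the answers of the oracle to the first `n` queries about `k` -/
def chunkW (W : List Bool → Bool) (n : ℕ) (k : List Bool) : List Bool :=
  (List.range n).map fun i => W (pairStr (k, List.replicate i true))

theorem length_chunkW (W : List Bool → Bool) (n : ℕ) (k : List Bool) :
    (chunkW W n k).length = n := by
  simp [chunkW]

section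

variable {σ : Type} (tr : List Bool → σ → List Bool → σ) (key : List Bool → σ → List Bool)
  (s0 : σ) (out : σ → Bool) (L T : Polynomial ℕ)

/-- the state after some answers -/
def stateC (x l : List Bool) : σ := (pieces (L.eval x.length) l).foldl (tr x) s0

/-- the procedure -/
def procC : OProc := fun z =>
  bif decide (z.2.length < T.eval z.1.length * L.eval z.1.length) then
    (true, pairStr (key z.1 (stateC tr s0 L z.1 z.2),
      List.replicate (z.2.length % L.eval z.1.length) true))
  else (false, [out (stateC tr s0 L z.1 z.2)])

/-- the iteration -/
def iterC (W : List Bool → Bool) (x : List Bool) (t : ℕ) : σ :=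
  (fun s => tr x s (chunkW W (L.eval x.length) (key x s)))^[t] s0

theorem state_answersC (W : List Bool → Bool) (x : List Bool) (hL : 1 ≤ L.eval x.length) :
    ∀ i ≤ T.eval x.length, stateC tr s0 L x
      (answers W (procC tr key s0 out L T) x (i * L.eval x.length)) =
        iterC tr key s0 L W x i := by
  intro i
  induction i with
  | zero =>
    intro _
    rw [Nat.zero_mul]
    show (pieces (L.eval x.length) []).foldl (tr x) s0 = s0
    unfold pieces
    simp
  | succ i ih =>
    intro hi
    have h1 := ih (by omega)
    have h2 : (answers W (procC tr key s0 out L T) x (i * L.eval x.length)).length =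
        i * L.eval x.length := length_answers _ _ _ _
    have h3 : ∀ r ≤ L.eval x.length,
        answers W (procC tr key s0 out L T) x (i * L.eval x.length + r) =
          answers W (procC tr key s0 out L T) x (i * L.eval x.length) ++
            chunkW W r (key x (iterC tr key s0 L W x i)) := by
      intro r
      induction r with
      | zero => intro _; simp [chunkW]
      | succ r ihr =>
        intro hr
        have h4 := ihr (by omega)
        have h5 : i * L.eval x.length + (r + 1) = i * L.eval x.length + r + 1 := by omega
        have h6 : (i + 1) * L.eval x.length ≤ T.eval x.length * L.eval x.length :=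
          Nat.mul_le_mul_right _ hi
        rw [add_mul, one_mul] at h6
        rw [h5, answers, h4]
        have h7 : (procC tr key s0 out L T (x,
            answers W (procC tr key s0 out L T) x (i * L.eval x.length) ++
              chunkW W r (key x (iterC tr key s0 L W x i)))).2 =
            pairStr (key x (iterC tr key s0 L W x i), List.replicate r true) := by
          have h8 : (answers W (procC tr key s0 out L T) x (i * L.eval x.length) ++
              chunkW W r (key x (iterC tr key s0 L W x i))).length =
              i * L.eval x.length + r := by
            rw [List.length_append, h2, length_chunkW]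
          generalize hB : answers W (procC tr key s0 out L T) x (i * L.eval x.length) = B at *
          unfold procC
          simp only
          rw [h8, decide_eq_true (by omega), cond_true]
          have h9 : stateC tr s0 L x (B ++ chunkW W r (key x (iterC tr key s0 L W x i))) =
              iterC tr key s0 L W x i := by
            unfold stateC at h1 ⊢
            rw [pieces_append_short hL h2 (by rw [length_chunkW]; omega), h1]
          have h10 : (i * L.eval x.length + r) % L.eval x.length = r := by
            rw [mul_comm, Nat.mul_add_mod, Nat.mod_eq_of_lt (by omega)]
          rw [h9, h10]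
        rw [h7, List.append_assoc]
        congr 1
        unfold chunkW
        rw [List.range_succ, List.map_append]
        rfl
    have h4 : (i + 1) * L.eval x.length = i * L.eval x.length + L.eval x.length := by ring
    rw [h4, h3 _ le_rfl]
    unfold iterC at h1 ⊢
    rw [Function.iterate_succ_apply', ← h1]
    generalize answers W (procC tr key s0 out L T) x (i * L.eval x.length) = B at *
    unfold stateC at h1 ⊢
    rw [pieces_snoc hL h2 (length_chunkW _ _ _), List.foldl_append]
    rfl

/-- the procedure is a polynomial time procedure with the oracle -/
theorem polyTimeO_procC (hM : PT (procC tr key s0 out L T)) (hL : ∀ n, 1 ≤ L.eval n)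
    (W : List Bool → Bool) : PolyTimeO W (fun x => x) (fun x =>
      [out (iterC tr key s0 L W x (T.eval x.length))]) := by
  refine ⟨procC tr key s0 out L T, polyTime_of_pt hM, T * L, fun x =>
    ⟨T.eval x.length * L.eval x.length, by simp, fun j hj => ?_, ?_⟩⟩
  · show (procC tr key s0 out L T (x, answers W (procC tr key s0 out L T) x j)).1 = true
    have h1 := length_answers W (procC tr key s0 out L T) x j
    generalize answers W (procC tr key s0 out L T) x j = B at h1
    unfold procC
    simp only
    rw [h1, decide_eq_true hj, cond_true]
  · show procC tr key s0 out L T (x, answers W (procC tr key s0 out L T) x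
      (T.eval x.length * L.eval x.length)) = _
    have h1 := length_answers W (procC tr key s0 out L T) x (T.eval x.length * L.eval x.length)
    have h2 := state_answersC tr key s0 out L T W x (hL _) _ le_rfl
    generalize answers W (procC tr key s0 out L T) x
      (T.eval x.length * L.eval x.length) = B at h1 h2
    unfold procC
    simp only
    rw [h1, decide_eq_false (lt_irrefl _), cond_false, h2]

end

section

variable {σ : Type} [Code σ] {tr : List Bool → σ → List Bool → σ}
  {key : List Bool → σ → List Bool} {s0 : σ} {out : σ → Bool} {L T : Polynomial ℕ}

theorem pt_pieces {α : Type} [Code α] {n : α → ℕ} {l : α → List Bool} (hn : PT n) (hl : PT l) :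
    PT (fun a => pieces (n a) (l a)) := by
  have h1 : PT (fun x : α × ℕ => ((l x.1).drop (x.2 * n x.1)).take (n x.1)) :=
    ((hl.comp PT.fst).drop (PT.snd.mul (hn.comp PT.fst))).take (hn.comp PT.fst)
  exact PT.map (l := fun a => List.range ((l a).length / n a))
    (g := fun x : α × ℕ => ((l x.1).drop (x.2 * n x.1)).take (n x.1)) (hl.length.div hn).range h1

theorem pt_procC (hs : PT (fun z : List Bool × List Bool => stateC tr s0 L z.1 z.2))
    (hkey : PT (fun z : List Bool × σ => key z.1 z.2)) (hout : PT out) :
    PT (procC tr key s0 out L T) := by
  have hx : PT (fun z : List Bool × List Bool => z.1) := PT.fst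
  have hLp : PT (fun z : List Bool × List Bool => L.eval z.1.length) := PT.polyEval L hx.length
  have hT : PT (fun z : List Bool × List Bool => T.eval z.1.length) := PT.polyEval T hx.length
  have hk : PT (fun z : List Bool × List Bool => key z.1 (stateC tr s0 L z.1 z.2)) :=
    PT.comp (f := fun z : List Bool × List Bool => (z.1, stateC tr s0 L z.1 z.2)) hkey
      (hx.pair hs)
  have hq : PT (fun z : List Bool × List Bool => pairStr (key z.1 (stateC tr s0 L z.1 z.2),
      List.replicate (z.2.length % L.eval z.1.length) true)) :=
    pt_pairStr.comp (hk.pair (pt_rep (PT.snd.length.mod hLp)))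
  exact PT.cond (PT.lt PT.snd.length (hT.mul hLp)) ((PT.const true).pair hq)
    ((PT.const false).pair ((hout.comp hs).cons (PT.const [])))

end

end ORZ
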