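import Pool.Agent.Work.MP_609cce_lc_szk.ZSamp

/-!
# Amplification by a majority of 32 copies
-/

namespace ORZ

open ORDist PTime Finset

/-- products over independent copies -/
theorem EX_prod {γ : Type} (G : List Bool → γ) (h : γ → ℝ) (n : ℕ) : ∀ k : ℕ,
    EX (k * n) (fun u => ((outs G n k u).map h).prod) = EX n (fun u => h (G u)) ^ k
  | 0 => by
    rw [Nat.zero_mul, EX_zero, pow_zero]
    simp [outs]
  | k + 1 => by
    have h1 : ∀ v : List Bool, v.length = n →
        EX (k * n) (fun u => ((outs G n (k + 1) (v ++ u)).map h).prod) =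
        EX n (fun u => h (G u)) ^ k * h (G v) := by
      intro v hv
      have h2 : EX n (fun u => h (G u)) ^ k * h (G v) =
          h (G v) * EX (k * n) (fun u => ((outs G n k u).map h).prod) := by
        rw [EX_prod G h n k]
        ring
      rw [h2, ← EX_mul_left]
      refine EX_congr fun u _ => ?_
      rw [outs_succ G hv, List.map_cons, List.prod_cons]
    have e : (k + 1) * n = n + k * n := by ring
    rw [e, EX_append, EX_congr h1, EX_mul_left, pow_succ]

open Classical in
/-- the number of the members of `B` in a list -/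
noncomputable def cntB {γ : Type} (B : Set γ) (l : List γ) : ℕ := l.countP fun y => decide (y ∈ B)

open Classical in
theorem prod_two {γ : Type} (B : Set γ) : ∀ l : List γ,
    (l.map fun y => if y ∈ B then (2 : ℝ) else 1).prod = 2 ^ cntB B l
  | [] => by simp [cntB]
  | y :: l => by
    rw [List.map_cons, List.prod_cons, prod_two B l]
    unfold cntB
    rw [List.countP_cons]
    by_cases h : y ∈ B
    · rw [if_pos h, if_pos (by simpa using h), pow_succ, mul_comm]
    · rw [if_neg h, if_neg (by simpa using h), one_mul, Nat.add_zero]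

theorem cntB_compl {γ : Type} (B : Set γ) : ∀ l : List γ, cntB B l + cntB Bᶜ l = l.length
  | [] => by simp [cntB]
  | y :: l => by
    have ih := cntB_compl B l
    unfold cntB at ih ⊢
    rw [List.countP_cons, List.countP_cons, List.length_cons]
    by_cases h : y ∈ B
    · rw [if_pos (by simpa using h), if_neg (by simpa using h)]
      omega
    · rw [if_neg (by simpa using h), if_pos (by simpa using h)]
      omega

/-- many members of an unlikely set are unlikely -/
theorem tail32 {γ : Type} {n : ℕ} {G : List Bool → γ} {B : Set γ} (h : PR n G B ≤ 1 / 3) :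
    PR (32 * n) (outs G n 32) {l | 16 ≤ cntB B l} ≤ 1 / 6 := by
  classical
  have h1 : EX n (fun u => if G u ∈ B then (2 : ℝ) else 1) ≤ 4 / 3 := by
    have h2 : EX n (fun u => if G u ∈ B then (2 : ℝ) else 1) = 1 + PR n G B := by
      unfold PR
      have h3 : EX n (fun u => if G u ∈ B then (2 : ℝ) else 1) -
          EX n (fun u => if G u ∈ B then (1 : ℝ) else 0) = 1 := by
        rw [← EX_sub]
        have h4 : EX n (fun u => (if G u ∈ B then (2 : ℝ) else 1) -
            (if G u ∈ B then (1 : ℝ) else 0)) = EX n (fun _ => 1) := by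
          refine EX_congr fun u _ => ?_
          split_ifs <;> norm_num
        rw [h4, EX_const]
      linarith
    rw [h2]
    linarith
  have h0 : 0 ≤ EX n (fun u => if G u ∈ B then (2 : ℝ) else 1) := by
    rw [← EX_const n 0]
    refine EX_mono fun u _ => ?_
    split_ifs <;> norm_num
  have h2 := EX_prod G (fun y => if y ∈ B then (2 : ℝ) else 1) n 32
  simp only [prod_two] at h2
  have h3 : PR (32 * n) (outs G n 32) {l | 16 ≤ cntB B l} ≤
      EX (32 * n) (fun u => 1 / 2 ^ 16 * 2 ^ cntB B (outs G n 32 u)) := by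
    unfold PR
    refine EX_mono fun u _ => ?_
    split_ifs with h4
    · have h5 : (2 : ℝ) ^ 16 ≤ 2 ^ cntB B (outs G n 32 u) := pow_le_pow_right₀ (by norm_num) h4
      rw [one_div, inv_mul_eq_div, le_div_iff₀ (by positivity), one_mul]
      exact h5
    · positivity
  refine h3.trans ?_
  rw [EX_mul_left, h2]
  have h4 := pow_le_pow_left₀ h0 h1 32
  refine (mul_le_mul_of_nonneg_left h4 (by positivity)).trans ?_
  norm_num

/-- the majority set -/
def maj {γ : Type} (T : Set γ) : Set (List γ) := {l | 16 < cntB T l}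

theorem maj_no {γ : Type} {n : ℕ} {G : List Bool → γ} {T : Set γ} (h : PR n G T ≤ 1 / 3) :
    PR (32 * n) (outs G n 32) (maj T) ≤ 1 / 6 := by
  classical
  refine le_trans ?_ (tail32 h)
  unfold PR
  refine EX_mono fun u _ => ?_
  by_cases h1 : outs G n 32 u ∈ maj T
  · have h2 : outs G n 32 u ∈ {l | 16 ≤ cntB T l} := by
      have h3 : 16 < cntB T (outs G n 32 u) := h1
      exact h3.le
    rw [if_pos h1, if_pos h2]
  · rw [if_neg h1]
    split_ifs <;> norm_num

theorem length_outs {γ : Type} (G : List Bool → γ) (n k : ℕ) (u : List Bool) :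
    (outs G n k u).length = k := by simp [outs]

theorem maj_yes {γ : Type} {n : ℕ} {G : List Bool → γ} {T : Set γ} (h : 2 / 3 ≤ PR n G T) :
    5 / 6 ≤ PR (32 * n) (outs G n 32) (maj T) := by
  classical
  have h1 : PR n G Tᶜ ≤ 1 / 3 := by
    rw [PR_compl]
    linarith
  have h2 := tail32 h1
  have h3 : PR (32 * n) (outs G n 32) (maj T)ᶜ ≤
      PR (32 * n) (outs G n 32) {l | 16 ≤ cntB Tᶜ l} := by
    unfold PR
    refine EX_mono fun u _ => ?_
    by_cases h4 : outs G n 32 u ∈ (maj T)ᶜ
    · have h5 : outs G n 32 u ∈ {l | 16 ≤ cntB Tᶜ l} := by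
        have h6 := cntB_compl T (outs G n 32 u)
        rw [length_outs] at h6
        have h7 : ¬ 16 < cntB T (outs G n 32 u) := h4
        show 16 ≤ cntB Tᶜ (outs G n 32 u)
        omega
      rw [if_pos h4, if_pos h5]
    · rw [if_neg h4]
      split_ifs <;> norm_num
  rw [PR_compl] at h3
  linarith

/-- unused coins -/
theorem PR_take {γ : Type} {n N : ℕ} (h : n ≤ N) (G : List Bool → γ) (T : Set γ) :
    PR N (fun u => G (u.take n)) T = PR n G T := by
  classical
  obtain ⟨k, rfl⟩ := Nat.exists_eq_add_of_le h
  unfold PR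
  rw [EX_append]
  refine EX_congr fun u hu => ?_
  have h1 : ∀ v : List Bool, (u ++ v).take n = u := by
    intro v
    rw [← hu, List.take_left]
  simp only [h1]
  exact EX_const _ _

end ORZ
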