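import Pool.Agent.Work.MP_609cce_lc_szk.ZDefs

/-!
# Randomized OR-distillations with two-sided error; the problem Statistical Difference
-/

namespace ORDist

/-- coding of coins and of a sequence of strings over `S`: the coins, `#`, the sequence -/
def rseqStr {S : Type} (z : List Bool × List (List S)) : List (Option (S ⊕ Bool)) :=
  z.1.map (fun b => some (Sum.inr b)) ++ none :: (seqStr z.2).map (Option.map Sum.inl)

/-- the probability that `D (ρ, xs) ∈ Y` for `l` uniform random coins `ρ` -/
noncomputable def probD {S : Type} (D : List Bool × List (List S) → List S) (l : ℕ)
    (xs : List (List S)) (Y : Set (List S)) : ℝ :=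
  (Nat.card {ρ : Fin l → Bool // D (List.ofFn ρ, xs) ∈ Y} : ℝ) / 2 ^ l

/-- `D` is a randomized OR-distillation of `R` into the target language `R'` with two-sided error
at most `1/3` -/
structure RandORDistillation {S : Type} (R R' : Set (List S))
    (D : List Bool × List (List S) → List S) : Prop where
  /-- `D` is computed in polynomial time from the coins and the sequence -/
  polyTime : PolyTime rseqStr (fun x => x) D
  /-- for some polynomials `c` (the number of the coins, in terms of the total length of the
  sequence) and `q` (the length of the output, in terms of the maximal length of the strings) -/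
  spec : ∃ c q : Polynomial ℕ, ∀ xs : List (List S), xs ≠ [] →
    (∀ (n : ℕ) (ρ : List Bool), ρ.length = c.eval (seqStr xs).length →
      (∀ x ∈ xs, x.length ≤ n) → (D (ρ, xs)).length ≤ q.eval n) ∧
    ((∃ x ∈ xs, x ∈ R) → 2 / 3 ≤ probD D (c.eval (seqStr xs).length) xs R') ∧
    ((∀ x ∈ xs, x ∉ R) → probD D (c.eval (seqStr xs).length) xs R' ≤ 1 / 3)

/-- the oracle `W` solves the promise problem Statistical Difference for the pairs of samplers `C`
with `l (|x|)` coins: tell statistical distance at least `2/3` from statistical distance at most
`1/3` -/
def SolvesSD (C : List Bool × List Bool → List Bool) (l : Polynomial ℕ)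
    (W : List Bool → Bool) : Prop :=
  ∀ x : List Bool,
    ((∃ Y : Set (List Bool), 2 / 3 ≤
      |prob C (l.eval x.length) x false Y - prob C (l.eval x.length) x true Y|) → W x = true) ∧
    (StatClose C (l.eval x.length) x (1 / 3) → W x = false)

/-- Statistical Difference is in P: for every polynomial time family of pairs of samplers, a
polynomial time algorithm tells distance at least `2/3` from distance at most `1/3` -/
def SDInP : Prop :=
  ∀ (C : List Bool × List Bool → List Bool) (l : Polynomial ℕ), PolyTime pairStr (fun y => y) C →
    ∃ W : List Bool → Bool, PolyTime (fun x => x) (fun b : Bool => [b]) W ∧ SolvesSD C l W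

end ORDist
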