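import Pool.Agent.Work.MP_609cce_lc_szk.RMain

/-!
# Statistical Difference in P, and P = NP
-/

namespace ORZ

open ORDist PTime Turing

/-- one step of the simulation -/
def simG (M : OProc) (W : List Bool → Bool) (z : List Bool × List Bool) : List Bool :=
  bif (M (z.1, z.2)).1 then z.2 ++ [W (M (z.1, z.2)).2] else z.2

theorem simG_iter {M : OProc} {W : List Bool → Bool} {x : List Bool} {k : ℕ}
    (h1 : ∀ j < k, (M (x, answers W M x j)).1 = true)
    (h2 : (M (x, answers W M x k)).1 = false) : ∀ j,
    (fun s => simG M W (x, s))^[j] [] = answers W M x (min j k) := by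
  intro j
  induction j with
  | zero => simp [answers]
  | succ j ih =>
    rw [Function.iterate_succ_apply', ih]
    unfold simG
    rcases Nat.lt_or_ge j k with h | h
    · rw [Nat.min_eq_left h.le, Nat.min_eq_left h, h1 j h, cond_true]
      rfl
    · rw [Nat.min_eq_right h, Nat.min_eq_right (by omega), h2, cond_false]

/-- polynomial time with an oracle in P is polynomial time -/
theorem inP_of_inPO {W : List Bool → Bool} (hW : PT W) {L : Set (List Bool)}
    (hL : InPO W L) : InP L := by
  obtain ⟨V, ⟨M, hM, p, hp⟩, hV⟩ := hL
  have hMp := pt_of_polyTime hM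
  have hg : PT (fun y : List Bool × List Bool => simG M W (y.1, y.2)) := by
    have h1 : PT (fun y : List Bool × List Bool => M (y.1, y.2)) := hMp.comp (PT.fst.pair PT.snd)
    exact PT.cond h1.fst' (PT.snd.append ((hW.comp h1.snd').cons (PT.const []))) PT.snd
  have hlen : ∀ (x : List Bool) (j : ℕ),
      ((fun s => simG M W (x, s))^[j] []).length ≤ j := by
    intro x j
    induction j with
    | zero => exact le_rfl
    | succ j ih =>
      rw [Function.iterate_succ_apply']
      generalize (fun s => simG M W (x, s))^[j] [] = s at ih
      unfold simG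
      simp only
      cases (M (x, s)).1
      · rw [cond_false]; omega
      · rw [cond_true, List.length_append, List.length_singleton]; omega
  have hit : PT (fun x : List Bool => (fun s => simG M W (x, s))^[p.eval x.length] []) := by
    refine PT.iterate (n := fun x : List Bool => p.eval x.length) (s := fun _ => [])
      (g := fun y : List Bool × List Bool => simG M W (y.1, y.2)) (PT.polyEval p PT.id.length)
      (PT.const _) hg (4 * p + 1) fun x k hk => ?_
    have h1 := sz_str ((fun s => simG M W (x, s))^[k] [])
    have h2 := hlen x k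
    have h3 := eval_mono p (length_le_sz x)
    simp only [Polynomial.eval_add, Polynomial.eval_mul, Polynomial.eval_ofNat,
      Polynomial.eval_one] at h3 ⊢
    show sz ((fun s => simG M W (x, s))^[k] []) ≤ _
    omega
  have hd : PT (fun x : List Bool =>
      (M (x, (fun s => simG M W (x, s))^[p.eval x.length] [])).2.headD false) :=
    (PT.snd.comp (hMp.comp (PT.id.pair hit))).headD (PT.const false)
  refine ⟨_, hd.polyTime_dec, fun x => ?_⟩
  rw [hV x]
  obtain ⟨k, hk, h1, h2⟩ := hp x
  rw [simG_iter h1 (by rw [h2]), Nat.min_eq_right hk, h2]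
  rfl

/-- if Statistical Difference is in P, then P = NP -/
theorem np_eq_p {L : Set (List Bool)} (h : ∃ (C : List Bool × List Bool → List Bool)
    (l : Polynomial ℕ), PolyTime pairStr (fun y => y) C ∧
      ∀ W : List Bool → Bool, SolvesSD C l W → InPO W L) (hSD : SDInP) : InP L := by
  obtain ⟨C, l, hC, hCW⟩ := h
  obtain ⟨W, hW, hWC⟩ := hSD C l hC
  refine inP_of_inPO ?_ (hCW W hWC)
  have h1 : PT (fun x : List Bool => [W x]) := PT.ofTM2 (ea := fun x : List Bool => x)
    (eb := fun b : Bool => [b]) (f := W) hW.some PT.id
  exact (h1.headD (PT.const false)).congr fun x => rfl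

end ORZ
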