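import Mathlib

/-!
# A random subset compressed to few values: some element is badly detected

`e u v` is the value for the subset `u` and the coins `v`.
-/

namespace ORZ

open Finset

variable {n : ℕ} {ρ γ : Type} [Fintype ρ]

/-- the sign of the membership -/
def chi (b : Bool) : ℝ := if b then 1 else -1

theorem chi_sq (b : Bool) : chi b * chi b = 1 := by cases b <;> simp [chi]

/-- exchange of the coordinate `i` with a new bit -/
theorem sum_update (F : (Fin n → Bool) → ℝ) (i : Fin n) :
    (∑ u, F (Function.update u i true)) - (∑ u, F (Function.update u i false)) =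
      2 * ∑ u, chi (u i) * F u := by
  have h1 : ∑ z : Bool × (Fin n → Bool), chi z.1 * F (Function.update z.2 i z.1) =
      (∑ u, F (Function.update u i true)) - (∑ u, F (Function.update u i false)) := by
    rw [Fintype.sum_prod_type, Fintype.sum_bool]
    simp only [chi, if_true, one_mul, Bool.false_eq_true, if_false, neg_one_mul,
      Finset.sum_neg_distrib]
    ring
  have h2 : ∑ z : Bool × (Fin n → Bool), chi (z.2 i) * F z.2 = 2 * ∑ u, chi (u i) * F u := by
    rw [Fintype.sum_prod_type, Fintype.sum_bool]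
    ring
  rw [← h1, ← h2]
  let φ : Bool × (Fin n → Bool) → Bool × (Fin n → Bool) :=
    fun z => (z.2 i, Function.update z.2 i z.1)
  have hφ : Function.Involutive φ := by
    rintro ⟨a, w⟩
    simp [φ]
  have h3 := (Equiv.ofBijective φ hφ.bijective).sum_comp
    fun z : Bool × (Fin n → Bool) => chi (z.2 i) * F z.2
  rw [← h3]
  refine Finset.sum_congr rfl fun z _ => ?_
  simp [φ]

/-- exponential moments -/
theorem sum_exp (s : Fin n → ℝ) (hs : ∀ i, s i = 1 ∨ s i = -1) (t : ℝ) :
    ∑ u : Fin n → Bool, Real.exp (t * ∑ i, chi (u i) * s i) ≤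
      2 ^ n * Real.exp (t ^ 2 / 2 * n) := by
  have h1 : ∀ u : Fin n → Bool, Real.exp (t * ∑ i, chi (u i) * s i) =
      ∏ i, Real.exp (t * (chi (u i) * s i)) := by
    intro u
    rw [Finset.mul_sum, Real.exp_sum]
  simp only [h1]
  have h2 := Finset.prod_univ_sum (fun _ : Fin n => (univ : Finset Bool))
    (fun (i : Fin n) (b : Bool) => Real.exp (t * (chi b * s i)))
  rw [Fintype.piFinset_univ] at h2
  rw [← h2]
  have h3 : ∀ i : Fin n, ∑ b : Bool, Real.exp (t * (chi b * s i)) = 2 * Real.cosh t := by
    intro i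
    rw [Fintype.sum_bool, Real.cosh_eq]
    rcases hs i with h | h <;> rw [h] <;> simp [chi]
    · ring
    · ring
  simp only [h3]
  rw [Finset.prod_const, Finset.card_univ, Fintype.card_fin, mul_pow]
  refine mul_le_mul_of_nonneg_left ?_ (by positivity)
  calc Real.cosh t ^ n ≤ Real.exp (t ^ 2 / 2) ^ n :=
        pow_le_pow_left₀ (Real.cosh_pos t).le (Real.cosh_le_exp_half_sq t) n
    _ = Real.exp (t ^ 2 / 2 * n) := by rw [← Real.exp_nat_mul, mul_comm]

open Classical in
/-- the number of the pairs (subset, coins) with the coordinate `i` set to `b` and the value in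
`T` -/
noncomputable def cntT (e : (Fin n → Bool) → ρ → γ) (i : Fin n) (b : Bool) (T : Set γ) : ℝ :=
  ∑ u : Fin n → Bool, ∑ v : ρ, if e (Function.update u i b) v ∈ T then (1 : ℝ) else 0

theorem cntT_compl (e : (Fin n → Bool) → ρ → γ) (i : Fin n) (b : Bool) (T : Set γ) :
    cntT e i b Tᶜ = 2 ^ n * Fintype.card ρ - cntT e i b T := by
  have h : cntT e i b Tᶜ + cntT e i b T = ∑ _u : Fin n → Bool, ∑ _v : ρ, (1 : ℝ) := by
    unfold cntT
    rw [← Finset.sum_add_distrib]
    refine Finset.sum_congr rfl fun u _ => ?_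
    rw [← Finset.sum_add_distrib]
    refine Finset.sum_congr rfl fun v _ => ?_
    by_cases h3 : e (Function.update u i b) v ∈ T
    · rw [if_neg (by simpa using h3), if_pos h3, zero_add]
    · rw [if_pos (by simpa using h3), if_neg h3, add_zero]
  have h2 : ∑ _u : Fin n → Bool, ∑ _v : ρ, (1 : ℝ) = 2 ^ n * Fintype.card ρ := by simp
  rw [h2] at h
  linarith

open Classical in
/-- **Some element is badly detected.** -/
theorem close_level (hn : 1 ≤ n) (e : (Fin n → Bool) → ρ → γ) [Nonempty ρ] (Y : Finset γ)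
    (hY : ∀ u v, e u v ∈ Y) {b : ℕ} (hb : Y.card ≤ 3 ^ b) (hnb : 36 * b ≤ n) :
    ∃ i : Fin n, ∀ T : Set γ,
      |cntT e i false T - cntT e i true T| ≤ 1 / 3 * (2 ^ n * Fintype.card ρ) := by
  by_contra hcon
  push Not at hcon
  set M : ℝ := 2 ^ n * Fintype.card ρ with hM
  have hMpos : 0 < M := by
    have : 0 < Fintype.card ρ := Fintype.card_pos
    positivity
  have h1 : ∀ i : Fin n, ∃ T : Set γ, 1 / 3 * M < cntT e i true T - cntT e i false T := by
    intro i
    obtain ⟨T, hT⟩ := hcon i
    rcases lt_abs.1 hT with h | h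
    · refine ⟨Tᶜ, ?_⟩
      rw [cntT_compl, cntT_compl]
      linarith
    · exact ⟨T, by linarith⟩
  choose T hT using h1
  -- the signs of the tests
  let s : γ → Fin n → ℝ := fun y i => if y ∈ T i then 1 else -1
  have hs : ∀ y i, s y i = 1 ∨ s y i = -1 := by
    intro y i
    simp only [s]
    split_ifs
    · exact Or.inl rfl
    · exact Or.inr rfl
  let z : (Fin n → Bool) → ρ → ℝ := fun u v => ∑ i, chi (u i) * s (e u v) i
  -- lower bound
  have hlow : n * (1 / 3 * M) < ∑ v : ρ, ∑ u, z u v := by
    have h2 : ∀ i : Fin n, 1 / 3 * M < ∑ v : ρ, ∑ u, chi (u i) * s (e u v) i := by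
      intro i
      have h3 : ∀ v : ρ, (∑ u, s (e (Function.update u i true) v) i) -
          (∑ u, s (e (Function.update u i false) v) i) =
          2 * ∑ u, chi (u i) * s (e u v) i := fun v => sum_update (fun u => s (e u v) i) i
      have h4 : ∀ (v : ρ) (c : Bool), (∑ u, s (e (Function.update u i c) v) i) =
          2 * (∑ u, if e (Function.update u i c) v ∈ T i then (1 : ℝ) else 0) - 2 ^ n := by
        intro v c
        have h5 : ∀ u : Fin n → Bool, s (e (Function.update u i c) v) i =
            2 * (if e (Function.update u i c) v ∈ T i then (1 : ℝ) else 0) - 1 := by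
          intro u
          simp only [s]
          split_ifs <;> norm_num
        simp only [h5]
        rw [Finset.sum_sub_distrib, ← Finset.mul_sum]
        simp
      have h5 : ∀ v : ρ, ∑ u, chi (u i) * s (e u v) i =
          (∑ u, if e (Function.update u i true) v ∈ T i then (1 : ℝ) else 0) -
          (∑ u, if e (Function.update u i false) v ∈ T i then (1 : ℝ) else 0) := by
        intro v
        have h6 := h3 v
        rw [h4, h4] at h6
        linarith
      simp only [h5]
      rw [Finset.sum_sub_distrib]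
      have h7 : ∀ c : Bool, (∑ v : ρ, ∑ u, if e (Function.update u i c) v ∈ T i then (1 : ℝ)
          else 0) = cntT e i c (T i) := fun c => Finset.sum_comm
      rw [h7, h7]
      exact hT i
    have h3 : ∑ v : ρ, ∑ u, z u v = ∑ i : Fin n, ∑ v : ρ, ∑ u, chi (u i) * s (e u v) i := by
      simp only [z]
      rw [Finset.sum_comm (s := (univ : Finset (Fin n)))]
      refine Finset.sum_congr rfl fun v _ => ?_
      rw [Finset.sum_comm]
    rw [h3]
    have h4 : ∑ _i : Fin n, 1 / 3 * M < ∑ i : Fin n, ∑ v : ρ, ∑ u, chi (u i) * s (e u v) i := by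
      refine Finset.sum_lt_sum_of_nonempty ⟨⟨0, hn⟩, Finset.mem_univ _⟩ fun i _ => h2 i
    rw [Finset.sum_const, Finset.card_univ, Fintype.card_fin, nsmul_eq_mul] at h4
    exact h4
  -- upper bound
  have hYpos : 0 < Y.card := by
    obtain ⟨v⟩ : Nonempty ρ := inferInstance
    exact Finset.card_pos.2 ⟨_, hY (fun _ => false) v⟩
  let c : ℝ := Real.log Y.card + n / 18
  have hup : ∑ v : ρ, ∑ u, z u v ≤ 3 * (c * M) := by
    have h2 : ∀ (v : ρ) (u : Fin n → Bool), z u v ≤
        3 * (c - 1) + 3 * Real.exp (-c) * Real.exp (1 / 3 * z u v) := by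
      intro v u
      have h3 := Real.add_one_le_exp (1 / 3 * z u v - c)
      have h4 : Real.exp (1 / 3 * z u v - c) = Real.exp (-c) * Real.exp (1 / 3 * z u v) := by
        rw [← Real.exp_add]
        congr 1
        ring
      rw [h4] at h3
      nlinarith
    have h3 : ∑ v : ρ, ∑ u, Real.exp (1 / 3 * z u v) ≤
        Fintype.card ρ * (Y.card * (2 ^ n * Real.exp ((1 / 3) ^ 2 / 2 * n))) := by
      have h4 : ∀ v : ρ, ∑ u, Real.exp (1 / 3 * z u v) ≤
          Y.card * (2 ^ n * Real.exp ((1 / 3) ^ 2 / 2 * n)) := by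
        intro v
        calc ∑ u, Real.exp (1 / 3 * z u v)
            ≤ ∑ u : Fin n → Bool, ∑ y ∈ Y, Real.exp (1 / 3 * ∑ i, chi (u i) * s y i) := by
              refine Finset.sum_le_sum fun u _ => ?_
              exact Finset.single_le_sum
                (f := fun y => Real.exp (1 / 3 * ∑ i, chi (u i) * s y i))
                (fun y _ => (Real.exp_pos _).le) (hY u v)
          _ = ∑ y ∈ Y, ∑ u : Fin n → Bool, Real.exp (1 / 3 * ∑ i, chi (u i) * s y i) :=
              Finset.sum_comm
          _ ≤ ∑ _y ∈ Y, 2 ^ n * Real.exp ((1 / 3) ^ 2 / 2 * n) :=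
              Finset.sum_le_sum fun y _ => sum_exp (s y) (hs y) _
          _ = Y.card * (2 ^ n * Real.exp ((1 / 3) ^ 2 / 2 * n)) := by
              rw [Finset.sum_const, nsmul_eq_mul]
      calc ∑ v : ρ, ∑ u, Real.exp (1 / 3 * z u v)
          ≤ ∑ _v : ρ, Y.card * (2 ^ n * Real.exp ((1 / 3) ^ 2 / 2 * n)) :=
            Finset.sum_le_sum fun v _ => h4 v
        _ = _ := by rw [Finset.sum_const, Finset.card_univ, nsmul_eq_mul]
    have h4 : Real.exp (-c) * (Y.card * Real.exp ((1 / 3) ^ 2 / 2 * n)) = 1 := by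
      have h5 : (Y.card : ℝ) = Real.exp (Real.log Y.card) :=
        (Real.exp_log (by exact_mod_cast hYpos)).symm
      rw [h5, ← Real.exp_add, ← Real.exp_add]
      have h6 : -c + (Real.log Y.card + (1 / 3) ^ 2 / 2 * n) = 0 := by
        simp only [c]
        ring
      rw [h6, Real.exp_zero]
    calc ∑ v : ρ, ∑ u, z u v
        ≤ ∑ v : ρ, ∑ u : Fin n → Bool, (3 * (c - 1) +
          3 * Real.exp (-c) * Real.exp (1 / 3 * z u v)) :=
          Finset.sum_le_sum fun v _ => Finset.sum_le_sum fun u _ => h2 v u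
      _ = 3 * (c - 1) * M + 3 * Real.exp (-c) * ∑ v : ρ, ∑ u, Real.exp (1 / 3 * z u v) := by
          simp only [Finset.sum_add_distrib, ← Finset.mul_sum]
          simp only [Finset.sum_const, Finset.card_univ, Fintype.card_fun, Fintype.card_bool,
            Fintype.card_fin, nsmul_eq_mul]
          rw [hM]
          push_cast
          ring
      _ ≤ 3 * (c - 1) * M + 3 * Real.exp (-c) *
          (Fintype.card ρ * (Y.card * (2 ^ n * Real.exp ((1 / 3) ^ 2 / 2 * n)))) := by
          have : (0 : ℝ) ≤ 3 * Real.exp (-c) := by positivity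
          exact add_le_add le_rfl (mul_le_mul_of_nonneg_left h3 this)
      _ = 3 * (c - 1) * M + 3 * M * (Real.exp (-c) *
          (Y.card * Real.exp ((1 / 3) ^ 2 / 2 * n))) := by
          rw [hM]
          ring
      _ = 3 * (c * M) := by
          rw [h4]
          ring
  have h2 : n * (1 / 3 * M) < 3 * (c * M) := hlow.trans_le hup
  have h3 : (n : ℝ) * (1 / 3) < 3 * c := by
    have h4 : (n * (1 / 3)) * M < (3 * c) * M := by linarith
    exact lt_of_mul_lt_mul_right h4 hMpos.le
  have h4 : Real.log Y.card ≤ 2 * b := by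
    calc Real.log Y.card ≤ Real.log (3 ^ b) :=
          Real.log_le_log (by exact_mod_cast hYpos) (by exact_mod_cast hb)
      _ = b * Real.log 3 := Real.log_pow _ _
      _ ≤ b * 2 := by
          refine mul_le_mul_of_nonneg_left ?_ (Nat.cast_nonneg _)
          have := Real.log_le_sub_one_of_pos (show (0 : ℝ) < 3 by norm_num)
          linarith
      _ = 2 * b := by ring
  have h5 : (36 : ℝ) * b ≤ n := by exact_mod_cast hnb
  simp only [c] at h3
  linarith

end ORZ
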