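import Pool.Agent.Work.MP_609cce_lc_szk.ZPT

/-!
# The search as a procedure with an oracle
-/

namespace ORZ

open ORDist PTime

/-! ### candidates -/

/-- bit strings of length `r` (for short `k`) -/
def enumZ (r k : ℕ) : List Bool := k.bits ++ List.replicate (r - k.bits.length) false

/-- the number `m` of the candidate `c` -/
def candM (P K c : ℕ) : ℕ := c / K / P + 1

/-- the number `j` of the candidate `c` -/
def candJ (P K c : ℕ) : ℕ := (c / K) % P

/-- the bits of the candidate `c` -/
def candA (K r c : ℕ) : List Bool := enumZ r (c % K)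

/-- the node of the candidate `c` -/
def nodeZ (P K : ℕ) (rt : ℕ → ℕ) (U : List (List Bool)) (c : ℕ) : List Bool :=
  pick (blk U (candM P K c) (candJ P K c)) (candA K (rt (candM P K c)) c)

/-- the candidate `c` is valid -/
def validZ (P K : ℕ) (rt : ℕ → ℕ) (c : ℕ) : Bool :=
  decide ((candA K (rt (candM P K c)) c).length = rt (candM P K c)) &&
    decide (candJ P K c < candM P K c)

/-- the key of the candidate `c` -/
def keyQ (x : List Bool) (P K : ℕ) (rt : ℕ → ℕ) (U : List (List Bool)) (c : ℕ) : KeyZ :=
  kz x U (candM P K c) (rt (candM P K c)) (candJ P K c) (candA K (rt (candM P K c)) c)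

/-- the decision on the candidate `c` -/
def qZ (W : List Bool → Bool) (x : List Bool) (P K : ℕ) (rt : ℕ → ℕ) (U : List (List Bool))
    (c : ℕ) : Bool := !W (enc (keyQ x P K rt U c)) && validZ P K rt c

/-! ### the procedure -/

variable (V : List Bool × List Bool → Bool) (P K N T : Polynomial ℕ) (rt : ℕ → ℕ)

/-- the transition for an answer -/
def trZ (x : List Bool) (s : StZ) (ans : Bool) : StZ :=
  ztr (fun u => V (x, u)) (K.eval x.length) (N.eval x.length)
    (nodeZ (P.eval x.length) (K.eval x.length) rt) s
    (!ans && validZ (P.eval x.length) (K.eval x.length) rt s.2.2)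

/-- the state after some answers -/
def stateZ (x : List Bool) (l : List Bool) : StZ := l.foldl (trZ V P K N rt x) (false, [[]], 0)

/-- the procedure -/
def procZ : OProc := fun z =>
  bif decide (z.2.length < T.eval z.1.length) then
    (true, enc (keyQ z.1 (P.eval z.1.length) (K.eval z.1.length) rt
      (stateZ V P K N rt z.1 z.2).2.1 (stateZ V P K N rt z.1 z.2).2.2))
  else (false, [(stateZ V P K N rt z.1 z.2).1])

/-- the iteration -/
def iterZ (W : List Bool → Bool) (x : List Bool) (t : ℕ) : StZ :=
  (zstep (fun u => V (x, u)) (K.eval x.length) (N.eval x.length)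
    (nodeZ (P.eval x.length) (K.eval x.length) rt)
    (qZ W x (P.eval x.length) (K.eval x.length) rt))^[t] (false, [[]], 0)

theorem state_answers (W : List Bool → Bool) (x : List Bool) : ∀ j ≤ T.eval x.length,
    (answers W (procZ V P K N T rt) x j).length = j ∧
    stateZ V P K N rt x (answers W (procZ V P K N T rt) x j) = iterZ V P K N rt W x j := by
  intro j
  induction j with
  | zero => intro _; exact ⟨rfl, rfl⟩
  | succ j ih =>
    intro hj
    obtain ⟨h1, h2⟩ := ih (by omega)
    refine ⟨by rw [answers, List.length_append, h1]; rfl, ?_⟩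
    rw [answers]
    unfold stateZ at h2 ⊢
    rw [List.foldl_append, h2]
    unfold iterZ
    rw [Function.iterate_succ_apply']
    have h3 : (procZ V P K N T rt (x, answers W (procZ V P K N T rt) x j)).2 =
        enc (keyQ x (P.eval x.length) (K.eval x.length) rt
          (iterZ V P K N rt W x j).2.1 (iterZ V P K N rt W x j).2.2) := by
      rw [procZ]
      simp only
      rw [h1, decide_eq_true (by omega), cond_true]
      unfold stateZ
      simp only
      rw [h2]
    rw [h3]
    rfl

variable {V P K N T rt}

theorem pt_enumZ {α : Type} [Code α] {r k : α → ℕ} (hr : PT r) (hk : PT k) :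
    PT (fun a => enumZ (r a) (k a)) := by
  have hb : PT (fun a => (k a).bits) := PT.bits hk
  have h1 : PT (fun a => List.replicate (r a - (k a).bits.length) false) := by
    refine (PT.map (g := fun _ : α × Unit => false) (hr.sub hb.length).replicate
      (PT.const false)).congr fun a => ?_
    rw [List.map_replicate]
  exact hb.append h1

/-- the data of the transitions: input, state -/
theorem pt_candM {α : Type} [Code α] {p k c : α → ℕ} (hp : PT p) (hk : PT k) (hc : PT c) :
    PT (fun a => candM (p a) (k a) (c a)) := (PT.div (PT.div hc hk) hp).succ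

theorem pt_candJ {α : Type} [Code α] {p k c : α → ℕ} (hp : PT p) (hk : PT k) (hc : PT c) :
    PT (fun a => candJ (p a) (k a) (c a)) := PT.mod (PT.div hc hk) hp

theorem pt_candA {α : Type} [Code α] {k r c : α → ℕ} (hk : PT k) (hr : PT r) (hc : PT c) :
    PT (fun a => candA (k a) (r a) (c a)) := pt_enumZ hr (PT.mod hc hk)

theorem pt_trZ (hV : PT V) (hrt : PT rt) :
    PT (fun y : List Bool × StZ × Bool => trZ V P K N rt y.1 y.2.1 y.2.2) := by
  have hx : PT (fun y : List Bool × StZ × Bool => y.1) := PT.fst
  have hs : PT (fun y : List Bool × StZ × Bool => y.2.1) := PT.snd.fst'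
  have hans : PT (fun y : List Bool × StZ × Bool => y.2.2) := PT.snd.snd'
  have hU : PT (fun y : List Bool × StZ × Bool => y.2.1.2.1) := hs.snd'.fst'
  have hc : PT (fun y : List Bool × StZ × Bool => y.2.1.2.2) := hs.snd'.snd'
  have hP : PT (fun y : List Bool × StZ × Bool => P.eval y.1.length) := PT.polyEval P hx.length
  have hK : PT (fun y : List Bool × StZ × Bool => K.eval y.1.length) := PT.polyEval K hx.length
  have hN : PT (fun y : List Bool × StZ × Bool => N.eval y.1.length) := PT.polyEval N hx.length
  have hm := pt_candM hP hK hc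
  have hj := pt_candJ hP hK hc
  have hr : PT (fun y : List Bool × StZ × Bool =>
    rt (candM (P.eval y.1.length) (K.eval y.1.length) y.2.1.2.2)) := hrt.comp hm
  have ha := pt_candA hK hr hc
  have hd : PT (fun y : List Bool × StZ × Bool => y.2.1.2.1.length /
      candM (P.eval y.1.length) (K.eval y.1.length) y.2.1.2.2) := PT.div hU.length hm
  have hblk : PT (fun y : List Bool × StZ × Bool => blk y.2.1.2.1
      (candM (P.eval y.1.length) (K.eval y.1.length) y.2.1.2.2)
      (candJ (P.eval y.1.length) (K.eval y.1.length) y.2.1.2.2)) :=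
    (hU.drop (hj.mul hd)).take hd
  have hnode : PT (fun y : List Bool × StZ × Bool =>
      nodeZ (P.eval y.1.length) (K.eval y.1.length) rt y.2.1.2.1 y.2.1.2.2) := pt_pick hblk ha
  have hvalid : PT (fun y : List Bool × StZ × Bool =>
      validZ (P.eval y.1.length) (K.eval y.1.length) rt y.2.1.2.2) :=
    (PT.natEq ha.length hr).and (PT.lt hj hm)
  have hlong : PT (fun y : List Bool × StZ × Bool =>
      decide (K.eval y.1.length ≤ y.2.1.2.1.length)) := PT.le hK hU.length
  have hfil : PT (fun y : List Bool × StZ × Bool => y.2.1.2.1.filter fun v =>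
      !decide (v = nodeZ (P.eval y.1.length) (K.eval y.1.length) rt y.2.1.2.1 y.2.1.2.2)) :=
    PT.filter (p := fun w : (List Bool × StZ × Bool) × List Bool => !decide (w.2 =
      nodeZ (P.eval w.1.1.length) (K.eval w.1.1.length) rt w.1.2.1.2.1 w.1.2.1.2.2)) hU
      (PT.eq PT.snd (hnode.comp PT.fst)).not
  have hN1 : PT (fun w : (List Bool × StZ × Bool) × List Bool => N.eval w.1.1.length) :=
    PT.polyEval N PT.fst.fst'.length
  have hV1 : PT (fun w : (List Bool × StZ × Bool) × List Bool => V (w.1.1, w.2)) :=
    PT.comp (f := fun w : (List Bool × StZ × Bool) × List Bool => (w.1.1, w.2)) hV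
      (PT.fst.fst'.pair PT.snd)
  have hany : PT (fun y : List Bool × StZ × Bool =>
      y.2.1.2.1.any fun u => V (y.1, u) && decide (u.length ≤ N.eval y.1.length)) :=
    PT.any (p := fun w : (List Bool × StZ × Bool) × List Bool =>
      V (w.1.1, w.2) && decide (w.2.length ≤ N.eval w.1.1.length)) hU
      (hV1.and (PT.le PT.snd.length hN1))
  have hexp : PT (fun y : List Bool × StZ × Bool => expandN (N.eval y.1.length) y.2.1.2.1) := by
    show PT (fun y : List Bool × StZ × Bool =>
      expand (y.2.1.2.1.filter fun u : List Bool => decide (u.length ≤ N.eval y.1.length)))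
    exact pt_expand.comp (PT.filter (p := fun w : (List Bool × StZ × Bool) × List Bool =>
      decide (w.2.length ≤ N.eval w.1.1.length)) hU (PT.le PT.snd.length hN1))
  exact PT.cond hlong
    (PT.cond (hans.not.and hvalid) (hs.fst'.pair (hfil.pair (PT.const 0)))
      (hs.fst'.pair (hU.pair hc.succ)))
    ((hs.fst'.or hany).pair (hexp.pair (PT.const 0)))

theorem sz_state {K N t : ℕ} {s : StZ} (h : BInv K N t s) :
    sz s ≤ 2 * K * (4 * (N + 1) + 2) + 2 * t + 10 := by
  obtain ⟨f, U, c⟩ := s
  obtain ⟨h1, h2, h3⟩ := h
  have e1 := sz_bool f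
  have e2 := sz_strs h1 h2
  have e3 := sz_nat c
  simp only at h3 e2
  rw [sz_pair, sz_pair, e3]
  omega

theorem pt_stateZ (hV : PT V) (hrt : PT rt) (hK : ∀ n, 1 ≤ K.eval n) :
    PT (fun z : List Bool × List Bool => stateZ V P K N rt z.1 z.2) := by
  have hg : PT (fun y : (List Bool × List Bool) × StZ × Bool =>
      trZ V P K N rt y.1.1 y.2.1 y.2.2) :=
    PT.comp (f := fun y : (List Bool × List Bool) × StZ × Bool => (y.1.1, y.2.1, y.2.2))
      (pt_trZ hV hrt) (PT.fst.fst'.pair (PT.snd.fst'.pair PT.snd.snd'))
  refine PT.foldl (l := fun z : List Bool × List Bool => z.2)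
    (s := fun _ => ((false, [[]], 0) : StZ)) (g := fun y : (List Bool × List Bool) × StZ × Bool =>
      trZ V P K N rt y.1.1 y.2.1 y.2.2) PT.snd (PT.const _) hg
    (2 * K * (4 * (N + 1) + 2) + 2 * Polynomial.X + 10) ?_
  rintro ⟨x, l⟩ l' hl'
  -- the states are small for all answers
  have h1 : ∀ l' : List Bool, BInv (K.eval x.length) (N.eval x.length) l'.length
      (l'.foldl (trZ V P K N rt x) (false, [[]], 0)) := by
    intro l'
    induction l' using List.reverseRecOn with
    | nil => exact binv_zero (hK _)
    | append_singleton l' b ih =>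
      rw [List.foldl_append, List.length_append, List.length_singleton]
      exact binv_step ih _
  have h2 := sz_state (h1 l')
  have h3 : x.length ≤ sz (x, l) := by
    have := length_le_sz x
    rw [sz_pair]
    omega
  have h4 : l'.length ≤ sz (x, l) := by
    have h5 := length_le_sz l
    have h6 := hl'.length_le
    simp only at h6
    rw [sz_pair]
    omega
  have h5 := eval_mono K h3
  have h6 := eval_mono N h3
  simp only at h5 h6
  simp only [Polynomial.eval_add, Polynomial.eval_mul, Polynomial.eval_X, Polynomial.eval_ofNat,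
    Polynomial.eval_one]
  refine h2.trans ?_
  have h7 : 2 * K.eval x.length * (4 * (N.eval x.length + 1) + 2) ≤
      2 * K.eval (sz (x, l)) * (4 * (N.eval (sz (x, l)) + 1) + 2) :=
    Nat.mul_le_mul (by omega) (by omega)
  omega

theorem pt_procZ (hV : PT V) (hrt : PT rt) (hK : ∀ n, 1 ≤ K.eval n) :
    PT (procZ V P K N T rt) := by
  have hx : PT (fun z : List Bool × List Bool => z.1) := PT.fst
  have hs := pt_stateZ (P := P) (N := N) hV hrt hK
  have hP : PT (fun z : List Bool × List Bool => P.eval z.1.length) := PT.polyEval P hx.length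
  have hKp : PT (fun z : List Bool × List Bool => K.eval z.1.length) := PT.polyEval K hx.length
  have hT : PT (fun z : List Bool × List Bool => T.eval z.1.length) := PT.polyEval T hx.length
  have hc := hs.snd'.snd'
  have hm := pt_candM hP hKp hc
  have hj := pt_candJ hP hKp hc
  have hr : PT (fun z : List Bool × List Bool => rt (candM (P.eval z.1.length)
    (K.eval z.1.length) (stateZ V P K N rt z.1 z.2).2.2)) := hrt.comp hm
  have ha := pt_candA hKp hr hc
  have hkey : PT (fun z : List Bool × List Bool => keyQ z.1 (P.eval z.1.length)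
      (K.eval z.1.length) rt (stateZ V P K N rt z.1 z.2).2.1 (stateZ V P K N rt z.1 z.2).2.2) :=
    hx.pair (hs.snd'.fst'.pair (((pt_rep hm).pair (pt_rep hr)).pair ((pt_rep hj).pair ha)))
  exact PT.cond (PT.lt PT.snd.length hT) ((PT.const true).pair hkey.quote)
    ((PT.const false).pair (hs.fst'.cons (PT.const [])))

theorem procZ_ask {x l : List Bool} (h : l.length < T.eval x.length) :
    (procZ V P K N T rt (x, l)).1 = true := by
  unfold procZ
  simp only
  rw [decide_eq_true h, cond_true]

theorem procZ_stop {x l : List Bool} (h : l.length = T.eval x.length) :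
    procZ V P K N T rt (x, l) = (false, [(stateZ V P K N rt x l).1]) := by
  unfold procZ
  simp only
  rw [h, decide_eq_false (lt_irrefl _), cond_false]

/-- the search is a polynomial time procedure with the oracle -/
theorem polyTimeO_search (hV : PT V) (hrt : PT rt) (hK : ∀ n, 1 ≤ K.eval n)
    (W : List Bool → Bool) : PolyTimeO W (fun x => x) (fun x =>
      [(iterZ V P K N rt W x (T.eval x.length)).1]) := by
  refine ⟨procZ V P K N T rt, polyTime_of_pt (pt_procZ hV hrt hK), T, fun x =>
    ⟨T.eval x.length, le_rfl, fun j hj => ?_, ?_⟩⟩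
  · obtain ⟨h1, _⟩ := state_answers V P K N T rt W x j hj.le
    exact procZ_ask (by rw [h1]; exact hj)
  · obtain ⟨h1, h2⟩ := state_answers V P K N T rt W x (T.eval x.length) le_rfl
    show procZ V P K N T rt (x, answers W (procZ V P K N T rt) x (T.eval x.length)) = _
    rw [procZ_stop h1, h2]

end ORZ
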