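import Pool.Agent.Work.MP_609cce_lc_szk.RSamp
import Pool.Agent.Work.MP_609cce_lc_szk.ZMach

/-!
# The search with an oracle for Statistical Difference
-/

namespace ORZ

open ORDist PTime

section

variable {α γ : Type} [Code α] [Code γ]

theorem pt_mapR {E : List Bool × List (List Bool) × List Bool → γ} (hE : PT E)
    {cF : List Bool × List (List Bool) → ℕ} (hc : PT cF) : PT (mapR E cF) := by
  have hk : PT (fun z : List Bool × List Bool => keyR z.1) :=
    (Dec.pt (γ := KeyR)).comp (PT.parseT PT.fst)
  have hu : PT (fun z : List Bool × List Bool => z.2.tail) := PT.snd.tail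
  have hb : PT (fun z : List Bool × List Bool => z.2.headD false) :=
    PT.snd.headD (PT.const false)
  have hx : PT (fun z : List Bool × List Bool => (keyR z.1).1) := hk.fst'
  have hU : PT (fun z : List Bool × List Bool => (keyR z.1).2.1) := hk.snd'.fst'
  have hi : PT (fun z : List Bool × List Bool => (keyR z.1).2.2.length) := hk.snd'.snd'.length
  have hcz : PT (fun z : List Bool × List Bool => cF ((keyR z.1).1, (keyR z.1).2.1)) :=
    PT.comp (f := fun z : List Bool × List Bool => ((keyR z.1).1, (keyR z.1).2.1)) hc
      (hx.pair hU)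
  have hmask : PT (fun y : (List Bool × List Bool) × ℕ =>
      maskR (keyR y.1.1).2.2.length (y.1.2.headD false) y.1.2.tail y.2) :=
    PT.cond (PT.natEq PT.snd (hi.comp PT.fst)) (hb.comp PT.fst)
      ((hu.comp PT.fst).getD PT.snd (PT.const false))
  have hsel : PT (fun z : List Bool × List Bool => selM (keyR z.1).2.1
      (maskR (keyR z.1).2.2.length (z.2.headD false) z.2.tail)) := by
    have h1 : PT (fun z : List Bool × List Bool => (List.range (keyR z.1).2.1.length).filter
        (maskR (keyR z.1).2.2.length (z.2.headD false) z.2.tail)) :=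
      PT.filter (p := fun y : (List Bool × List Bool) × ℕ =>
        maskR (keyR y.1.1).2.2.length (y.1.2.headD false) y.1.2.tail y.2) hU.length.range hmask
    exact PT.map (g := fun y : (List Bool × List Bool) × ℕ => (keyR y.1.1).2.1.getD y.2 []) h1
      ((hU.comp PT.fst).getD PT.snd (PT.const []))
  have hdrop : PT (fun z : List Bool × List Bool => z.2.tail.drop (keyR z.1).2.1.length) :=
    hu.drop hU.length
  have hone : PT (fun y : (List Bool × List Bool) × ℕ =>
      oneR E (keyR y.1.1).1 (keyR y.1.1).2.1
        (maskR (keyR y.1.1).2.2.length (y.1.2.headD false) y.1.2.tail)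
        (cblk (cF ((keyR y.1.1).1, (keyR y.1.1).2.1))
          (y.1.2.tail.drop (keyR y.1.1).2.1.length) y.2)) :=
    PT.comp (f := fun y : (List Bool × List Bool) × ℕ => ((keyR y.1.1).1,
      selM (keyR y.1.1).2.1 (maskR (keyR y.1.1).2.2.length (y.1.2.headD false) y.1.2.tail),
      cblk (cF ((keyR y.1.1).1, (keyR y.1.1).2.1))
          (y.1.2.tail.drop (keyR y.1.1).2.1.length) y.2)) hE
      ((hx.comp PT.fst).pair ((hsel.comp PT.fst).pair
        (pt_cblk (hcz.comp PT.fst) (hdrop.comp PT.fst) PT.snd)))
  have houts : PT (fun z : List Bool × List Bool =>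
      outs (oneR E (keyR z.1).1 (keyR z.1).2.1
        (maskR (keyR z.1).2.2.length (z.2.headD false) z.2.tail))
        (cF ((keyR z.1).1, (keyR z.1).2.1)) 32 (z.2.tail.drop (keyR z.1).2.1.length)) :=
    PT.map (l := fun _ : List Bool × List Bool => List.range 32)
      (g := fun y : (List Bool × List Bool) × ℕ =>
      oneR E (keyR y.1.1).1 (keyR y.1.1).2.1
        (maskR (keyR y.1.1).2.2.length (y.1.2.headD false) y.1.2.tail)
        (cblk (cF ((keyR y.1.1).1, (keyR y.1.1).2.1))
          (y.1.2.tail.drop (keyR y.1.1).2.1.length) y.2)) (PT.const _) hone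
  exact houts.quote

theorem polyTime_mapR {E : List Bool × List (List Bool) × List Bool → γ} (hE : PT E)
    {cF : List Bool × List (List Bool) → ℕ} (hc : PT cF) :
    PolyTime pairStr (fun y => y) (mapR E cF) := by
  refine PT.polyTime_raw (f := fun l => mapR E cF (PTime.unpairS l))
    ((pt_mapR hE hc).comp (PT.unpairS PT.id)) fun z => ?_
  rw [unpairS_pairStr]

/-- a polynomial number of coins is enough -/
theorem exists_coins {cF : List Bool × List (List Bool) → ℕ} (hc : PT cF) :
    ∃ l : Polynomial ℕ, ∀ (x : List Bool) (U : List (List Bool)) (i : ℕ),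
      U.length + 32 * cF (x, U) ≤ l.eval (enc (kr x U i)).length := by
  obtain ⟨q, hq⟩ := hc.size
  refine ⟨Polynomial.X + 32 * q, fun x U i => ?_⟩
  have h0 : (enc (kr x U i)).length = sz (kr x U i) := rfl
  have h1 := length_le_sz U
  have h2 : sz (kr x U i) = sz x + (sz U + sz (List.replicate i true) + 1) + 1 := by
    unfold kr
    rw [sz_pair, sz_pair]
  have h3 := hq (x, U)
  rw [sz_nat, sz_pair] at h3
  have h4 := eval_mono q (show sz x + sz U + 1 ≤ sz (kr x U i) by omega)
  simp only at h4
  rw [h0]
  simp only [Polynomial.eval_add, Polynomial.eval_mul, Polynomial.eval_X,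
    Polynomial.eval_ofNat]
  omega

end

/-! ### the decisions -/

section

variable {γ : Type} [Code γ]

/-- the decision on the candidate `c` -/
def qR (W : List Bool → Bool) (x : List Bool) (K : ℕ) (U : List (List Bool)) (c : ℕ) : Bool :=
  !W (enc (kr x (U.take K) c))

/-- the node of the candidate -/
def ndR (U : List (List Bool)) (c : ℕ) : List Bool := U.getD c []

/-- the decisions are good -/
theorem goodQR {E : List Bool × List (List Bool) × List Bool → γ}
    {cF : List Bool × List (List Bool) → ℕ} {l : Polynomial ℕ}
    (hl : ∀ (x : List Bool) (U : List (List Bool)) (i : ℕ),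
      U.length + 32 * cF (x, U) ≤ l.eval (enc (kr x U i)).length)
    {W : List Bool → Bool} (hW : SolvesSD (mapR E cF) l W) {V : List Bool × List Bool → Bool}
    {x : List Bool} {K N s0 : ℕ} (hK : 36 * (32 * (s0 + 1) + 1) ≤ K) {T : Set γ}
    (hsz : ∀ (U A : List (List Bool)) (v : List Bool), (∀ u ∈ U, u.length ≤ N + 1) →
      A.Sublist U → v.length = cF (x, U) → sz (E (x, A, v)) ≤ s0)
    (hyes : ∀ U A : List (List Bool), A.Sublist U → (∃ u ∈ A, Good (fun u => V (x, u)) N u) →
      2 / 3 ≤ PR (cF (x, U)) (fun v => E (x, A, v)) T)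
    (hno : ∀ U A : List (List Bool), A.Sublist U → (¬ ∃ u ∈ A, Good (fun u => V (x, u)) N u) →
      PR (cF (x, U)) (fun v => E (x, A, v)) T ≤ 1 / 3) :
    GoodQ (fun u => V (x, u)) K N K ndR (qR W x K) := by
  refine ⟨fun U hU hKU hlen => ?_, fun U c hU hKU hc hq => ?_, fun U c hU hKU hc hq hg => ?_⟩
  · have hlenK : (U.take K).length = K := by rw [List.length_take, Nat.min_eq_left hKU]
    obtain ⟨i, hi, hcl⟩ := close_mapR (E := E) (cF := cF) (x := x) (U := U.take K) (s0 := s0)
      (by rw [hlenK]; omega)
      (fun A v hA hv => hsz _ A v (fun u hu => hlen u (List.mem_of_mem_take hu)) hA hv)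
      (by rw [hlenK]; exact hK)
    rw [hlenK] at hi
    refine ⟨i, hi, ?_⟩
    unfold qR
    rw [(hW _).2 (hcl _ (hl _ _ _))]
    rfl
  · unfold ndR
    rw [List.getD_eq_getElem _ _ (by omega)]
    exact List.getElem_mem _
  · unfold qR at hq
    rw [Bool.not_eq_true'] at hq
    have hlenK : (U.take K).length = K := by rw [List.length_take, Nat.min_eq_left hKU]
    have hnd : ndR U c = U[c]'(by omega) := by
      unfold ndR
      rw [List.getD_eq_getElem _ _ (by omega)]
    obtain ⟨u, hu, hgu⟩ := hg
    by_cases hun : u = ndR U c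
    · -- the node is good; another node is good, too
      by_contra hcon
      have hfar := far_mapR (E := E) (cF := cF) (x := x) (U := U.take K) (i := c)
        (by rw [hlenK]; exact hc) (hl x (U.take K) c) (T := T)
        (G := Good (fun u => V (x, u)) N) (hyes _) (hno _)
        (by
          rw [List.getElem_take, ← hnd, ← hun]
          exact hgu)
        (by
          intro t ht htc hgt
          rw [hlenK] at ht
          rw [List.getElem_take] at hgt
          refine hcon ⟨U[t]'(by omega), List.mem_filter.2 ⟨List.getElem_mem _, ?_⟩, hgt⟩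
          simp only [Bool.not_eq_true', decide_eq_false_iff_not]
          rw [hnd]
          intro h
          exact htc ((List.Nodup.getElem_inj_iff hU).1 h))
      rw [(hW _).1 ⟨_, hfar⟩] at hq
      exact absurd hq (by simp)
    · exact ⟨u, List.mem_filter.2 ⟨hu, by simp [hun]⟩, hgu⟩

end

/-! ### the procedure -/

variable (V : List Bool × List Bool → Bool) (K N T : Polynomial ℕ)

/-- the transition for an answer -/
def trR (x : List Bool) (s : StZ) (ans : Bool) : StZ :=
  ztr (fun u => V (x, u)) (K.eval x.length) (N.eval x.length) ndR s (!ans)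

/-- the state after some answers -/
def stateR (x : List Bool) (l : List Bool) : StZ := l.foldl (trR V K N x) (false, [[]], 0)

/-- the procedure -/
def procR : OProc := fun z =>
  bif decide (z.2.length < T.eval z.1.length) then
    (true, enc (kr z.1 ((stateR V K N z.1 z.2).2.1.take (K.eval z.1.length))
      (stateR V K N z.1 z.2).2.2))
  else (false, [(stateR V K N z.1 z.2).1])

/-- the iteration -/
def iterR (W : List Bool → Bool) (x : List Bool) (t : ℕ) : StZ :=
  (zstep (fun u => V (x, u)) (K.eval x.length) (N.eval x.length) ndR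
    (qR W x (K.eval x.length)))^[t] (false, [[]], 0)

theorem stateR_answers (W : List Bool → Bool) (x : List Bool) : ∀ j ≤ T.eval x.length,
    (answers W (procR V K N T) x j).length = j ∧
    stateR V K N x (answers W (procR V K N T) x j) = iterR V K N W x j := by
  intro j
  induction j with
  | zero => intro _; exact ⟨rfl, rfl⟩
  | succ j ih =>
    intro hj
    obtain ⟨h1, h2⟩ := ih (by omega)
    refine ⟨by rw [answers, List.length_append, h1]; rfl, ?_⟩
    rw [answers]
    unfold stateR at h2 ⊢
    rw [List.foldl_append, h2]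
    unfold iterR
    rw [Function.iterate_succ_apply']
    have h3 : (procR V K N T (x, answers W (procR V K N T) x j)).2 =
        enc (kr x ((iterR V K N W x j).2.1.take (K.eval x.length))
          (iterR V K N W x j).2.2) := by
      rw [procR]
      simp only
      rw [h1, decide_eq_true (by omega), cond_true]
      unfold stateR
      simp only
      rw [h2]
    rw [h3]
    rfl

variable {V K N T}

theorem pt_trR (hV : PT V) :
    PT (fun y : List Bool × StZ × Bool => trR V K N y.1 y.2.1 y.2.2) := by
  have hx : PT (fun y : List Bool × StZ × Bool => y.1) := PT.fst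
  have hs : PT (fun y : List Bool × StZ × Bool => y.2.1) := PT.snd.fst'
  have hans : PT (fun y : List Bool × StZ × Bool => y.2.2) := PT.snd.snd'
  have hU : PT (fun y : List Bool × StZ × Bool => y.2.1.2.1) := hs.snd'.fst'
  have hc : PT (fun y : List Bool × StZ × Bool => y.2.1.2.2) := hs.snd'.snd'
  have hK : PT (fun y : List Bool × StZ × Bool => K.eval y.1.length) := PT.polyEval K hx.length
  have hnode : PT (fun y : List Bool × StZ × Bool => ndR y.2.1.2.1 y.2.1.2.2) :=
    hU.getD hc (PT.const [])
  have hlong : PT (fun y : List Bool × StZ × Bool =>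
      decide (K.eval y.1.length ≤ y.2.1.2.1.length)) := PT.le hK hU.length
  have hfil : PT (fun y : List Bool × StZ × Bool => y.2.1.2.1.filter fun v =>
      !decide (v = ndR y.2.1.2.1 y.2.1.2.2)) :=
    PT.filter (p := fun w : (List Bool × StZ × Bool) × List Bool => !decide (w.2 =
      ndR w.1.2.1.2.1 w.1.2.1.2.2)) hU (PT.eq PT.snd (hnode.comp PT.fst)).not
  have hN1 : PT (fun w : (List Bool × StZ × Bool) × List Bool => N.eval w.1.1.length) :=
    PT.polyEval N PT.fst.fst'.length
  have hV1 : PT (fun w : (List Bool × StZ × Bool) × List Bool => V (w.1.1, w.2)) :=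
    PT.comp (f := fun w : (List Bool × StZ × Bool) × List Bool => (w.1.1, w.2)) hV
      (PT.fst.fst'.pair PT.snd)
  have hany : PT (fun y : List Bool × StZ × Bool =>
      y.2.1.2.1.any fun u => V (y.1, u) && decide (u.length ≤ N.eval y.1.length)) :=
    PT.any (p := fun w : (List Bool × StZ × Bool) × List Bool =>
      V (w.1.1, w.2) && decide (w.2.length ≤ N.eval w.1.1.length)) hU
      (hV1.and (PT.le PT.snd.length hN1))
  have hexp : PT (fun y : List Bool × StZ × Bool => expandN (N.eval y.1.length) y.2.1.2.1) := by
    show PT (fun y : List Bool × StZ × Bool =>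
      expand (y.2.1.2.1.filter fun u : List Bool => decide (u.length ≤ N.eval y.1.length)))
    exact pt_expand.comp (PT.filter (p := fun w : (List Bool × StZ × Bool) × List Bool =>
      decide (w.2.length ≤ N.eval w.1.1.length)) hU (PT.le PT.snd.length hN1))
  exact PT.cond hlong
    (PT.cond hans.not (hs.fst'.pair (hfil.pair (PT.const 0)))
      (hs.fst'.pair (hU.pair hc.succ)))
    ((hs.fst'.or hany).pair (hexp.pair (PT.const 0)))

theorem pt_stateR (hV : PT V) (hK : ∀ n, 1 ≤ K.eval n) :
    PT (fun z : List Bool × List Bool => stateR V K N z.1 z.2) := by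
  have hg : PT (fun y : (List Bool × List Bool) × StZ × Bool =>
      trR V K N y.1.1 y.2.1 y.2.2) :=
    PT.comp (f := fun y : (List Bool × List Bool) × StZ × Bool => (y.1.1, y.2.1, y.2.2))
      (pt_trR hV) (PT.fst.fst'.pair (PT.snd.fst'.pair PT.snd.snd'))
  refine PT.foldl (l := fun z : List Bool × List Bool => z.2)
    (s := fun _ => ((false, [[]], 0) : StZ)) (g := fun y : (List Bool × List Bool) × StZ × Bool =>
      trR V K N y.1.1 y.2.1 y.2.2) PT.snd (PT.const _) hg
    (2 * K * (4 * (N + 1) + 2) + 2 * Polynomial.X + 10) ?_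
  rintro ⟨x, l⟩ l' hl'
  have h1 : ∀ l' : List Bool, BInv (K.eval x.length) (N.eval x.length) l'.length
      (l'.foldl (trR V K N x) (false, [[]], 0)) := by
    intro l'
    induction l' using List.reverseRecOn with
    | nil => exact binv_zero (hK _)
    | append_singleton l' b ih =>
      rw [List.foldl_append, List.length_append, List.length_singleton]
      exact binv_step ih _
  have h2 := sz_state (h1 l')
  have h3 : x.length ≤ sz (x, l) := by
    have := length_le_sz x
    rw [sz_pair]
    omega
  have h4 : l'.length ≤ sz (x, l) := by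
    have h5 := length_le_sz l
    have h6 := hl'.length_le
    simp only at h6
    rw [sz_pair]
    omega
  have h5 := eval_mono K h3
  have h6 := eval_mono N h3
  simp only at h5 h6
  simp only [Polynomial.eval_add, Polynomial.eval_mul, Polynomial.eval_X, Polynomial.eval_ofNat,
    Polynomial.eval_one]
  refine h2.trans ?_
  have h7 : 2 * K.eval x.length * (4 * (N.eval x.length + 1) + 2) ≤
      2 * K.eval (sz (x, l)) * (4 * (N.eval (sz (x, l)) + 1) + 2) :=
    Nat.mul_le_mul (by omega) (by omega)
  omega

theorem pt_procR (hV : PT V) (hK : ∀ n, 1 ≤ K.eval n) : PT (procR V K N T) := by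
  have hx : PT (fun z : List Bool × List Bool => z.1) := PT.fst
  have hs := pt_stateR (N := N) hV hK
  have hKp : PT (fun z : List Bool × List Bool => K.eval z.1.length) := PT.polyEval K hx.length
  have hT : PT (fun z : List Bool × List Bool => T.eval z.1.length) := PT.polyEval T hx.length
  have hkey : PT (fun z : List Bool × List Bool =>
      kr z.1 ((stateR V K N z.1 z.2).2.1.take (K.eval z.1.length))
        (stateR V K N z.1 z.2).2.2) :=
    hx.pair ((hs.snd'.fst'.take hKp).pair (pt_rep hs.snd'.snd'))
  exact PT.cond (PT.lt PT.snd.length hT) ((PT.const true).pair hkey.quote)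
    ((PT.const false).pair (hs.fst'.cons (PT.const [])))

theorem procR_ask {x l : List Bool} (h : l.length < T.eval x.length) :
    (procR V K N T (x, l)).1 = true := by
  unfold procR
  simp only
  rw [decide_eq_true h, cond_true]

theorem procR_stop {x l : List Bool} (h : l.length = T.eval x.length) :
    procR V K N T (x, l) = (false, [(stateR V K N x l).1]) := by
  unfold procR
  simp only
  rw [h, decide_eq_false (lt_irrefl _), cond_false]

/-- the search is a polynomial time procedure with the oracle -/
theorem polyTimeO_searchR (hV : PT V) (hK : ∀ n, 1 ≤ K.eval n)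
    (W : List Bool → Bool) : PolyTimeO W (fun x => x) (fun x =>
      [(iterR V K N W x (T.eval x.length)).1]) := by
  refine ⟨procR V K N T, polyTime_of_pt (pt_procR hV hK), T, fun x =>
    ⟨T.eval x.length, le_rfl, fun j hj => ?_, ?_⟩⟩
  · obtain ⟨h1, _⟩ := stateR_answers V K N T W x j hj.le
    exact procR_ask (by rw [h1]; exact hj)
  · obtain ⟨h1, h2⟩ := stateR_answers V K N T W x (T.eval x.length) le_rfl
    show procR V K N T (x, answers W (procR V K N T) x (T.eval x.length)) = _
    rw [procR_stop h1, h2]

end ORZ
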