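import Pool.Agent.Work.MP_609cce_lc_szk.ZMach
import Pool.Agent.Work.MP_609cce_lc.PwMain

/-!
# From a compression and an oracle for the promise problem to a decision procedure
-/

namespace ORZ

open ORDist PTime Turing

attribute [local instance] finCode

theorem enumZ_surj : ∀ w : List Bool, ∃ k : ℕ, k < 2 ^ w.length ∧ enumZ w.length k = w := by
  have h : ∀ w : List Bool, ∃ k : ℕ, k.bits.length ≤ w.length ∧ enumZ w.length k = w := by
    intro w
    induction w with
    | nil => exact ⟨0, by simp, by simp [enumZ]⟩
    | cons b w ih =>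
      obtain ⟨k, h1, h2⟩ := ih
      by_cases h : k = 0 ∧ b = false
      · obtain ⟨rfl, rfl⟩ := h
        refine ⟨0, by simp, ?_⟩
        have h3 : enumZ w.length 0 = List.replicate w.length false := by simp [enumZ]
        rw [← h2, h3]
        simp [enumZ, List.replicate_succ]
      · refine ⟨Nat.bit b k, ?_, ?_⟩
        · rw [Nat.bits_append_bit _ _ fun h0 => by
            cases b
            · exact absurd ⟨h0, rfl⟩ h
            · rfl]
          simp only [List.length_cons]
          omega
        · unfold enumZ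
          rw [Nat.bits_append_bit _ _ fun h0 => by
            cases b
            · exact absurd ⟨h0, rfl⟩ h
            · rfl]
          simp only [List.length_cons, List.cons_append, Nat.add_sub_add_right]
          rw [show k.bits ++ List.replicate (w.length - k.bits.length) false = w from h2]
  intro w
  obtain ⟨k, h1, h2⟩ := h w
  rw [Nat.size_eq_bits_len] at h1
  exact ⟨k, Nat.size_le.1 h1, h2⟩

/-- the number of coins -/
noncomputable def coinsZ : Polynomial ℕ :=
  8 * Polynomial.X * Polynomial.X * (Polynomial.X * Polynomial.X + 1)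

theorem coinsZ_ge (x : List Bool) (U : List (List Bool)) (m r j : ℕ) (a : List Bool) :
    8 * U.length * (enc (kz x U m r j a)).length * (m * r + 1) ≤
      coinsZ.eval (enc (kz x U m r j a)).length := by
  have h0 : (enc (kz x U m r j a)).length = sz (kz x U m r j a) := rfl
  have h1 := length_le_sz U
  have h2 := length_le_sz (List.replicate m true)
  have h3 := length_le_sz (List.replicate r true)
  rw [List.length_replicate] at h2 h3
  have h4 : sz (kz x U m r j a) = sz x + (sz U + ((sz (List.replicate m true) +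
      sz (List.replicate r true) + 1) + sz ((List.replicate j true, a) :
        List Bool × List Bool) + 1) + 1) + 1 := by
    unfold kz
    rw [sz_pair, sz_pair, sz_pair, sz_pair]
  rw [h0]
  have h5 : U.length ≤ sz (kz x U m r j a) := by omega
  have h6 : m ≤ sz (kz x U m r j a) := by omega
  have h7 : r ≤ sz (kz x U m r j a) := by omega
  generalize sz (kz x U m r j a) = n at h5 h6 h7 ⊢
  unfold coinsZ
  simp only [Polynomial.eval_mul, Polynomial.eval_add, Polynomial.eval_X, Polynomial.eval_one,
    Polynomial.eval_ofNat]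
  exact Nat.mul_le_mul (Nat.mul_le_mul (Nat.mul_le_mul_left _ h5) le_rfl)
    (Nat.add_le_add_right (Nat.mul_le_mul h6 h7) _)

theorem enc_ne_nil {α : Type} [Code α] (a : α) : enc a ≠ [] := by
  have := sz_pos a
  intro h
  unfold sz at this
  rw [h, List.length_nil] at this
  omega

theorem candM_le {P K c : ℕ} (h : c < P * P * K) : candM P K c ≤ P := by
  unfold candM
  have h1 : c / K < P * P := Nat.div_lt_of_lt_mul (by rwa [mul_comm K])
  have h2 : c / K / P < P := Nat.div_lt_of_lt_mul h1
  omega

section

variable {γ : Type} [Code γ]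

/-- the decisions are good -/
theorem goodQ {E : List Bool × List (List Bool) → γ} {V : List Bool × List Bool → Bool}
    {W : List Bool → Bool} (hW : Tells (mapZ E) coinsZ W) {x : List Bool} {P K N m0 b0 : ℕ}
    {rt : ℕ → ℕ} (hm0 : 1 ≤ m0) (hm0P : m0 ≤ P) (hrt : ∀ m, 1 ≤ rt m)
    (hK : ∀ m, 1 ≤ m → m ≤ P → m * 2 ^ rt m ≤ K)
    (hQ : ∀ S : List (List Bool), S.length = m0 → (∀ u ∈ S, u.length ≤ N + 1) →
      sz (E (x, S)) ≤ b0) (hb0 : 4 * b0 + 2 * m0 + 2 < rt m0 * m0) {Pr : γ → Prop}
    (hE : ∀ A : List (List Bool), A ≠ [] →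
      (Pr (E (x, A)) ↔ ∃ u ∈ A, Good (fun u => V (x, u)) N u)) :
    GoodQ (fun u => V (x, u)) K N (P * P * K) (nodeZ P K rt) (qZ W x P K rt) := by
  have hK0 : 0 < K := lt_of_lt_of_le (Nat.mul_pos hm0 (Nat.two_pow_pos _)) (hK m0 hm0 hm0P)
  have hP0 : 0 < P := lt_of_lt_of_le hm0 hm0P
  refine ⟨fun U hU hKU hlen => ?_, fun U c hU hKU hc hq => ?_, fun U c hU hKU hc hq hg => ?_⟩
  · have h1 := hK m0 hm0 hm0P
    obtain ⟨j, a, hj, ha, hcl⟩ := exists_close (fun S => E (x, S)) (U := U) (r := rt m0) hm0
      (h1.trans hKU) (fun S hS hSU => hQ S hS fun u hu => hlen u (hSU hu)) hb0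
    obtain ⟨k, hk, hka⟩ := enumZ_surj a
    rw [ha] at hk hka
    have hkK : k < K := by
      refine lt_of_lt_of_le hk (le_trans ?_ h1)
      exact Nat.le_mul_of_pos_left _ hm0
    have e1 : (((m0 - 1) * P + j) * K + k) / K = (m0 - 1) * P + j := by
      rw [mul_comm, Nat.mul_add_div hK0, Nat.div_eq_of_lt hkK, Nat.add_zero]
    have e2 : candM P K (((m0 - 1) * P + j) * K + k) = m0 := by
      unfold candM
      rw [e1, mul_comm, Nat.mul_add_div hP0, Nat.div_eq_of_lt (by omega)]
      omega
    have e3 : candJ P K (((m0 - 1) * P + j) * K + k) = j := by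
      unfold candJ
      rw [e1, mul_comm, Nat.mul_add_mod, Nat.mod_eq_of_lt (by omega)]
    have e4 : candA K (rt m0) (((m0 - 1) * P + j) * K + k) = a := by
      unfold candA
      rw [mul_comm, Nat.mul_add_mod, Nat.mod_eq_of_lt hkK, hka]
    refine ⟨((m0 - 1) * P + j) * K + k, ?_, ?_⟩
    · have h2 : (m0 - 1) * P + j + 1 ≤ P * P := by
        have h3 : (m0 - 1) * P ≤ (P - 1) * P := Nat.mul_le_mul_right _ (by omega)
        have h4 : (P - 1) * P + P = P * P := by
          rw [← Nat.succ_mul]
          congr 1
          omega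
        omega
      have h3 := Nat.mul_le_mul_right K h2
      rw [Nat.add_mul, Nat.one_mul] at h3
      omega
    · unfold qZ validZ keyQ
      rw [e2, e3, e4, ha, decide_eq_true rfl, decide_eq_true hj, Bool.true_and, Bool.and_true]
      have h2 : 2 ^ rt m0 ≤ U.length :=
        le_trans (Nat.le_mul_of_pos_left _ hm0) (h1.trans hKU)
      rw [(hW _ (enc_ne_nil _)).2 (close_mapZ E x U m0 (rt m0) j a h2 hcl (coinsZ_ge _ _ _ _ _ _))]
      rfl
  · unfold qZ validZ at hq
    simp only [Bool.and_eq_true, decide_eq_true_eq] at hq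
    obtain ⟨_, h1, h2⟩ := hq
    exact pick_mem ((hK _ (Nat.succ_le_succ (Nat.zero_le _)) (candM_le hc)).trans hKU) h2 h1
  · unfold qZ validZ at hq
    simp only [Bool.and_eq_true, decide_eq_true_eq, Bool.not_eq_true'] at hq
    obtain ⟨h0, h1, h2⟩ := hq
    have hmU := (hK _ (Nat.succ_le_succ (Nat.zero_le (c / K / P))) (candM_le hc)).trans hKU
    change candM P K c * 2 ^ rt (candM P K c) ≤ U.length at hmU
    have h3 : ¬ DisjointSupports (mapZ E) (coinsZ.eval (enc (keyQ x P K rt U c)).length)
        (enc (keyQ x P K rt U c)) := by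
      intro h3
      rw [(hW _ (enc_ne_nil _)).1 h3] at h0
      exact absurd h0 (by simp)
    unfold keyQ at h3
    obtain ⟨w, w', hw, hw', heq⟩ := common_mapZ E (coinsZ_ge _ _ _ _ _ _) h3
    obtain ⟨u, hu, hgu⟩ := hg
    by_cases hun : u = nodeZ P K rt U c
    · have hmem := mem_sel_false (U := U) (r := rt (candM P K c))
        (a := candA K (rt (candM P K c)) c) (w := w) h2
      have hnot := notMem_sel_true hU hmU (hrt _) h1 (w := w') hw'.ge h2
      have hPr : Pr (E (x, selG U (candM P K c) (chB (rt (candM P K c)) (candJ P K c)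
          (candA K (rt (candM P K c)) c) false w))) := by
        refine (hE _ (List.ne_nil_of_mem hmem)).2 ⟨_, hmem, ?_⟩
        rw [hun] at hgu
        exact hgu
      rw [heq] at hPr
      have hne : selG U (candM P K c) (chB (rt (candM P K c)) (candJ P K c)
          (candA K (rt (candM P K c)) c) true w') ≠ [] := by
        intro h4
        have h5 := length_selG U (candM P K c) (chB (rt (candM P K c)) (candJ P K c)
          (candA K (rt (candM P K c)) c) true w')
        rw [h4, List.length_nil] at h5
        omega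
      obtain ⟨v, hv, hgv⟩ := (hE _ hne).1 hPr
      have hvU := selG_subset hmU (fun i hi => length_chB h1 hw'.ge hi) hv
      refine ⟨v, List.mem_filter.2 ⟨hvU, ?_⟩, hgv⟩
      simp only [Bool.not_eq_true', decide_eq_false_iff_not]
      rintro rfl
      exact hnot hv
    · exact ⟨u, List.mem_filter.2 ⟨hu, by simp [hun]⟩, hgu⟩

end

/-! ### parameters -/

/-- the number of bits for each block -/
def rateZ (c : ℕ) (m : ℕ) : ℕ := 4 * (c * m.bits.length) + 9

theorem pt_rateZ (c : ℕ) : PT (rateZ c) :=
  ((PT.const 4).mul ((PT.const c).mul (PT.bits PT.id).length)).add (PT.const 9)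

theorem mul_pow_rateZ_le {c m M : ℕ} (hm : 1 ≤ m) (hmM : m ≤ M) :
    m * 2 ^ rateZ c m ≤ M * (512 * (2 * M) ^ (4 * c)) := by
  have h1 := pow_bits_le hm
  have h2 : 2 ^ rateZ c m = 512 * (2 ^ m.bits.length) ^ (4 * c) := by
    unfold rateZ
    rw [pow_add, ← pow_mul]
    have : 4 * (c * m.bits.length) = m.bits.length * (4 * c) := by ring
    rw [this]
    norm_num
    ring
  rw [h2]
  exact Nat.mul_le_mul hmM (Nat.mul_le_mul_left _ (Nat.pow_le_pow_left (by omega) _))

/-- **Main theorem.** If an NP-hard language has an OR-compression, then every language in NP is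
decided in polynomial time with an oracle which tells disjoint supports from exponentially small
distance. -/
theorem exists_samplers {S : Type} [Finite S] [Nonempty S] {R R' : Set (List S)}
    (hR : ORDist.NPHard R) {D : List (List S) → List S} (hD : ORCompression R R' D)
    {L : Set (List Bool)} (hL : ORDist.InNP L) :
    ∃ (C : List Bool × List Bool → List Bool) (l : Polynomial ℕ),
      PolyTime pairStr (fun y => y) C ∧ ∀ W : List Bool → Bool, Tells C l W → InPO W L := by
  classical
  obtain ⟨V, p, hV0, hL⟩ := hL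
  have : Inhabited S := Classical.inhabited_of_nonempty inferInstance
  have hV : PT V := by
    have h : PT (fun z : List Bool × List Bool => [V z]) := PT.ofTM2 hV0.some pt_pairStr
    exact (h.headD (PT.const false)).congr fun z => rfl
  obtain ⟨f, hf0, hf⟩ := hR _ (prefix_inNP hV p)
  have hf1 : PT f := PT.ofTM2 (ea := fun x : List Bool => x) (eb := fun x : List S => x)
    (f := f) hf0.some PT.id
  have hD1 : PT D := PT.ofTM2 (ea := seqStr) (eb := fun x : List S => x) (f := D)
    hD.polyTime.some pt_seqStr
  obtain ⟨c, mm, pm, hmm⟩ := hD.short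
  obtain ⟨q, hq⟩ := hf1.size
  obtain ⟨B, hB⟩ : ∃ B : ℕ, ∀ s : S, sz s ≤ B := by
    have := Fintype.ofFinite S
    exact ⟨∑ s : S, sz s, fun s => Finset.single_le_sum (f := fun s : S => sz s)
      (fun _ _ => Nat.zero_le _) (Finset.mem_univ s)⟩
  let n0 : Polynomial ℕ := q.comp (4 * (2 * Polynomial.X + 1 + (p + 1)) + 1)
  have hn0 : ∀ x u : List Bool, u.length ≤ p.eval x.length + 1 →
      (f (pairStr (x, u))).length ≤ n0.eval x.length := by
    intro x u hu
    refine (length_le_sz _).trans ((hq _).trans ?_)
    have h1 := sz_str (pairStr (x, u))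
    rw [pairStr_length] at h1
    have h2 := eval_mono q (show sz (pairStr (x, u)) ≤
      4 * (2 * x.length + 1 + (p.eval x.length + 1)) + 1 by omega)
    simp only [n0, Polynomial.eval_comp, Polynomial.eval_add, Polynomial.eval_mul,
      Polynomial.eval_ofNat, Polynomial.eval_X, Polynomial.eval_one]
    exact h2
  have hgood : ∀ x u : List Bool, f (pairStr (x, u)) ∈ R ↔
      Good (fun u => V (x, u)) (p.eval x.length) u := by
    intro x u
    rw [← hf]
    exact mem_prefix
  have hE : ∀ (x : List Bool) (A : List (List Bool)), A ≠ [] →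
      (D (A.map fun u => f (pairStr (x, u))) ∈ R' ↔
        ∃ u ∈ A, Good (fun u => V (x, u)) (p.eval x.length) u) := by
    intro x A hA
    rw [hD.correct _ (by simpa using hA)]
    constructor
    · rintro ⟨w, hw, hwR⟩
      obtain ⟨u, hu, rfl⟩ := List.mem_map.1 hw
      exact ⟨u, hu, (hgood x u).1 hwR⟩
    · rintro ⟨u, hu, hg⟩
      exact ⟨_, List.mem_map.2 ⟨u, hu, rfl⟩, (hgood x u).2 hg⟩
  have hEpt : PT (fun z : List Bool × List (List Bool) =>
      D (z.2.map fun u => f (pairStr (z.1, u)))) := pt_E hD1 hf1
  refine ⟨mapZ (fun z : List Bool × List (List Bool) =>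
      D (z.2.map fun u => f (pairStr (z.1, u)))), coinsZ, polyTime_mapZ hEpt, fun W hW => ?_⟩
  let P : Polynomial ℕ := pm.comp n0 + 1
  let K : Polynomial ℕ := P * (512 * (2 * P) ^ (4 * (c * (B + 1))))
  let T : Polynomial ℕ := (p + 1) * (K * (P * P * K + 1)) + (P * P * K + 1) * 2 + 1
  have hPev : ∀ n, 1 ≤ P.eval n := fun n => by simp [P]
  have hKev : ∀ n, 1 ≤ K.eval n := by
    intro n
    have h1 := hPev n
    simp only [K, Polynomial.eval_mul, Polynomial.eval_pow, Polynomial.eval_ofNat]
    exact Nat.mul_pos h1 (Nat.mul_pos (by norm_num) (pow_pos (by omega) _))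
  refine ⟨fun x => (iterZ V P K p (rateZ (c * (B + 1))) W x (T.eval x.length)).1,
    polyTimeO_search hV (pt_rateZ _) hKev W, fun x => ?_⟩
  rw [hL x]
  have hGQ : GoodQ (fun u => V (x, u)) (K.eval x.length) (p.eval x.length)
      (P.eval x.length * P.eval x.length * K.eval x.length)
      (nodeZ (P.eval x.length) (K.eval x.length) (rateZ (c * (B + 1))))
      (qZ W x (P.eval x.length) (K.eval x.length) (rateZ (c * (B + 1)))) := by
    obtain ⟨h1, h2, h3⟩ := hmm (n0.eval x.length)
    have h4 : mm (n0.eval x.length) ≤ P.eval x.length := by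
      have h5 : pm.eval (n0.eval x.length) = (pm.comp n0).eval x.length :=
        Polynomial.eval_comp.symm
      simp only [P, Polynomial.eval_add, Polynomial.eval_one]
      omega
    refine goodQ (b0 := mm (n0.eval x.length) * (c * (B + 1) *
      (mm (n0.eval x.length)).bits.length) + 1) hW h1 h4 (fun m => by unfold rateZ; omega)
      (fun m hm hmP => ?_) ?_ ?_ (hE x)
    · simp only [K, Polynomial.eval_mul, Polynomial.eval_pow, Polynomial.eval_ofNat]
      exact mul_pow_rateZ_le hm hmP
    · intro A hA hAl
      have h5 := h3 (A.map fun u => f (pairStr (x, u))) (by rw [List.length_map, hA])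
        (by
          intro w hw
          obtain ⟨u, hu, rfl⟩ := List.mem_map.1 hw
          exact hn0 x u (hAl u hu))
      have h6 := sz_list_le (l := D (A.map fun u => f (pairStr (x, u)))) (B := B)
        fun s _ => hB s
      generalize mm (n0.eval x.length) = m at h1 h5
      have h7 := log_lt_bits h1
      have h8 : (D (A.map fun u => f (pairStr (x, u)))).length * (B + 1) ≤
          m * (c * (B + 1) * m.bits.length) := by
        calc (D (A.map fun u => f (pairStr (x, u)))).length * (B + 1)
            ≤ (c * m * (Nat.log 2 m + 1)) * (B + 1) := Nat.mul_le_mul_right _ h5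
          _ ≤ (c * m * m.bits.length) * (B + 1) :=
              Nat.mul_le_mul_right _ (Nat.mul_le_mul_left _ h7)
          _ = m * (c * (B + 1) * m.bits.length) := by ring
      show sz (D (A.map fun u => f (pairStr (x, u)))) ≤ m * (c * (B + 1) * m.bits.length) + 1
      omega
    · generalize mm (n0.eval x.length) = m at h1
      unfold rateZ
      have h5 : (4 * (c * (B + 1) * m.bits.length) + 9) * m =
          4 * (m * (c * (B + 1) * m.bits.length)) + 9 * m := by ring
      rw [h5]
      omega
  have h1 := zsearch_correct (hKev x.length) hGQ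
  have hT : T.eval x.length = (p.eval x.length + 1) * (K.eval x.length *
      (P.eval x.length * P.eval x.length * K.eval x.length + 1)) +
      (P.eval x.length * P.eval x.length * K.eval x.length + 1) * 2 + 1 := by
    simp only [T, Polynomial.eval_mul, Polynomial.eval_add, Polynomial.eval_one,
      Polynomial.eval_ofNat]
  rw [← h1, ← hT]
  rfl

end ORZ
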