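import Pool.Agent.Work.MP_609cce_lc_szk.RMach
import Pool.Agent.Work.MP_609cce_lc_szk.ZMain

/-!
# From a randomized distillation and an oracle for Statistical Difference to a decision procedure
-/

namespace ORZ

open ORDist PTime Turing

attribute [local instance] finCode

/-- the code of coins and a sequence is in the calculus -/
theorem pt_rseqStr {S : Type} [Finite S] :
    PT (rseqStr : List Bool × List (List S) → List (Option (S ⊕ Bool))) := by
  have h1 : PT (fun z : List Bool × List (List S) =>
      z.1.map fun b => (some (Sum.inr b) : Option (S ⊕ Bool))) :=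
    PT.map (g := fun y : (List Bool × List (List S)) × Bool =>
      (some (Sum.inr y.2) : Option (S ⊕ Bool))) PT.fst
      ((PT.ofFinite (fun b : Bool => (some (Sum.inr b) : Option (S ⊕ Bool)))).comp PT.snd)
  have h2 : PT (fun z : List Bool × List (List S) =>
      (seqStr z.2).map (Option.map (Sum.inl : S → S ⊕ Bool))) :=
    PT.map (g := fun y : (List Bool × List (List S)) × Option S =>
      Option.map (Sum.inl : S → S ⊕ Bool) y.2) (pt_seqStr.comp PT.snd)
      ((PT.ofFinite (Option.map (Sum.inl : S → S ⊕ Bool))).comp PT.snd)
  exact h1.append ((PT.const none).cons h2)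

theorem length_seqStr_sublist {S : Type} {xs ys : List (List S)} (h : xs.Sublist ys) :
    (seqStr xs).length ≤ (seqStr ys).length := by
  induction h with
  | slnil => exact le_rfl
  | cons b _ ih =>
    unfold seqStr at ih ⊢
    simp only [List.flatMap_cons, List.length_append]
    omega
  | cons_cons b _ ih =>
    unfold seqStr at ih ⊢
    simp only [List.flatMap_cons, List.length_append]
    omega

theorem probD_eq {S : Type} (D : List Bool × List (List S) → List S) (l : ℕ)
    (xs : List (List S)) (Y : Set (List S)) : probD D l xs Y = PR l (fun v => D (v, xs)) Y := by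
  classical
  unfold probD PR EX
  rw [Finset.sum_boole, Nat.card_eq_fintype_card, Fintype.card_subtype]

/-- **Main theorem.** If an NP-hard language has a randomized OR-distillation with two-sided error,
then every language in NP is decided in polynomial time with an oracle for Statistical
Difference. -/
theorem exists_sd {S : Type} [Finite S] [Nonempty S] {R R' : Set (List S)}
    (hR : ORDist.NPHard R) {D : List Bool × List (List S) → List S}
    (hD : RandORDistillation R R' D) {L : Set (List Bool)} (hL : ORDist.InNP L) :
    ∃ (C : List Bool × List Bool → List Bool) (l : Polynomial ℕ),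
      PolyTime pairStr (fun y => y) C ∧ ∀ W : List Bool → Bool, SolvesSD C l W → InPO W L := by
  classical
  obtain ⟨V, p, hV0, hL⟩ := hL
  have : Inhabited S := Classical.inhabited_of_nonempty inferInstance
  have hV : PT V := by
    have h : PT (fun z : List Bool × List Bool => [V z]) := PT.ofTM2 hV0.some pt_pairStr
    exact (h.headD (PT.const false)).congr fun z => rfl
  obtain ⟨f, hf0, hf⟩ := hR _ (prefix_inNP hV p)
  have hf1 : PT f := PT.ofTM2 (ea := fun x : List Bool => x) (eb := fun x : List S => x)
    (f := f) hf0.some PT.id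
  have hD1 : PT D := PT.ofTM2 (ea := rseqStr) (eb := fun x : List S => x) (f := D)
    hD.polyTime.some pt_rseqStr
  obtain ⟨c, qD, hspec⟩ := hD.spec
  obtain ⟨q, hq⟩ := hf1.size
  obtain ⟨B, hB⟩ : ∃ B : ℕ, ∀ s : S, sz s ≤ B := by
    have := Fintype.ofFinite S
    exact ⟨∑ s : S, sz s, fun s => Finset.single_le_sum (f := fun s : S => sz s)
      (fun _ _ => Nat.zero_le _) (Finset.mem_univ s)⟩
  let n0 : Polynomial ℕ := q.comp (4 * (2 * Polynomial.X + 1 + (p + 1)) + 1)
  have hn0 : ∀ x u : List Bool, u.length ≤ p.eval x.length + 1 →
      (f (pairStr (x, u))).length ≤ n0.eval x.length := by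
    intro x u hu
    refine (length_le_sz _).trans ((hq _).trans ?_)
    have h1 := sz_str (pairStr (x, u))
    rw [pairStr_length] at h1
    have h2 := eval_mono q (show sz (pairStr (x, u)) ≤
      4 * (2 * x.length + 1 + (p.eval x.length + 1)) + 1 by omega)
    simp only [n0, Polynomial.eval_comp, Polynomial.eval_add, Polynomial.eval_mul,
      Polynomial.eval_ofNat, Polynomial.eval_X, Polynomial.eval_one]
    exact h2
  have hgood : ∀ x u : List Bool, f (pairStr (x, u)) ∈ R ↔
      Good (fun u => V (x, u)) (p.eval x.length) u := by
    intro x u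
    rw [← hf]
    exact mem_prefix
  -- a node which is not good
  let bad : List Bool → List Bool := fun x => List.replicate (p.eval x.length + 1) true
  have hbad : ∀ x, ¬ Good (fun u => V (x, u)) (p.eval x.length) (bad x) := by
    rintro x ⟨y, hy, hyp, _⟩
    have h1 := hy.length_le
    rw [List.length_replicate] at h1
    omega
  -- the instances
  let F : List Bool × List (List Bool) → List (List S) := fun z =>
    (z.2 ++ [bad z.1]).map fun u => f (pairStr (z.1, u))
  have hFne : ∀ z, F z ≠ [] := fun z => by simp [F]
  have hFpt : PT F := by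
    have hA : PT (fun z : List Bool × List (List Bool) => z.2 ++ [bad z.1]) :=
      PT.snd.append ((pt_rep (PT.polyEval p PT.fst.length).succ).cons (PT.const []))
    exact PT.map (g := fun y : (List Bool × List (List Bool)) × List Bool =>
      f (pairStr (y.1.1, y.2))) hA (hf1.comp (pt_pairStr.comp (PT.fst.fst'.pair PT.snd)))
  have hFgood : ∀ (x : List Bool) (A : List (List Bool)), (∃ y ∈ F (x, A), y ∈ R) ↔
      ∃ u ∈ A, Good (fun u => V (x, u)) (p.eval x.length) u := by
    intro x A
    constructor
    · rintro ⟨y, hy, hyR⟩
      obtain ⟨u, hu, rfl⟩ := List.mem_map.1 hy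
      rw [hgood] at hyR
      rcases List.mem_append.1 hu with hu | hu
      · exact ⟨u, hu, hyR⟩
      · rw [List.mem_singleton] at hu
        rw [hu] at hyR
        exact absurd hyR (hbad x)
    · rintro ⟨u, hu, hg⟩
      exact ⟨_, List.mem_map.2 ⟨u, List.mem_append_left _ hu, rfl⟩, (hgood x u).2 hg⟩
  have hFlen : ∀ (x : List Bool) (A : List (List Bool)),
      (∀ u ∈ A, u.length ≤ p.eval x.length + 1) → ∀ y ∈ F (x, A), y.length ≤ n0.eval x.length := by
    intro x A hA y hy
    obtain ⟨u, hu, rfl⟩ := List.mem_map.1 hy
    refine hn0 x u ?_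
    rcases List.mem_append.1 hu with hu | hu
    · exact hA u hu
    · rw [List.mem_singleton] at hu
      rw [hu]
      exact (List.length_replicate).le
  -- the numbers of coins
  let cF : List Bool × List (List Bool) → ℕ := fun z => c.eval (seqStr (F z)).length
  have hcF : PT cF := PT.polyEval c ((pt_seqStr.comp hFpt).length)
  have hcmono : ∀ (x : List Bool) {A U : List (List Bool)}, A.Sublist U →
      cF (x, A) ≤ cF (x, U) := by
    intro x A U h
    exact eval_mono c (length_seqStr_sublist ((h.append_right _).map _))
  -- one run of the distillation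
  let E : List Bool × List (List Bool) × List Bool → List S := fun z =>
    D (z.2.2.take (cF (z.1, z.2.1)), F (z.1, z.2.1))
  have hEpt : PT E := by
    have hz : PT (fun z : List Bool × List (List Bool) × List Bool => (z.1, z.2.1)) :=
      PT.fst.pair PT.snd.fst'
    exact hD1.comp ((PT.snd.snd'.take (hcF.comp hz)).pair (hFpt.comp hz))
  obtain ⟨l, hl⟩ := exists_coins hcF
  refine ⟨mapR E cF, l, polyTime_mapR hEpt hcF, fun W hW => ?_⟩
  let s0 : Polynomial ℕ := qD.comp n0 * (B + 1) + 1
  let K : Polynomial ℕ := 36 * (32 * (s0 + 1) + 1)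
  let T : Polynomial ℕ := (p + 1) * (K * (K + 1)) + (K + 1) * 2 + 1
  have hKev : ∀ n, 1 ≤ K.eval n := by
    intro n
    simp only [K, Polynomial.eval_mul, Polynomial.eval_add, Polynomial.eval_ofNat,
      Polynomial.eval_one]
    omega
  refine ⟨fun x => (iterR V K p W x (T.eval x.length)).1, polyTimeO_searchR hV hKev W,
    fun x => ?_⟩
  rw [hL x]
  have hGQ : GoodQ (fun u => V (x, u)) (K.eval x.length) (p.eval x.length) (K.eval x.length)
      ndR (qR W x (K.eval x.length)) := by
    refine goodQR (s0 := s0.eval x.length) (T := R') hl hW ?_ ?_ ?_ ?_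
    · simp only [K, Polynomial.eval_mul, Polynomial.eval_add, Polynomial.eval_ofNat,
        Polynomial.eval_one, le_refl]
    · intro U A v hU hA hv
      have h1 : (v.take (cF (x, A))).length = c.eval (seqStr (F (x, A))).length := by
        rw [List.length_take, Nat.min_eq_left (by rw [hv]; exact hcmono x hA)]
      have h2 := (hspec _ (hFne (x, A))).1 (n0.eval x.length) _ h1
        (hFlen x A fun u hu => hU u (hA.subset hu))
      have h3 := sz_list_le (l := E (x, A, v)) (B := B) fun s _ => hB s
      have h4 : (E (x, A, v)).length * (B + 1) ≤ qD.eval (n0.eval x.length) * (B + 1) :=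
        Nat.mul_le_mul_right _ h2
      simp only [s0, Polynomial.eval_mul, Polynomial.eval_add, Polynomial.eval_comp,
        Polynomial.eval_natCast, Polynomial.eval_one, Nat.cast_id]
      omega
    · intro U A hA hg
      have h1 := (hspec _ (hFne (x, A))).2.1 ((hFgood x A).2 hg)
      rw [probD_eq] at h1
      have h2 := PR_take (hcmono x hA) (fun v => D (v, F (x, A))) R'
      show 2 / 3 ≤ PR (cF (x, U)) (fun v => D (v.take (cF (x, A)), F (x, A))) R'
      rw [h2]
      exact h1
    · intro U A hA hg
      have h1 := (hspec _ (hFne (x, A))).2.2 (by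
        intro y hy hyR
        exact hg ((hFgood x A).1 ⟨y, hy, hyR⟩))
      rw [probD_eq] at h1
      have h2 := PR_take (hcmono x hA) (fun v => D (v, F (x, A))) R'
      show PR (cF (x, U)) (fun v => D (v.take (cF (x, A)), F (x, A))) R' ≤ 1 / 3
      rw [h2]
      exact h1
  have h1 := zsearch_correct (hKev x.length) hGQ
  have hT : T.eval x.length = (p.eval x.length + 1) * (K.eval x.length *
      (K.eval x.length + 1)) + (K.eval x.length + 1) * 2 + 1 := by
    simp only [T, Polynomial.eval_mul, Polynomial.eval_add, Polynomial.eval_one,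
      Polynomial.eval_ofNat]
  rw [← h1, ← hT]
  rfl

end ORZ
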