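import Pool.Agent.Work.MP_609cce_lc.OrcDefs

/-!
# Pairs of samplers: disjoint supports or exponentially small distance
-/

namespace ORDist

/-- the probability that the sampler number `b` of `x`, that is `u ↦ C (x, b :: u)` for `l` uniform
random coins `u`, gives a string in `Y` -/
noncomputable def prob (C : List Bool × List Bool → List Bool) (l : ℕ) (x : List Bool) (b : Bool)
    (Y : Set (List Bool)) : ℝ :=
  (Nat.card {u : Fin l → Bool // C (x, b :: List.ofFn u) ∈ Y} : ℝ) / 2 ^ l

/-- the two samplers of `x` have disjoint supports -/
def DisjointSupports (C : List Bool × List Bool → List Bool) (l : ℕ) (x : List Bool) : Prop :=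
  ∀ u v : List Bool, u.length = l → v.length = l → C (x, false :: u) ≠ C (x, true :: v)

/-- the statistical distance of the two samplers of `x` is at most `δ` -/
def StatClose (C : List Bool × List Bool → List Bool) (l : ℕ) (x : List Bool) (δ : ℝ) : Prop :=
  ∀ Y : Set (List Bool), |prob C l x false Y - prob C l x true Y| ≤ δ

/-- the oracle `W` solves this promise problem: tell pairs of samplers with disjoint supports from
pairs of samplers at a statistical distance of at most `2^(-|x|)` (with `l (|x|)` coins) -/
def Tells (C : List Bool × List Bool → List Bool) (l : Polynomial ℕ)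
    (W : List Bool → Bool) : Prop :=
  ∀ x : List Bool, x ≠ [] →
    (DisjointSupports C (l.eval x.length) x → W x = true) ∧
    (StatClose C (l.eval x.length) x ((1 / 2) ^ x.length) → W x = false)

end ORDist
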