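import Pool.Agent.Work.MP_609cce_lc_szk.ZSamp
import Pool.Agent.Work.MP_609cce_lc_szk.ZDefs

/-!
# The pair of samplers of a key
-/

namespace ORZ

open ORDist PTime

/-- keys: the input, the nodes, the numbers `m`, `r` in unary, the number `j` in unary and the bits
`a` -/
abbrev KeyZ := List Bool × List (List Bool) × (List Bool × List Bool) × (List Bool × List Bool)

/-- the data coded by a key -/
def keyZ (z : List Bool) : KeyZ := Dec.ofT (parseT z)

theorem keyZ_enc (k : KeyZ) : keyZ (enc k) = k := by
  unfold keyZ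
  rw [parse_enc, Dec.ofT_toT]

section

variable {γ : Type} [Code γ]

/-- one copy, the first coin chooses the sampler -/
def oneZ (E : List Bool × List (List Bool) → γ) (k : KeyZ) (u : List Bool) : γ :=
  E (k.1, selG k.2.1 k.2.2.1.1.length
    (chB k.2.2.1.2.length k.2.2.2.1.length k.2.2.2.2 (u.headD false) u.tail))

/-- the number of coins of one copy -/
def nZ (k : KeyZ) : ℕ := k.2.2.1.1.length * k.2.2.1.2.length + 1

/-- the number of copies -/
def cZ (k : KeyZ) (n : ℕ) : ℕ := 8 * k.2.1.length * n

/-- the samplers -/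
def mapZ (E : List Bool × List (List Bool) → γ) (z : List Bool × List Bool) : List Bool :=
  (xor (z.2.headD false) (par (nZ (keyZ z.1)) (cZ (keyZ z.1) z.1.length) z.2.tail)) ::
    enc (outs (oneZ E (keyZ z.1)) (nZ (keyZ z.1)) (cZ (keyZ z.1) z.1.length) z.2.tail)

/-- the key of the data -/
def kz (x : List Bool) (U : List (List Bool)) (m r j : ℕ) (a : List Bool) : KeyZ :=
  (x, U, (List.replicate m true, List.replicate r true), (List.replicate j true, a))

theorem nZ_kz (x : List Bool) (U : List (List Bool)) (m r j : ℕ) (a : List Bool) :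
    nZ (kz x U m r j a) = m * r + 1 := by
  simp [nZ, kz]

theorem cZ_kz (x : List Bool) (U : List (List Bool)) (m r j : ℕ) (a : List Bool) (n : ℕ) :
    cZ (kz x U m r j a) n = 8 * U.length * n := by
  simp [cZ, kz]

omit [Code γ] in
theorem oneZ_cons (E : List Bool × List (List Bool) → γ) (x : List Bool) (U : List (List Bool))
    (m r j : ℕ) (a : List Bool) (b : Bool) (w : List Bool) :
    oneZ E (kz x U m r j a) (b :: w) = E (x, selG U m (chB r j a b w)) := by
  simp [oneZ, kz]

/-! ### only the first coins matter -/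

theorem cblk_append {n c i : ℕ} {u v : List Bool} (hu : u.length = c * n) (hi : i < c) :
    cblk n (u ++ v) i = cblk n u i := by
  unfold cblk
  have h1 : (i + 1) * n ≤ c * n := Nat.mul_le_mul_right _ hi
  have h2 : (i + 1) * n = i * n + n := by ring
  rw [List.drop_append_of_le_length (by omega), List.take_append_of_le_length]
  rw [List.length_drop]
  omega

omit [Code γ] in
theorem outs_append (G : List Bool → γ) {n c : ℕ} {u v : List Bool} (hu : u.length = c * n) :
    outs G n c (u ++ v) = outs G n c u :=
  List.map_congr_left fun i hi => by rw [cblk_append hu (List.mem_range.1 hi)]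

theorem foldl_congr' {f g : Bool → ℕ → Bool} : ∀ (l : List ℕ) (b : Bool),
    (∀ b, ∀ i ∈ l, f b i = g b i) → l.foldl f b = l.foldl g b
  | [], _, _ => rfl
  | i :: l, b, h => by
    rw [List.foldl_cons, List.foldl_cons, h b i (List.mem_cons_self ..)]
    exact foldl_congr' l _ fun b i hi => h b i (List.mem_cons_of_mem _ hi)

theorem par_append {n c : ℕ} {u v : List Bool} (hu : u.length = c * n) :
    par n c (u ++ v) = par n c u :=
  foldl_congr' _ _ fun b i hi => by rw [cblk_append hu (List.mem_range.1 hi)]

/-! ### closeness -/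

theorem prob_eq (C : List Bool × List Bool → List Bool) (l : ℕ) (x : List Bool) (b : Bool)
    (Y : Set (List Bool)) : prob C l x b Y = PR l (fun u => C (x, b :: u)) Y := by
  classical
  unfold prob PR EX
  rw [Finset.sum_boole, Nat.card_eq_fintype_card, Fintype.card_subtype]

theorem half_pow {s n : ℕ} (hs : 1 ≤ s) :
    ((1 : ℝ) - 1 / (8 * s)) ^ (8 * s * n) ≤ (1 / 2) ^ n := by
  rw [pow_mul]
  refine pow_le_pow_left₀ (pow_nonneg ?_ _) ?_ _
  · rw [sub_nonneg, div_le_one (by positivity)]
    have : (1 : ℝ) ≤ s := by exact_mod_cast hs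
    linarith
  · have h1 := Real.one_sub_div_pow_le_exp_neg (n := 8 * s) (t := 1) (by
      have : (1 : ℝ) ≤ s := by exact_mod_cast hs
      push_cast
      linarith)
    push_cast at h1
    refine h1.trans ?_
    rw [Real.exp_neg, one_div]
    refine inv_anti₀ (by norm_num) ?_
    have := Real.add_one_le_exp (1 : ℝ)
    linarith

theorem close_mapZ (E : List Bool × List (List Bool) → γ) (x : List Bool)
    (U : List (List Bool)) (m r j : ℕ) (a : List Bool) (hr : 2 ^ r ≤ U.length)
    (h : ∀ T : Set γ, |PR (m * r) (fun w => E (x, selG U m (chB r j a false w))) T -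
      PR (m * r) (fun w => E (x, selG U m (chB r j a true w))) T| ≤ 1 - 1 / (8 * 2 ^ r))
    {l : ℕ} (hl : 8 * U.length * (enc (kz x U m r j a)).length * (m * r + 1) ≤ l) :
    StatClose (mapZ E) l (enc (kz x U m r j a)) ((1 / 2) ^ (enc (kz x U m r j a)).length) := by
  classical
  intro Y
  set z := enc (kz x U m r j a) with hz
  set c := 8 * U.length * z.length with hc
  obtain ⟨l', rfl⟩ : ∃ l', l = c * (m * r + 1) + l' := ⟨l - c * (m * r + 1), by omega⟩
  rw [prob_eq, prob_eq]
  have hmap : ∀ (b : Bool) (u : List Bool), mapZ E (z, b :: u) =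
      (xor b (par (m * r + 1) c u)) :: enc (outs (oneZ E (kz x U m r j a)) (m * r + 1) c u) := by
    intro b u
    unfold mapZ
    simp only [hz, keyZ_enc, nZ_kz, cZ_kz, List.headD_cons, List.tail_cons]
    rfl
  have hshort : ∀ b : Bool, PR (c * (m * r + 1) + l') (fun u => mapZ E (z, b :: u)) Y =
      PR (c * (m * r + 1)) (fun u => mapZ E (z, b :: u)) Y := by
    intro b
    unfold PR
    rw [EX_append]
    refine EX_congr fun u hu => ?_
    have h1 : ∀ v, mapZ E (z, b :: (u ++ v)) = mapZ E (z, b :: u) := by
      intro v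
      rw [hmap, hmap, outs_append _ hu, par_append hu]
    simp only [h1]
    exact EX_const _ _
  rw [hshort, hshort]
  let φ : List γ → ℝ := fun y => (if false :: enc y ∈ Y then 1 else 0) -
    (if true :: enc y ∈ Y then 1 else 0)
  have hφ : ∀ y, |φ y| ≤ 1 := by
    intro y
    simp only [φ]
    split_ifs <;> norm_num
  have he : PR (c * (m * r + 1)) (fun u => mapZ E (z, false :: u)) Y -
      PR (c * (m * r + 1)) (fun u => mapZ E (z, true :: u)) Y =
      EX (c * (m * r + 1)) (fun u => sgn (par (m * r + 1) c u) *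
        φ (outs (oneZ E (kz x U m r j a)) (m * r + 1) c u)) := by
    unfold PR
    rw [← EX_sub]
    refine EX_congr fun u _ => ?_
    simp only [hmap]
    cases par (m * r + 1) c u
    · simp [sgn, φ]
    · simp [sgn, φ]
  rw [he]
  have h1 := xor_copies (G := oneZ E (kz x U m r j a)) (n := m * r + 1)
    (τ := 1 - 1 / (8 * 2 ^ r)) (fun ψ B hψ => one_copy (fun T => by
      simp only [oneZ_cons]
      exact h T) hψ) c φ 1 hφ
  refine h1.trans ?_
  rw [mul_one]
  have h2 := half_pow (s := 2 ^ r) (n := z.length) Nat.one_le_two_pow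
  push_cast at h2
  refine le_trans (pow_le_pow_of_le_one ?_ ?_ ?_) h2
  · rw [sub_nonneg, div_le_one (by positivity)]
    have : (1 : ℝ) ≤ 2 ^ r := one_le_pow₀ (by norm_num)
    linarith
  · have : (0 : ℝ) ≤ 1 / (8 * 2 ^ r) := by positivity
    linarith
  · rw [hc]
    exact Nat.mul_le_mul_right _ (Nat.mul_le_mul_left _ hr)

/-! ### common values -/

omit [Code γ] in
theorem exists_copy {G : List Bool → γ} {n c : ℕ} {u v : List Bool}
    (h1 : outs G n c u = outs G n c v) (h2 : par n c u ≠ par n c v) :
    ∃ i < c, G (cblk n u i) = G (cblk n v i) ∧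
      (cblk n u i).headD false ≠ (cblk n v i).headD false := by
  by_contra hcon
  push Not at hcon
  refine h2 (foldl_congr' _ _ fun b i hi => ?_)
  rw [List.mem_range] at hi
  rw [hcon i hi]
  have h3 : (outs G n c u)[i]? = (outs G n c v)[i]? := by rw [h1]
  unfold outs at h3
  rw [List.getElem?_map, List.getElem?_map, List.getElem?_range hi] at h3
  simpa using h3

/-- if the supports are not disjoint, then one copy has a common value -/
theorem common_mapZ (E : List Bool × List (List Bool) → γ) {x : List Bool}
    {U : List (List Bool)} {m r j : ℕ} {a : List Bool} {l : ℕ}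
    (hl : 8 * U.length * (enc (kz x U m r j a)).length * (m * r + 1) ≤ l)
    (h : ¬ DisjointSupports (mapZ E) l (enc (kz x U m r j a))) :
    ∃ w w' : List Bool, w.length = m * r ∧ w'.length = m * r ∧
      E (x, selG U m (chB r j a false w)) = E (x, selG U m (chB r j a true w')) := by
  unfold DisjointSupports at h
  push Not at h
  obtain ⟨u, v, hu, hv, huv⟩ := h
  set z := enc (kz x U m r j a) with hz
  set c := 8 * U.length * z.length with hc
  have hmap : ∀ (b : Bool) (u : List Bool), mapZ E (z, b :: u) =
      (xor b (par (m * r + 1) c u)) :: enc (outs (oneZ E (kz x U m r j a)) (m * r + 1) c u) := by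
    intro b u
    unfold mapZ
    simp only [hz, keyZ_enc, nZ_kz, cZ_kz, List.headD_cons, List.tail_cons]
    rfl
  rw [hmap, hmap] at huv
  obtain ⟨h1, h2⟩ := List.cons.inj huv
  obtain ⟨i, hi, h3, h4⟩ := exists_copy (enc_inj h2) (by
    intro h5
    rw [h5] at h1
    cases par (m * r + 1) c v <;> simp at h1)
  have hlen : ∀ u : List Bool, u.length = l → ∃ b w, cblk (m * r + 1) u i = b :: w ∧
      w.length = m * r := by
    intro u hu
    have h5 : (cblk (m * r + 1) u i).length = m * r + 1 :=
      length_cblk (m := c) (by rw [hu]; exact hl) hi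
    match hcb : cblk (m * r + 1) u i with
    | [] => rw [hcb, List.length_nil] at h5; omega
    | b :: w => rw [hcb, List.length_cons] at h5; exact ⟨b, w, rfl, by omega⟩
  obtain ⟨b, w, hb, hw⟩ := hlen u hu
  obtain ⟨b', w', hb', hw'⟩ := hlen v hv
  rw [hb, hb', oneZ_cons, oneZ_cons] at h3
  rw [hb, hb', List.headD_cons, List.headD_cons] at h4
  cases b <;> cases b'
  · exact absurd rfl h4
  · exact ⟨w, w', hw, hw', h3⟩
  · exact ⟨w', w, hw', hw, h3.symm⟩
  · exact absurd rfl h4

end

end ORZ
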