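import Pool.Agent.Work.MP_609cce_lc_szk.RAmp
import Pool.Agent.Work.MP_609cce_lc_szk.RDefs
import Pool.Agent.Work.MP_609cce_lc_szk.RLevel
import Pool.Agent.Work.MP_609cce_lc_szk.ZMap

/-!
# The samplers: a random subset with and without a node
-/

namespace ORZ

open ORDist PTime Finset

/-- keys: the input, the nodes, the number of the node in unary -/
abbrev KeyR := List Bool × List (List Bool) × List Bool

/-- the data coded by a key -/
def keyR (z : List Bool) : KeyR := Dec.ofT (parseT z)

theorem keyR_enc (k : KeyR) : keyR (enc k) = k := by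
  unfold keyR
  rw [parse_enc, Dec.ofT_toT]

/-- the nodes of a subset -/
def selM (U : List (List Bool)) (g : ℕ → Bool) : List (List Bool) :=
  ((List.range U.length).filter g).map fun t => U.getD t []

/-- the subset `u` with the membership of the node number `i` set to `b` -/
def maskR (i : ℕ) (b : Bool) (u : List Bool) (t : ℕ) : Bool :=
  bif decide (t = i) then b else u.getD t false

theorem selM_congr {U : List (List Bool)} {g g' : ℕ → Bool} (h : ∀ t < U.length, g t = g' t) :
    selM U g = selM U g' := by
  unfold selM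
  rw [List.filter_congr fun t ht => h t (List.mem_range.1 ht)]

theorem mem_selM {U : List (List Bool)} {g : ℕ → Bool} {v : List Bool} :
    v ∈ selM U g ↔ ∃ t, ∃ h : t < U.length, g t = true ∧ U[t] = v := by
  unfold selM
  rw [List.mem_map]
  constructor
  · rintro ⟨t, ht, rfl⟩
    rw [List.mem_filter, List.mem_range] at ht
    exact ⟨t, ht.1, ht.2, (List.getD_eq_getElem _ _ ht.1).symm⟩
  · rintro ⟨t, ht, h1, rfl⟩
    exact ⟨t, List.mem_filter.2 ⟨List.mem_range.2 ht, h1⟩, List.getD_eq_getElem _ _ ht⟩

theorem selM_sublist (U : List (List Bool)) (g : ℕ → Bool) : (selM U g).Sublist U := by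
  have h1 : (List.range U.length).map (fun t => U.getD t []) = U := by
    refine List.ext_getElem (by simp) fun i h1 h2 => ?_
    simp [List.getElem?_eq_getElem h2]
  have h2 : (selM U g).Sublist ((List.range U.length).map fun t => U.getD t []) :=
    List.Sublist.map _ List.filter_sublist
  rwa [h1] at h2

section

variable {γ : Type} [Code γ]

/-- one copy for the key `k`, `g` is the subset -/
def oneR (E : List Bool × List (List Bool) × List Bool → γ) (x : List Bool)
    (U : List (List Bool)) (g : ℕ → Bool) (v : List Bool) : γ := E (x, selM U g, v)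

/-- the samplers -/
def mapR (E : List Bool × List (List Bool) × List Bool → γ)
    (cF : List Bool × List (List Bool) → ℕ) (z : List Bool × List Bool) : List Bool :=
  enc (outs (oneR E (keyR z.1).1 (keyR z.1).2.1
      (maskR (keyR z.1).2.2.length (z.2.headD false) z.2.tail))
    (cF ((keyR z.1).1, (keyR z.1).2.1)) 32 (z.2.tail.drop (keyR z.1).2.1.length))

/-- the key -/
def kr (x : List Bool) (U : List (List Bool)) (i : ℕ) : KeyR := (x, U, List.replicate i true)

variable {E : List Bool × List (List Bool) × List Bool → γ}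
  {cF : List Bool × List (List Bool) → ℕ}

theorem mapR_cons (x : List Bool) (U : List (List Bool)) (i : ℕ) (b : Bool) (S v : List Bool)
    (hS : S.length = U.length) : mapR E cF (enc (kr x U i), b :: (S ++ v)) =
      enc (outs (oneR E x U (maskR i b S)) (cF (x, U)) 32 v) := by
  unfold mapR
  rw [keyR_enc]
  simp only [kr, List.headD_cons, List.tail_cons, List.length_replicate]
  rw [show (S ++ v).drop U.length = v by rw [← hS, List.drop_left]]
  have h : oneR E x U (maskR i b (S ++ v)) = oneR E x U (maskR i b S) := by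
    funext w
    unfold oneR
    rw [selM_congr fun t ht => ?_]
    unfold maskR
    congr 1
    rw [List.getD_append _ _ _ _ (by rw [hS]; exact ht)]
  rw [h]

/-- the probabilities -/
theorem prob_mapR (x : List Bool) (U : List (List Bool)) (i : ℕ) (b : Bool) {l : ℕ}
    (hl : U.length + 32 * cF (x, U) ≤ l) (Y : Set (List Bool)) :
    prob (mapR E cF) l (enc (kr x U i)) b Y = EX U.length (fun S =>
      PR (32 * cF (x, U)) (outs (oneR E x U (maskR i b S)) (cF (x, U)) 32) {y | enc y ∈ Y}) := by
  classical
  obtain ⟨l', rfl⟩ := Nat.exists_eq_add_of_le hl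
  rw [prob_eq]
  unfold PR
  rw [Nat.add_assoc, EX_append]
  refine EX_congr fun S hS => ?_
  rw [EX_append]
  refine EX_congr fun v hv => ?_
  have h1 : ∀ w, mapR E cF (enc (kr x U i), b :: (S ++ (v ++ w))) =
      enc (outs (oneR E x U (maskR i b S)) (cF (x, U)) 32 v) := by
    intro w
    rw [mapR_cons x U i b S (v ++ w) hS, outs_append _ hv]
  simp only [h1]
  rw [EX_const]
  rfl

/-- far -/
theorem far_mapR {x : List Bool} {U : List (List Bool)} {i : ℕ} (hi : i < U.length) {l : ℕ}
    (hl : U.length + 32 * cF (x, U) ≤ l) {T : Set γ} {G : List Bool → Prop}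
    (hyes : ∀ A : List (List Bool), A.Sublist U → (∃ u ∈ A, G u) →
      2 / 3 ≤ PR (cF (x, U)) (fun v => E (x, A, v)) T)
    (hno : ∀ A : List (List Bool), A.Sublist U → (¬ ∃ u ∈ A, G u) →
      PR (cF (x, U)) (fun v => E (x, A, v)) T ≤ 1 / 3)
    (hgood : G U[i]) (honly : ∀ t, ∀ h : t < U.length, t ≠ i → ¬ G U[t]) :
    2 / 3 ≤ |prob (mapR E cF) l (enc (kr x U i)) false {s | ∃ y ∈ maj T, s = enc y} -
      prob (mapR E cF) l (enc (kr x U i)) true {s | ∃ y ∈ maj T, s = enc y}| := by
  rw [prob_mapR x U i false hl, prob_mapR x U i true hl]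
  have hY : {y : List γ | enc y ∈ {s | ∃ y ∈ maj T, s = enc y}} = maj T := by
    ext y
    constructor
    · rintro ⟨y', h1, h2⟩
      rw [enc_inj h2]
      exact h1
    · intro h
      exact ⟨y, h, rfl⟩
  rw [hY]
  have h1 : 5 / 6 ≤ EX U.length (fun S =>
      PR (32 * cF (x, U)) (outs (oneR E x U (maskR i true S)) (cF (x, U)) 32) (maj T)) := by
    rw [← EX_const U.length (5 / 6)]
    refine EX_mono fun S _ => maj_yes (hyes _ (selM_sublist _ _) ?_)
    refine ⟨U[i], mem_selM.2 ⟨i, hi, ?_, rfl⟩, hgood⟩
    unfold maskR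
    rw [decide_eq_true rfl, cond_true]
  have h2 : EX U.length (fun S =>
      PR (32 * cF (x, U)) (outs (oneR E x U (maskR i false S)) (cF (x, U)) 32) (maj T)) ≤
      1 / 6 := by
    rw [← EX_const U.length (1 / 6)]
    refine EX_mono fun S _ => maj_no (hno _ (selM_sublist _ _) ?_)
    rintro ⟨u, hu, hgu⟩
    obtain ⟨t, ht, hmask, rfl⟩ := mem_selM.1 hu
    by_cases hti : t = i
    · unfold maskR at hmask
      rw [decide_eq_true hti, cond_true] at hmask
      exact absurd hmask (by simp)
    · exact honly t ht hti hgu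
  rw [abs_sub_comm]
  refine le_trans ?_ (le_abs_self _)
  linarith

/-- the subset of a function -/
def gF {n : ℕ} (u : Fin n → Bool) (t : ℕ) : Bool := if h : t < n then u ⟨t, h⟩ else false

theorem gF_update {n : ℕ} (u : Fin n → Bool) (i : Fin n) (b : Bool) {t : ℕ} (ht : t < n) :
    maskR i b (List.ofFn u) t = gF (Function.update u i b) t := by
  unfold maskR gF
  rw [dif_pos ht]
  by_cases h : t = i
  · subst h
    rw [decide_eq_true rfl, cond_true, Function.update_self]
  · rw [decide_eq_false h, cond_false, Function.update_of_ne fun h' => h (congrArg Fin.val h')]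
    rw [List.getD_eq_getElem _ _ (by rw [List.length_ofFn]; exact ht), List.getElem_ofFn]

/-- close -/
theorem close_mapR {x : List Bool} {U : List (List Bool)} (hU : 1 ≤ U.length) {s0 : ℕ}
    (hsz : ∀ (A : List (List Bool)) (v : List Bool), A.Sublist U → v.length = cF (x, U) →
      sz (E (x, A, v)) ≤ s0) (hK : 36 * (32 * (s0 + 1) + 1) ≤ U.length) :
    ∃ i < U.length, ∀ l, U.length + 32 * cF (x, U) ≤ l →
      StatClose (mapR E cF) l (enc (kr x U i)) (1 / 3) := by
  classical
  let e : (Fin U.length → Bool) → (Fin (32 * cF (x, U)) → Bool) → List γ := fun u v =>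
    outs (oneR E x U (gF u)) (cF (x, U)) 32 (List.ofFn v)
  have hsz2 : ∀ u v, sz (e u v) ≤ 32 * (s0 + 1) + 1 := by
    intro u v
    have h1 := sz_list_le (l := e u v) (B := s0) (by
      intro y hy
      obtain ⟨t, ht, rfl⟩ := List.mem_map.1 hy
      rw [List.mem_range] at ht
      exact hsz _ _ (selM_sublist _ _) (length_cblk (m := 32) (by rw [List.length_ofFn]) ht))
    have h2 : (e u v).length = 32 := length_outs _ _ _ _
    rwa [h2] at h1
  let Y : Finset (List γ) := univ.image fun w : (Fin U.length → Bool) ×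
    (Fin (32 * cF (x, U)) → Bool) => e w.1 w.2
  have hY : ∀ u v, e u v ∈ Y := fun u v => Finset.mem_image.2 ⟨(u, v), Finset.mem_univ _, rfl⟩
  obtain ⟨i, hi⟩ := close_level hU e Y hY (card_image_short _ _ fun w => hsz2 w.1 w.2) hK
  refine ⟨i, i.2, fun l hl Z => ?_⟩
  rw [prob_mapR x U i false hl, prob_mapR x U i true hl]
  have hlink : ∀ b : Bool, EX U.length (fun S =>
      PR (32 * cF (x, U)) (outs (oneR E x U (maskR i b S)) (cF (x, U)) 32) {y | enc y ∈ Z}) =
      cntT e i b {y | enc y ∈ Z} / (2 ^ U.length * 2 ^ (32 * cF (x, U))) := by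
    intro b
    unfold EX PR EX cntT
    rw [← Finset.sum_div, div_div, mul_comm ((2 : ℝ) ^ (32 * cF (x, U)))]
    congr 1
    refine Finset.sum_congr rfl fun u _ => Finset.sum_congr rfl fun v _ => ?_
    have h1 : oneR E x U (maskR i b (List.ofFn u)) = oneR E x U (gF (Function.update u i b)) := by
      funext w
      unfold oneR
      rw [selM_congr fun t ht => gF_update u i b ht]
    rw [h1]
  rw [hlink, hlink, ← sub_div, abs_div, div_le_iff₀ (by positivity)]
  refine (hi {y | enc y ∈ Z}).trans (le_of_eq ?_)
  rw [Fintype.card_fun, Fintype.card_bool, Fintype.card_fin]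
  push_cast
  rw [abs_of_pos (by positivity)]

end

end ORZ
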