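import Mathlib

/-!
# Compression of independent choices: one choice is badly determined by the output

`e w` is the compressed value of the sequence `w` of `m` choices from the finite type `β`.
-/

namespace ORZ

open Finset

variable {β γ : Type} [Fintype β] [DecidableEq β] {m : ℕ}

/-- the coordinates which are not determined by the value `y` through the tests `T` -/
noncomputable def badC (e : (Fin m → β) → γ) (T : Fin m → β → Set γ) (w : Fin m → β) :
    Finset (Fin m) :=
  @Finset.filter _ (fun j => ¬ (e w ∈ T j (w j) ∧ ∀ a, a ≠ w j → e w ∉ T j a))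
    (Classical.decPred _) univ

omit [Fintype β] [DecidableEq β] in
theorem mem_badC {e : (Fin m → β) → γ} {T : Fin m → β → Set γ} {w : Fin m → β} {j : Fin m} :
    j ∈ badC e T w ↔ ¬ (e w ∈ T j (w j) ∧ ∀ a, a ≠ w j → e w ∉ T j a) := by
  simp [badC]

open Classical in
/-- exchange of the coordinate `j` with a new choice -/
theorem card_update (e : (Fin m → β) → γ) (T : β → Set γ) (j : Fin m) :
    ∑ a : β, (univ.filter fun w : Fin m → β => e (Function.update w j a) ∉ T a).card =
      Fintype.card β * (univ.filter fun w : Fin m → β => e w ∉ T (w j)).card := by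
  have h1 : ∑ a : β, (univ.filter fun w : Fin m → β => e (Function.update w j a) ∉ T a).card =
      (univ.filter fun z : β × (Fin m → β) => e (Function.update z.2 j z.1) ∉ T z.1).card := by
    rw [Finset.card_filter, Fintype.sum_prod_type]
    simp only [Finset.card_filter]
  have h2 : Fintype.card β * (univ.filter fun w : Fin m → β => e w ∉ T (w j)).card =
      (univ.filter fun z : β × (Fin m → β) => e z.2 ∉ T (z.2 j)).card := by
    rw [Finset.card_filter, Finset.card_filter, Fintype.sum_prod_type]
    show _ = ∑ _x : β, ∑ y : Fin m → β, if e y ∉ T (y j) then 1 else 0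
    rw [Finset.sum_const, Finset.card_univ, smul_eq_mul]
  rw [h1, h2]
  refine Finset.card_bij (fun z _ => (z.2 j, Function.update z.2 j z.1)) ?_ ?_ ?_
  · intro z hz
    simpa using hz
  · rintro ⟨a, w⟩ _ ⟨a', w'⟩ _ h
    obtain ⟨h3, h4⟩ := Prod.mk.inj h
    simp only at h3 h4
    have h5 : a = a' := by simpa using congrFun h4 j
    subst h5
    refine Prod.ext rfl (funext fun i => ?_)
    by_cases hi : i = j
    · subst hi
      exact h3
    · have := congrFun h4 i
      rwa [Function.update_of_ne hi, Function.update_of_ne hi] at this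
  · rintro ⟨a, w⟩ hz
    refine ⟨(w j, Function.update w j a), ?_, ?_⟩
    · simpa using hz
    · simp

/-- `w` with the coordinate `j` changed if it is `a` -/
def updB (fl : β → β) (w : Fin m → β) (j : Fin m) (a : β) : Fin m → β :=
  if w j = a then Function.update w j (fl a) else w

open Classical in
/-- few bad coordinates -/
theorem card_bad (e : (Fin m → β) → γ) (T : Fin m → β → Set γ) (fl : β → β)
    (hA : ∀ j a, 8 * Fintype.card β *
      (univ.filter fun w : Fin m → β => e (Function.update w j a) ∉ T j a).card ≤
        Fintype.card β ^ m)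
    (hB : ∀ j a, 8 * Fintype.card β *
      (univ.filter fun w : Fin m → β => e (updB fl w j a) ∈ T j a).card ≤ Fintype.card β ^ m)
    (j : Fin m) :
    4 * (univ.filter fun w : Fin m → β => j ∈ badC e T w).card ≤ Fintype.card β ^ m := by
  set s := Fintype.card β with hs
  rcases Nat.eq_zero_or_pos s with h0 | hspos
  · have hm : 1 ≤ m := j.pos
    have hβ : IsEmpty β := Fintype.card_eq_zero_iff.1 (hs ▸ h0)
    have : IsEmpty (Fin m → β) := ⟨fun w => hβ.false (w j)⟩
    rw [Finset.univ_eq_empty, Finset.filter_empty, Finset.card_empty]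
    omega
  have h1 : (univ.filter fun w : Fin m → β => j ∈ badC e T w).card ≤
      (univ.filter fun w : Fin m → β => e w ∉ T j (w j)).card +
      ∑ a : β, (univ.filter fun w : Fin m → β => e (updB fl w j a) ∈ T j a).card := by
    have hsub : (univ.filter fun w : Fin m → β => j ∈ badC e T w) ⊆
        (univ.filter fun w : Fin m → β => e w ∉ T j (w j)) ∪
        univ.biUnion fun a : β =>
          univ.filter fun w : Fin m → β => e (updB fl w j a) ∈ T j a := by
      intro w hw
      rw [mem_filter, mem_badC] at hw
      rw [mem_union, mem_filter, mem_biUnion]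
      by_cases h2 : e w ∈ T j (w j)
      · right
        have h3 : ¬ ∀ a, a ≠ w j → e w ∉ T j a := fun h => hw.2 ⟨h2, h⟩
        push Not at h3
        obtain ⟨a, ha, haT⟩ := h3
        refine ⟨a, mem_univ _, mem_filter.2 ⟨mem_univ _, ?_⟩⟩
        unfold updB
        rw [if_neg (Ne.symm ha)]
        exact haT
      · left
        exact ⟨mem_univ _, h2⟩
    exact (card_le_card hsub).trans ((card_union_le _ _).trans
      (Nat.add_le_add_left card_biUnion_le _))
  have h2 := card_update e (T j) j
  have h3 : 8 * (s * (s * (univ.filter fun w : Fin m → β => e w ∉ T j (w j)).card)) ≤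
      s * s ^ m := by
    rw [← h2]
    calc 8 * (s * ∑ a : β,
          (univ.filter fun w : Fin m → β => e (Function.update w j a) ∉ T j a).card)
        = ∑ a : β, 8 * s *
          (univ.filter fun w : Fin m → β => e (Function.update w j a) ∉ T j a).card := by
          rw [Finset.mul_sum, Finset.mul_sum]
          refine Finset.sum_congr rfl fun a _ => ?_
          ring
      _ ≤ ∑ _a : β, s ^ m := Finset.sum_le_sum fun a _ => hA j a
      _ = s * s ^ m := by
          rw [Finset.sum_const, Finset.card_univ, smul_eq_mul]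
  have h4 : 8 * (s * ∑ a : β,
      (univ.filter fun w : Fin m → β => e (updB fl w j a) ∈ T j a).card) ≤ s * s ^ m := by
    calc 8 * (s * ∑ a : β, (univ.filter fun w : Fin m → β => e (updB fl w j a) ∈ T j a).card)
        = ∑ a : β, 8 * s *
          (univ.filter fun w : Fin m → β => e (updB fl w j a) ∈ T j a).card := by
          rw [Finset.mul_sum, Finset.mul_sum]
          refine Finset.sum_congr rfl fun a _ => ?_
          ring
      _ ≤ ∑ _a : β, s ^ m := Finset.sum_le_sum fun a _ => hB j a
      _ = s * s ^ m := by
          rw [Finset.sum_const, Finset.card_univ, smul_eq_mul]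
  generalize (univ.filter fun w : Fin m → β => j ∈ badC e T w).card = x at h1 ⊢
  generalize (univ.filter fun w : Fin m → β => e w ∉ T j (w j)).card = y at h1 h3
  generalize (∑ a : β, (univ.filter fun w : Fin m → β =>
    e (updB fl w j a) ∈ T j a).card) = z at h1 h4
  generalize s ^ m = P at h3 h4 ⊢
  have h5 : 8 * (s * y) ≤ P := by
    have : s * (8 * (s * y)) ≤ s * P := by
      calc s * (8 * (s * y)) = 8 * (s * (s * y)) := by ring
        _ ≤ s * P := h3
    exact Nat.le_of_mul_le_mul_left this hspos
  have h6 : 8 * z ≤ P := by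
    have : s * (8 * z) ≤ s * P := by
      calc s * (8 * z) = 8 * (s * z) := by ring
        _ ≤ s * P := h4
    exact Nat.le_of_mul_le_mul_left this hspos
  have h7 : y ≤ s * y := Nat.le_mul_of_pos_left _ hspos
  omega

open Classical in
/-- the sequences with few bad coordinates are few -/
theorem card_few (e : (Fin m → β) → γ) (T : Fin m → β → Set γ) {N : ℕ}
    (hN : (univ.image e).card ≤ N) :
    (univ.filter fun w : Fin m → β => 2 * (badC e T w).card ≤ m).card ≤
      Fintype.card β ^ (m / 2) * (N * 2 ^ m) := by
  set G := univ.filter fun w : Fin m → β => 2 * (badC e T w).card ≤ m with hG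
  rcases G.eq_empty_or_nonempty with h0 | ⟨w0, hw0⟩
  · rw [h0, card_empty]
    exact Nat.zero_le _
  have h1 : (G.image fun w => (e w, badC e T w)).card ≤ N * 2 ^ m := by
    have h2 : (G.image fun w => (e w, badC e T w)) ⊆
        (univ.image e) ×ˢ (univ : Finset (Finset (Fin m))) := by
      intro z hz
      obtain ⟨w, _, rfl⟩ := mem_image.1 hz
      exact mem_product.2 ⟨mem_image_of_mem _ (mem_univ _), mem_univ _⟩
    refine (card_le_card h2).trans ?_
    rw [card_product, card_univ (α := Finset (Fin m)), Fintype.card_finset, Fintype.card_fin]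
    exact Nat.mul_le_mul_right _ hN
  refine (card_le_mul_card_image (f := fun w => (e w, badC e T w)) G
    (Fintype.card β ^ (m / 2)) ?_).trans (Nat.mul_le_mul_left _ h1)
  intro z hz
  obtain ⟨w1, hw1, rfl⟩ := mem_image.1 hz
  rw [hG, mem_filter] at hw1
  obtain ⟨B, hBdef⟩ : ∃ B, B = badC e T w1 := ⟨_, rfl⟩
  have h3 : (G.filter fun w => (e w, badC e T w) = (e w1, badC e T w1)).card ≤
      (univ : Finset (B → β)).card := by
    refine card_le_card_of_injOn (fun w => fun i : B => w i.1) (fun _ _ => mem_univ _) ?_
    intro w hw w' hw' h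
    rw [mem_coe, mem_filter] at hw hw'
    obtain ⟨h4, h5⟩ := Prod.mk.inj hw.2
    obtain ⟨h6, h7⟩ := Prod.mk.inj hw'.2
    funext i
    by_cases hi : i ∈ B
    · exact congrFun h ⟨i, hi⟩
    · have h8 : i ∉ badC e T w := by rw [h5, ← hBdef]; exact hi
      have h9 : i ∉ badC e T w' := by rw [h7, ← hBdef]; exact hi
      rw [mem_badC, not_not] at h8 h9
      by_contra hne
      refine h8.2 (w' i) (Ne.symm hne) ?_
      rw [h4, ← h6]
      exact h9.1
  refine h3.trans ?_
  rw [card_univ, Fintype.card_fun, Fintype.card_coe]
  have hβ : 0 < Fintype.card β ∨ m = 0 := by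
    rcases Nat.eq_zero_or_pos m with h | h
    · exact Or.inr h
    · exact Or.inl (Fintype.card_pos_iff.2 ⟨w0 ⟨0, h⟩⟩)
  rcases hβ with hβ | hm
  · exact Nat.pow_le_pow_right hβ (by have := hw1.2; rw [← hBdef] at this; omega)
  · have h10 : B.card = m / 2 := by have := hw1.2; rw [← hBdef] at this; omega
    rw [h10]

open Classical in
/-- **Decoding lemma.** If the tests detect all choices, then there are many values. -/
theorem decode (e : (Fin m → β) → γ) (T : Fin m → β → Set γ) (fl : β → β) (hm : 1 ≤ m)
    (hA : ∀ j a, 8 * Fintype.card β *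
      (univ.filter fun w : Fin m → β => e (Function.update w j a) ∉ T j a).card ≤
        Fintype.card β ^ m)
    (hB : ∀ j a, 8 * Fintype.card β *
      (univ.filter fun w : Fin m → β => e (updB fl w j a) ∈ T j a).card ≤ Fintype.card β ^ m)
    {N : ℕ} (hN : (univ.image e).card ≤ N) :
    Fintype.card β ^ m ≤ 2 * (Fintype.card β ^ (m / 2) * (N * 2 ^ m)) := by
  set s := Fintype.card β with hs
  have h1 : ∑ w : Fin m → β, (badC e T w).card =
      ∑ j : Fin m, (univ.filter fun w : Fin m → β => j ∈ badC e T w).card := by
    have h2 : ∀ w : Fin m → β, (badC e T w).card = ∑ j : Fin m, if j ∈ badC e T w then 1 else 0 := by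
      intro w
      rw [Finset.sum_boole]
      simp
    simp only [h2, Finset.card_filter]
    exact Finset.sum_comm
  have h3 : 4 * ∑ w : Fin m → β, (badC e T w).card ≤ m * s ^ m := by
    rw [h1, Finset.mul_sum]
    calc ∑ j : Fin m, 4 * (univ.filter fun w : Fin m → β => j ∈ badC e T w).card
        ≤ ∑ _j : Fin m, s ^ m := Finset.sum_le_sum fun j _ => card_bad e T fl hA hB j
      _ = m * s ^ m := by rw [Finset.sum_const, Finset.card_univ, Fintype.card_fin, smul_eq_mul]
  have h4 : (univ.filter fun w : Fin m → β => ¬ 2 * (badC e T w).card ≤ m).card * m ≤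
      2 * ∑ w : Fin m → β, (badC e T w).card := by
    rw [Finset.mul_sum]
    calc (univ.filter fun w : Fin m → β => ¬ 2 * (badC e T w).card ≤ m).card * m
        = ∑ _w ∈ univ.filter fun w : Fin m → β => ¬ 2 * (badC e T w).card ≤ m, m := by
          rw [Finset.sum_const, smul_eq_mul]
      _ ≤ ∑ w ∈ univ.filter fun w : Fin m → β => ¬ 2 * (badC e T w).card ≤ m,
          2 * (badC e T w).card := Finset.sum_le_sum fun w hw => by
            have := (mem_filter.1 hw).2
            omega
      _ ≤ ∑ w : Fin m → β, 2 * (badC e T w).card :=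
          Finset.sum_le_sum_of_subset (filter_subset _ _)
  have h5 : (univ.filter fun w : Fin m → β => 2 * (badC e T w).card ≤ m).card +
      (univ.filter fun w : Fin m → β => ¬ 2 * (badC e T w).card ≤ m).card = s ^ m := by
    rw [Finset.card_filter_add_card_filter_not, card_univ, Fintype.card_fun, Fintype.card_fin]
  have h6 := card_few e T hN
  generalize (univ.filter fun w : Fin m → β => 2 * (badC e T w).card ≤ m).card = g at h5 h6
  generalize (univ.filter fun w : Fin m → β => ¬ 2 * (badC e T w).card ≤ m).card = b at h4 h5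
  have h7 : 2 * b ≤ s ^ m := by
    have h8 : m * (2 * b) ≤ m * s ^ m := by
      calc m * (2 * b) = 2 * (b * m) := by ring
        _ ≤ 2 * (2 * ∑ w : Fin m → β, (badC e T w).card) := Nat.mul_le_mul_left _ h4
        _ = 4 * ∑ w : Fin m → β, (badC e T w).card := by ring
        _ ≤ m * s ^ m := h3
    exact Nat.le_of_mul_le_mul_left h8 hm
  have h9 : s ^ m ≤ 2 * g := by omega
  exact h9.trans (Nat.mul_le_mul_left _ h6)

end ORZ
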