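import Pool.Agent.Work.MP_609cce_lc.PwBlock

/-!
# The search with deletions by candidates
-/

namespace ORZ

open ORDist

/-- the states: flag, nodes, number of the candidate -/
abbrev StZ := Bool × List (List Bool) × ℕ

section

variable (V : List Bool → Bool) (K N : ℕ) (nd : List (List Bool) → ℕ → List Bool)

/-- one step, `del` tells whether the candidate is deleted -/
def ztr (s : StZ) (del : Bool) : StZ :=
  bif decide (K ≤ s.2.1.length) then
    (bif del then (s.1, s.2.1.filter (fun v => !decide (v = nd s.2.1 s.2.2)), 0)
    else (s.1, s.2.1, s.2.2 + 1))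
  else (s.1 || s.2.1.any fun u => V u && decide (u.length ≤ N), expandN N s.2.1, 0)

variable (q : List (List Bool) → ℕ → Bool)

/-- one step with the decisions `q` -/
def zstep (s : StZ) : StZ := ztr V K N nd s (q s.2.1 s.2.2)

/-! ### sizes, for all decisions -/

/-- the size invariant -/
def BInv (t : ℕ) (s : StZ) : Prop :=
  s.2.1.length ≤ 2 * K ∧ (∀ u ∈ s.2.1, u.length ≤ N + 1) ∧ s.2.2 ≤ t

variable {V K N nd q}

theorem binv_zero (hK : 1 ≤ K) : BInv K N 0 (false, [[]], 0) :=
  ⟨by simp only [List.length_singleton]; omega, by simp, le_rfl⟩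

theorem expandN_bounds {U : List (List Bool)} : (expandN N U).length ≤ 2 * U.length ∧
    ∀ u ∈ expandN N U, u.length ≤ N + 1 := by
  constructor
  · unfold expandN
    rw [length_expand]
    exact Nat.mul_le_mul_left _ (List.length_filter_le _ _)
  · intro u hu
    unfold expandN expand at hu
    obtain ⟨v, hv, h1⟩ := List.mem_flatMap.1 hu
    have h2 := (List.mem_filter.1 hv).2
    simp only [decide_eq_true_eq] at h2
    simp only [List.mem_cons, List.not_mem_nil, or_false] at h1
    rcases h1 with rfl | rfl <;> rw [List.length_append, List.length_singleton] <;> omega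

theorem binv_step {t : ℕ} {s : StZ} (hs : BInv K N t s) (del : Bool) :
    BInv K N (t + 1) (ztr V K N nd s del) := by
  obtain ⟨f, U, c⟩ := s
  obtain ⟨h1, h2, h3⟩ := hs
  simp only at h1 h2 h3
  unfold ztr
  simp only
  by_cases hKU : K ≤ U.length
  · rw [decide_eq_true hKU, cond_true]
    cases del
    · rw [cond_false]
      exact ⟨h1, h2, by simp only; omega⟩
    · rw [cond_true]
      exact ⟨(List.length_filter_le _ _).trans h1, fun u hu => h2 u (List.mem_filter.1 hu).1,
        Nat.zero_le _⟩
  · rw [decide_eq_false hKU, cond_false]
    refine ⟨?_, (expandN_bounds (U := U)).2, Nat.zero_le _⟩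
    have := (expandN_bounds (N := N) (U := U)).1
    simp only
    omega

theorem binv_fold (hK : 1 ≤ K) (l : List Bool) :
    BInv K N l.length (l.foldl (ztr V K N nd) (false, [[]], 0)) := by
  induction l using List.reverseRecOn with
  | nil => exact binv_zero hK
  | append_singleton l b ih =>
    rw [List.foldl_append, List.length_append, List.length_singleton]
    exact binv_step ih b

/-! ### the search is correct -/

/-- the decisions are good -/
structure GoodQ (V : List Bool → Bool) (K N C : ℕ) (nd : List (List Bool) → ℕ → List Bool)
    (q : List (List Bool) → ℕ → Bool) : Prop where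
  /-- some candidate is deleted -/
  ex : ∀ U : List (List Bool), U.Nodup → K ≤ U.length → (∀ u ∈ U, u.length ≤ N + 1) →
    ∃ c < C, q U c = true
  /-- deleted nodes are nodes -/
  mem : ∀ (U : List (List Bool)) (c : ℕ), U.Nodup → K ≤ U.length → c < C → q U c = true →
    nd U c ∈ U
  /-- deletions are safe -/
  safe : ∀ (U : List (List Bool)) (c : ℕ), U.Nodup → K ≤ U.length → c < C → q U c = true →
    (∃ u ∈ U, Good V N u) → ∃ u ∈ U.filter (fun v => !decide (v = nd U c)), Good V N u

/-- the invariant -/
def ZInv (K N C : ℕ) (q : List (List Bool) → ℕ → Bool) (t : ℕ) (s : StZ) : Prop :=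
  s.2.1 = [] ∨ ∃ i ≤ N + 1, (∀ u ∈ s.2.1, u.length = i) ∧ s.2.1.Nodup ∧ s.2.1.length ≤ 2 * K ∧
    (K ≤ s.2.1.length → ∀ c' < s.2.2, q s.2.1 c' = false) ∧ (s.2.1.length < K → s.2.2 = 0) ∧
    t + s.2.1.length * (C + 1) ≤ i * (K * (C + 1)) + (C + 1) + s.2.2

theorem zinv_zero (hK : 1 ≤ K) (C : ℕ) (q : List (List Bool) → ℕ → Bool) :
    ZInv K N C q 0 (false, [[]], 0) :=
  Or.inr ⟨0, Nat.zero_le _, by simp, by simp, by simp only [List.length_singleton]; omega,
    fun _ c' hc' => absurd hc' (Nat.not_lt_zero _), fun _ => rfl, by simp⟩

theorem zinv_step {C t : ℕ} (hK : 1 ≤ K) (hq : GoodQ V K N C nd q) {s : StZ}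
    (hs : ZInv K N C q t s) : ZInv K N C q (t + 1) (zstep V K N nd q s) := by
  obtain ⟨f, U, c⟩ := s
  rcases hs with hs | ⟨i, hi, h1, h2, h3, h4, h5, h6⟩
  · simp only at hs
    subst hs
    left
    unfold zstep ztr
    have : ¬ K ≤ ([] : List (List Bool)).length := by rw [List.length_nil]; omega
    simp only
    rw [decide_eq_false this, cond_false]
    rfl
  · simp only at h1 h2 h3 h4 h5 h6
    unfold zstep ztr
    simp only
    by_cases hKU : K ≤ U.length
    · rw [decide_eq_true hKU, cond_true]
      right
      obtain ⟨c', hc', hqc'⟩ := hq.ex U h2 hKU fun u hu => by rw [h1 u hu]; exact hi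
      have hcC : c < C := by
        by_contra hcon
        have := h4 hKU c' (by omega)
        rw [hqc'] at this
        exact absurd this (by simp)
      cases hqc : q U c with
      | false =>
        rw [cond_false]
        refine ⟨i, hi, h1, h2, h3, fun _ c'' hc'' => ?_, fun h => absurd hKU (by simp only at h; omega),
          by simp only; omega⟩
        simp only at hc'' ⊢
        rcases Nat.lt_succ_iff_lt_or_eq.1 hc'' with h | h
        · exact h4 hKU c'' h
        · rw [h]
          exact hqc
      | true =>
        rw [cond_true]
        have hmem := hq.mem U c h2 hKU hcC hqc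
        have hlt : (U.filter fun v => !decide (v = nd U c)).length < U.length := by
          refine lt_of_le_of_ne (List.length_filter_le _ _) fun he => ?_
          have h7 := List.filter_eq_self.1 (List.filter_sublist.eq_of_length he) _ hmem
          simp at h7
        refine ⟨i, hi, fun u hu => h1 u (List.mem_filter.1 hu).1, h2.filter _, ?_,
          fun _ c'' hc'' => absurd hc'' (Nat.not_lt_zero _), fun _ => rfl, ?_⟩
        · simp only
          omega
        · simp only
          have h7 : ((U.filter fun v => !decide (v = nd U c)).length + 1) * (C + 1) ≤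
              U.length * (C + 1) := Nat.mul_le_mul_right _ hlt
          rw [Nat.add_mul, Nat.one_mul] at h7
          omega
    · rw [decide_eq_false hKU, cond_false]
      have hc0 : c = 0 := h5 (by omega)
      by_cases hiN : i ≤ N
      · right
        have e : expandN N U = expand U := by
          unfold expandN
          rw [List.filter_eq_self.2 fun u hu => by rw [h1 u hu]; simpa using hiN]
        refine ⟨i + 1, by omega, ?_, ?_, ?_, fun _ c'' hc'' => absurd hc'' (Nat.not_lt_zero _),
          fun _ => rfl, ?_⟩
        · simp only
          rw [e]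
          exact mem_expand_length h1
        · simp only
          rw [e]
          exact nodup_expand h2
        · simp only
          rw [e, length_expand]
          omega
        · simp only
          rw [e, length_expand]
          have h7 : (U.length + 1) * (C + 1) ≤ K * (C + 1) := Nat.mul_le_mul_right _ (by omega)
          have h8 : (i + 1) * (K * (C + 1)) = i * (K * (C + 1)) + K * (C + 1) := by ring
          have h9 : 2 * U.length * (C + 1) = U.length * (C + 1) + U.length * (C + 1) := by ring
          rw [Nat.add_mul, Nat.one_mul] at h7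
          omega
      · left
        simp only
        unfold expandN
        rw [List.filter_eq_nil_iff.2 fun u hu => by rw [h1 u hu]; simpa using hiN]
        rfl

theorem zinv_iter {C : ℕ} (hK : 1 ≤ K) (hq : GoodQ V K N C nd q) (t : ℕ) :
    ZInv K N C q t ((zstep V K N nd q)^[t] (false, [[]], 0)) := by
  induction t with
  | zero => exact zinv_zero hK C q
  | succ t ih =>
    rw [Function.iterate_succ_apply']
    exact zinv_step hK hq ih

/-- the flag is never wrong -/
theorem zflag_sound (t : ℕ) (h : ((zstep V K N nd q)^[t] (false, [[]], 0)).1 = true) :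
    ∃ y : List Bool, y.length ≤ N ∧ V y = true := by
  induction t with
  | zero => exact absurd h (by simp)
  | succ t ih =>
    rw [Function.iterate_succ_apply'] at h
    generalize (zstep V K N nd q)^[t] (false, [[]], 0) = s at h ih
    obtain ⟨f, U, c⟩ := s
    unfold zstep ztr at h
    simp only at h
    by_cases hKU : K ≤ U.length
    · rw [decide_eq_true hKU, cond_true] at h
      cases hqc : q U c
      · rw [hqc, cond_false] at h
        exact ih h
      · rw [hqc, cond_true] at h
        exact ih h
    · rw [decide_eq_false hKU, cond_false] at h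
      simp only [Bool.or_eq_true] at h
      rcases h with h | h
      · exact ih h
      · rw [List.any_eq_true] at h
        obtain ⟨u, _, hu⟩ := h
        simp only [Bool.and_eq_true, decide_eq_true_eq] at hu
        exact ⟨u, hu.2, hu.1⟩

theorem zgood_step {C : ℕ} (hq : GoodQ V K N C nd q) {t : ℕ} {s : StZ}
    (hinv : ZInv K N C q t s) (hs : s.1 = true ∨ ∃ u ∈ s.2.1, Good V N u) :
    (zstep V K N nd q s).1 = true ∨ ∃ u ∈ (zstep V K N nd q s).2.1, Good V N u := by
  obtain ⟨f, U, c⟩ := s
  unfold zstep ztr
  simp only
  by_cases hKU : K ≤ U.length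
  · rw [decide_eq_true hKU, cond_true]
    cases hqc : q U c with
    | false =>
      rw [cond_false]
      exact hs
    | true =>
      rw [cond_true]
      rcases hs with hs | hs
      · exact Or.inl hs
      · simp only at hs
        rcases hinv with hinv | ⟨i, hi, h1, h2, h3, h4, h5, h6⟩
        · simp only at hinv
          subst hinv
          obtain ⟨u, hu, _⟩ := hs
          exact absurd hu List.not_mem_nil
        · simp only at h1 h2 h4
          obtain ⟨c', hc', hqc'⟩ := hq.ex U h2 hKU fun u hu => by rw [h1 u hu]; exact hi
          have hcC : c < C := by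
            by_contra hcon
            have := h4 hKU c' (by omega)
            rw [hqc'] at this
            exact absurd this (by simp)
          exact Or.inr (hq.safe U c h2 hKU hcC hqc hs)
  · rw [decide_eq_false hKU, cond_false]
    rcases hs with hs | ⟨u, hu, hg⟩
    · left
      simp only at hs ⊢
      rw [hs, Bool.true_or]
    · obtain ⟨y, hy, hyp, hVy⟩ := hg
      have hlen : u.length ≤ N := hy.length_le.trans hyp
      simp only at hu
      cases hVu : V u with
      | true =>
        left
        simp only [Bool.or_eq_true]
        right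
        rw [List.any_eq_true]
        exact ⟨u, hu, by simp [hVu, hlen]⟩
      | false =>
        right
        obtain ⟨z, rfl⟩ := hy
        cases z with
        | nil =>
          exfalso
          rw [List.append_nil, hVu] at hVy
          exact absurd hVy (by decide)
        | cons b z =>
          refine ⟨u ++ [b], ?_, u ++ b :: z, ⟨z, by simp⟩, hyp, hVy⟩
          simp only
          unfold expandN expand
          refine List.mem_flatMap.2 ⟨u, List.mem_filter.2 ⟨hu, by simpa using hlen⟩, ?_⟩
          cases b <;> simp

/-- **the search is correct** -/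
theorem zsearch_correct {C : ℕ} (hK : 1 ≤ K) (hq : GoodQ V K N C nd q) :
    ((zstep V K N nd q)^[(N + 1) * (K * (C + 1)) + (C + 1) * 2 + 1] (false, [[]], 0)).1 = true ↔
      ∃ y : List Bool, y.length ≤ N ∧ V y = true := by
  refine ⟨zflag_sound _, ?_⟩
  rintro ⟨y, hy, hV⟩
  have h1 : ∀ t, ((zstep V K N nd q)^[t] (false, [[]], 0)).1 = true ∨
      ∃ u ∈ ((zstep V K N nd q)^[t] (false, [[]], 0)).2.1, Good V N u := by
    intro t
    induction t with
    | zero =>
      right
      exact ⟨[], by simp, y, List.nil_prefix, hy, hV⟩
    | succ t ih =>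
      rw [Function.iterate_succ_apply']
      exact zgood_step hq (zinv_iter hK hq t) ih
  rcases h1 ((N + 1) * (K * (C + 1)) + (C + 1) * 2 + 1) with h | ⟨u, hu, _⟩
  · exact h
  · exfalso
    rcases zinv_iter (nd := nd) hK hq ((N + 1) * (K * (C + 1)) + (C + 1) * 2 + 1) with
      h2 | ⟨i, hi, h3, h4, h5, h6, h7, h8⟩
    · rw [h2] at hu
      simp at hu
    · have h9 : i * (K * (C + 1)) ≤ (N + 1) * (K * (C + 1)) := Nat.mul_le_mul_right _ hi
      generalize (zstep V K N nd q)^[(N + 1) * (K * (C + 1)) + (C + 1) * 2 + 1]
        (false, [[]], 0) = s at hu h3 h4 h5 h6 h7 h8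
      obtain ⟨f, U, c⟩ := s
      simp only at hu h3 h4 h5 h6 h7 h8
      have hcC : c ≤ C := by
        by_cases hKU : K ≤ U.length
        · obtain ⟨c', hc', hqc'⟩ := hq.ex U h4 hKU fun u hu => by rw [h3 u hu]; exact hi
          by_contra hcon
          have := h6 hKU c' (by omega)
          rw [hqc'] at this
          exact absurd this (by simp)
        · rw [h7 (by omega)]
          exact Nat.zero_le _
      omega

end

end ORZ
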