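import Pool.Agent.Work.MP_609cce_lc_szk.ZMap
import Pool.Agent.Work.MP_609cce_lc_szk.ZSearch
import Pool.Agent.Work.MP_609cce_lc.OrcPT
import Pool.Agent.Work.MP_609cce_lc.PwSearch

/-!
# Polynomial time: the samplers and the search
-/

namespace ORZ

open ORDist PTime

section

variable {α γ : Type} [Code α] [Code γ]

theorem pt_rep {n : α → ℕ} (hn : PT n) : PT (fun a => List.replicate (n a) true) := by
  refine (PT.map (g := fun _ : α × Unit => true) hn.replicate (PT.const true)).congr fun a => ?_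
  rw [List.map_replicate]

theorem pt_xor {f g : α → Bool} (hf : PT f) (hg : PT g) : PT (fun a => xor (f a) (g a)) := by
  refine (PT.cond hf hg.not hg).congr fun a => ?_
  cases f a <;> simp

theorem pt_cblk {n : α → ℕ} {u : α → List Bool} {i : α → ℕ} (hn : PT n) (hu : PT u) (hi : PT i) :
    PT (fun a => cblk (n a) (u a) (i a)) := (hu.drop (hi.mul hn)).take hn

theorem pt_par {n c : α → ℕ} {u : α → List Bool} (hn : PT n) (hc : PT c) (hu : PT u) :
    PT (fun a => par (n a) (c a) (u a)) := by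
  have hg : PT (fun x : α × Bool × ℕ =>
      xor x.2.1 ((cblk (n x.1) (u x.1) x.2.2).headD false)) :=
    pt_xor PT.snd.fst' ((pt_cblk (hn.comp PT.fst) (hu.comp PT.fst) PT.snd.snd').headD
      (PT.const false))
  exact PT.foldl (l := fun a => List.range (c a)) (s := fun _ => false)
    (g := fun x : α × Bool × ℕ => xor x.2.1 ((cblk (n x.1) (u x.1) x.2.2).headD false))
    hc.range (PT.const false) hg 3 fun a l' _ => by
      rw [Polynomial.eval_ofNat]
      exact sz_bool _

theorem pt_chB {r j : α → ℕ} {a : α → List Bool} {b : α → Bool} {w : α → List Bool} {i : α → ℕ}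
    (hr : PT r) (hj : PT j) (ha : PT a) (hb : PT b) (hw : PT w) (hi : PT i) :
    PT (fun x => chB (r x) (j x) (a x) (b x) (w x) (i x)) := by
  have hc := pt_cblk hr hw hi
  have hij : PT (fun x => decide (i x = j x)) := PT.natEq hi hj
  have hmap : PT (fun x => (a x).map fun c => !c) :=
    PT.map (g := fun y : α × Bool => !y.2) ha PT.snd.not
  exact PT.cond hb (PT.cond (hij.and (PT.eq hc ha)) hmap hc) (PT.cond hij ha hc)

theorem pt_oneZ {E : List Bool × List (List Bool) → γ} (hE : PT E) :
    PT (fun x : KeyZ × List Bool => oneZ E x.1 x.2) := by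
  have hk : PT (fun x : KeyZ × List Bool => x.1) := PT.fst
  have hU : PT (fun x : KeyZ × List Bool => x.1.2.1) := hk.snd'.fst'
  have hm : PT (fun x : KeyZ × List Bool => x.1.2.2.1.1.length) := hk.snd'.snd'.fst'.fst'.length
  have hr : PT (fun x : KeyZ × List Bool => x.1.2.2.1.2.length) := hk.snd'.snd'.fst'.snd'.length
  have hj : PT (fun x : KeyZ × List Bool => x.1.2.2.2.1.length) :=
    hk.snd'.snd'.snd'.fst'.length
  have ha : PT (fun x : KeyZ × List Bool => x.1.2.2.2.2) := hk.snd'.snd'.snd'.snd'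
  have hu : PT (fun x : KeyZ × List Bool => x.2) := PT.snd
  have hd : PT (fun x : KeyZ × List Bool => x.1.2.1.length / x.1.2.2.1.1.length) :=
    PT.div hU.length hm
  have hsel : PT (fun x : KeyZ × List Bool => selG x.1.2.1 x.1.2.2.1.1.length
      (chB x.1.2.2.1.2.length x.1.2.2.2.1.length x.1.2.2.2.2 (x.2.headD false) x.2.tail)) := by
    have hi : PT (fun y : (KeyZ × List Bool) × ℕ => y.2) := PT.snd
    have hblk : PT (fun y : (KeyZ × List Bool) × ℕ =>
        blk y.1.1.2.1 y.1.1.2.2.1.1.length y.2) :=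
      ((hU.comp PT.fst).drop (hi.mul (hd.comp PT.fst))).take (hd.comp PT.fst)
    exact PT.map (g := fun y : (KeyZ × List Bool) × ℕ =>
      pick (blk y.1.1.2.1 y.1.1.2.2.1.1.length y.2)
        (chB y.1.1.2.2.1.2.length y.1.1.2.2.2.1.length y.1.1.2.2.2.2 (y.1.2.headD false)
          y.1.2.tail y.2)) hm.range
      (pt_pick hblk (pt_chB (hr.comp PT.fst) (hj.comp PT.fst) (ha.comp PT.fst)
        ((hu.comp PT.fst).headD (PT.const false)) (hu.comp PT.fst).tail hi))
  exact PT.comp (f := fun x : KeyZ × List Bool => (x.1.1, selG x.1.2.1 x.1.2.2.1.1.length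
      (chB x.1.2.2.1.2.length x.1.2.2.2.1.length x.1.2.2.2.2 (x.2.headD false) x.2.tail)))
    hE (hk.fst'.pair hsel)

theorem pt_mapZ {E : List Bool × List (List Bool) → γ} (hE : PT E) : PT (mapZ E) := by
  have hk : PT (fun z : List Bool × List Bool => keyZ z.1) :=
    (Dec.pt (γ := KeyZ)).comp (PT.parseT PT.fst)
  have hu : PT (fun z : List Bool × List Bool => z.2) := PT.snd
  have hn : PT (fun z : List Bool × List Bool => nZ (keyZ z.1)) :=
    (hk.snd'.snd'.fst'.fst'.length.mul hk.snd'.snd'.fst'.snd'.length).succ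
  have hc : PT (fun z : List Bool × List Bool => cZ (keyZ z.1) z.1.length) :=
    ((PT.const 8).mul hk.snd'.fst'.length).mul PT.fst.length
  have hpar := pt_par hn hc hu.tail
  have hone : PT (fun y : (List Bool × List Bool) × ℕ =>
      oneZ E (keyZ y.1.1) (cblk (nZ (keyZ y.1.1)) y.1.2.tail y.2)) :=
    PT.comp (f := fun y : (List Bool × List Bool) × ℕ =>
      (keyZ y.1.1, cblk (nZ (keyZ y.1.1)) y.1.2.tail y.2)) (pt_oneZ hE)
      ((hk.comp PT.fst).pair (pt_cblk (hn.comp PT.fst) (hu.tail.comp PT.fst) PT.snd))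
  have houts : PT (fun z : List Bool × List Bool =>
      outs (oneZ E (keyZ z.1)) (nZ (keyZ z.1)) (cZ (keyZ z.1) z.1.length) z.2.tail) :=
    PT.map (g := fun y : (List Bool × List Bool) × ℕ =>
      oneZ E (keyZ y.1.1) (cblk (nZ (keyZ y.1.1)) y.1.2.tail y.2)) hc.range hone
  exact (pt_xor (hu.headD (PT.const false)) hpar).cons houts.quote

theorem polyTime_mapZ {E : List Bool × List (List Bool) → γ} (hE : PT E) :
    PolyTime pairStr (fun y => y) (mapZ E) := by
  refine PT.polyTime_raw (f := fun l => mapZ E (PTime.unpairS l))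
    ((pt_mapZ hE).comp (PT.unpairS PT.id)) fun z => ?_
  rw [unpairS_pairStr]

end

end ORZ
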