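import Mathlib

/-!
# Means over bit strings; the exclusive or of pairs of distributions
-/

namespace ORZ

open Finset

/-- the mean of `f` over the bit strings of length `n` -/
noncomputable def EX (n : ℕ) (f : List Bool → ℝ) : ℝ :=
  (∑ u : Fin n → Bool, f (List.ofFn u)) / 2 ^ n

theorem EX_zero (f : List Bool → ℝ) : EX 0 f = f [] := by
  simp [EX]

theorem sum_succ (n : ℕ) (f : List Bool → ℝ) :
    ∑ u : Fin (n + 1) → Bool, f (List.ofFn u) =
      (∑ u : Fin n → Bool, f (false :: List.ofFn u)) +
        ∑ u : Fin n → Bool, f (true :: List.ofFn u) := by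
  rw [← (Fin.consEquiv fun _ : Fin (n + 1) => Bool).sum_comp, Fintype.sum_prod_type]
  rw [Fintype.sum_bool, add_comm]
  congr 1 <;> refine Finset.sum_congr rfl fun u _ => ?_ <;>
    simp [Fin.consEquiv, List.ofFn_succ]

theorem EX_succ (n : ℕ) (f : List Bool → ℝ) :
    EX (n + 1) f = (EX n (fun u => f (false :: u)) + EX n (fun u => f (true :: u))) / 2 := by
  unfold EX
  rw [sum_succ, pow_succ]
  field_simp

theorem EX_congr {n : ℕ} {f g : List Bool → ℝ} (h : ∀ u : List Bool, u.length = n → f u = g u) :
    EX n f = EX n g := by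
  unfold EX
  congr 1
  exact Finset.sum_congr rfl fun u _ => h _ (List.length_ofFn)

theorem EX_append (a b : ℕ) (f : List Bool → ℝ) :
    EX (a + b) f = EX a (fun u => EX b (fun v => f (u ++ v))) := by
  induction a generalizing f with
  | zero => rw [EX_zero, Nat.zero_add]; rfl
  | succ a ih =>
    rw [show a + 1 + b = (a + b) + 1 by omega, EX_succ, EX_succ, ih, ih]
    rfl

theorem EX_const (n : ℕ) (c : ℝ) : EX n (fun _ => c) = c := by
  unfold EX
  rw [Finset.sum_const, Finset.card_univ, Fintype.card_fun, Fintype.card_bool, Fintype.card_fin,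
    nsmul_eq_mul]
  push_cast
  field_simp

theorem EX_mul_left (n : ℕ) (c : ℝ) (f : List Bool → ℝ) :
    EX n (fun u => c * f u) = c * EX n f := by
  unfold EX
  rw [← Finset.mul_sum, mul_div_assoc]

theorem EX_sub (n : ℕ) (f g : List Bool → ℝ) :
    EX n (fun u => f u - g u) = EX n f - EX n g := by
  unfold EX
  rw [Finset.sum_sub_distrib, sub_div]

theorem EX_mono {n : ℕ} {f g : List Bool → ℝ} (h : ∀ u : List Bool, u.length = n → f u ≤ g u) :
    EX n f ≤ EX n g := by
  unfold EX
  refine div_le_div_of_nonneg_right ?_ (by positivity)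
  exact Finset.sum_le_sum fun u _ => h _ (List.length_ofFn)

theorem abs_EX_le {n : ℕ} {f : List Bool → ℝ} {B : ℝ}
    (h : ∀ u : List Bool, u.length = n → |f u| ≤ B) : |EX n f| ≤ B := by
  rw [abs_le]
  constructor
  · rw [← EX_const n (-B)]
    exact EX_mono fun u hu => (abs_le.1 (h u hu)).1
  · rw [← EX_const n B]
    exact EX_mono fun u hu => (abs_le.1 (h u hu)).2

open Classical in
/-- the probability that the value is in `T` -/
noncomputable def PR {γ : Type} (n : ℕ) (g : List Bool → γ) (T : Set γ) : ℝ :=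
  EX n (fun u => if g u ∈ T then 1 else 0)

open Classical in
/-- the distance bound for events gives a bound for bounded test functions -/
theorem dual {γ : Type} {n : ℕ} {g0 g1 : List Bool → γ} {τ : ℝ}
    (h : ∀ T : Set γ, PR n g0 T - PR n g1 T ≤ τ) {ψ : γ → ℝ} {B : ℝ}
    (hψ : ∀ y, |ψ y| ≤ B) : EX n (fun u => ψ (g0 u)) - EX n (fun u => ψ (g1 u)) ≤ 2 * B * τ := by
  -- the finite set of values
  let I : Finset γ := (univ.image fun u : Fin n → Bool => g0 (List.ofFn u)) ∪
    univ.image fun u : Fin n → Bool => g1 (List.ofFn u)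
  have hI0 : ∀ u : List Bool, u.length = n → g0 u ∈ I := by
    intro u hu
    subst hu
    exact mem_union_left _ (mem_image.2 ⟨u.get, mem_univ _, by rw [List.ofFn_get]⟩)
  have hI1 : ∀ u : List Bool, u.length = n → g1 u ∈ I := by
    intro u hu
    subst hu
    exact mem_union_right _ (mem_image.2 ⟨u.get, mem_univ _, by rw [List.ofFn_get]⟩)
  have hsum : ∀ (g : List Bool → γ) (_ : ∀ u : List Bool, u.length = n → g u ∈ I) (φ : γ → ℝ),
      EX n (fun u => φ (g u)) = ∑ y ∈ I, φ y * EX n (fun u => if g u = y then 1 else 0) := by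
    intro g hg φ
    have h1 : ∀ y, φ y * EX n (fun u => if g u = y then 1 else 0) =
        EX n (fun u => φ y * if g u = y then 1 else 0) := fun y => (EX_mul_left _ _ _).symm
    simp only [h1]
    unfold EX
    rw [← Finset.sum_div, Finset.sum_comm]
    congr 1
    refine Finset.sum_congr rfl fun u _ => ?_
    have h2 := hg (List.ofFn u) List.length_ofFn
    rw [Finset.sum_eq_single (g (List.ofFn u))]
    · simp
    · intro y _ hy
      show φ y * (if g (List.ofFn u) = y then 1 else 0) = 0
      rw [if_neg (Ne.symm hy), mul_zero]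
    · intro h3
      exact absurd h2 h3
  let p0 : γ → ℝ := fun y => EX n (fun u => if g0 u = y then 1 else 0)
  let p1 : γ → ℝ := fun y => EX n (fun u => if g1 u = y then 1 else 0)
  let T : Set γ := {y | p1 y < p0 y}
  have hT : ∀ (g : List Bool → γ) (_ : ∀ u : List Bool, u.length = n → g u ∈ I),
      PR n g T = ∑ y ∈ I.filter (fun y => y ∈ T), EX n (fun u => if g u = y then 1 else 0) := by
    intro g hg
    have h1 := hsum g hg (fun y => if y ∈ T then 1 else 0)
    unfold PR
    rw [h1, Finset.sum_filter]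
    refine Finset.sum_congr rfl fun y _ => ?_
    split_ifs
    · rw [one_mul]
    · rw [zero_mul]
  have h1 := h T
  rw [hT g0 hI0, hT g1 hI1, ← Finset.sum_sub_distrib] at h1
  have h2 : ∑ y ∈ I, (p0 y - p1 y) = 0 := by
    have h3 := hsum g0 hI0 (fun _ => 1)
    have h4 := hsum g1 hI1 (fun _ => 1)
    simp only [one_mul, EX_const] at h3 h4
    rw [Finset.sum_sub_distrib, ← h3, ← h4, sub_self]
  have h3 : ∑ y ∈ I.filter (fun y => y ∈ T), (p0 y - p1 y) +
      ∑ y ∈ I.filter (fun y => ¬ y ∈ T), (p0 y - p1 y) = 0 := by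
    rw [Finset.sum_filter_add_sum_filter_not, h2]
  have hB : 0 ≤ B ∨ I = ∅ := by
    rcases I.eq_empty_or_nonempty with h4 | ⟨y, _⟩
    · exact Or.inr h4
    · exact Or.inl ((abs_nonneg _).trans (hψ y))
  rcases hB with hB | hB
  · rw [hsum g0 hI0 ψ, hsum g1 hI1 ψ, ← Finset.sum_sub_distrib]
    have h4 : ∑ y ∈ I, (ψ y * p0 y - ψ y * p1 y) ≤
        ∑ y ∈ I.filter (fun y => y ∈ T), B * (p0 y - p1 y) +
        ∑ y ∈ I.filter (fun y => ¬ y ∈ T), -B * (p0 y - p1 y) := by
      rw [← Finset.sum_filter_add_sum_filter_not I (fun y => y ∈ T)]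
      refine add_le_add (Finset.sum_le_sum fun y hy => ?_) (Finset.sum_le_sum fun y hy => ?_)
      · have h5 : p1 y < p0 y := (Finset.mem_filter.1 hy).2
        have h6 := (abs_le.1 (hψ y)).2
        nlinarith
      · have h5 : ¬ p1 y < p0 y := (Finset.mem_filter.1 hy).2
        have h6 := (abs_le.1 (hψ y)).1
        rw [not_lt] at h5
        nlinarith
    refine h4.trans ?_
    rw [← Finset.mul_sum, ← Finset.mul_sum]
    have h5 : ∑ y ∈ I.filter (fun y => ¬ y ∈ T), (p0 y - p1 y) =
        - ∑ y ∈ I.filter (fun y => y ∈ T), (p0 y - p1 y) := by linarith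
    rw [h5]
    have h6 := mul_le_mul_of_nonneg_left h1 hB
    show B * _ + -B * - _ ≤ _
    nlinarith
  · exfalso
    have h4 := hI0 (List.replicate n false) (List.length_replicate)
    rw [hB] at h4
    exact absurd h4 (Finset.notMem_empty _)

/-- the sign of a bit -/
def sgn (b : Bool) : ℝ := if b then -1 else 1

theorem sgn_xor (a b : Bool) : sgn (xor a b) = sgn a * sgn b := by
  cases a <;> cases b <;> simp [sgn]

theorem abs_sgn (b : Bool) : |sgn b| = 1 := by
  cases b <;> simp [sgn]

/-- one copy -/
theorem one_copy {γ : Type} {n : ℕ} {G : List Bool → γ} {τ : ℝ}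
    (h : ∀ T : Set γ, |PR n (fun u => G (false :: u)) T - PR n (fun u => G (true :: u)) T| ≤ τ)
    {ψ : γ → ℝ} {B : ℝ} (hψ : ∀ y, |ψ y| ≤ B) :
    |EX (n + 1) (fun u => sgn (u.headD false) * ψ (G u))| ≤ τ * B := by
  have e : EX (n + 1) (fun u => sgn (u.headD false) * ψ (G u)) =
      (EX n (fun u => ψ (G (false :: u))) - EX n (fun u => ψ (G (true :: u)))) / 2 := by
    rw [EX_succ]
    have h1 : EX n (fun u => sgn ((false :: u).headD false) * ψ (G (false :: u))) =
        EX n (fun u => ψ (G (false :: u))) := EX_congr fun u _ => by simp [sgn]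
    have h2 : EX n (fun u => sgn ((true :: u).headD false) * ψ (G (true :: u))) =
        -1 * EX n (fun u => ψ (G (true :: u))) := by
      rw [← EX_mul_left]
      exact EX_congr fun u _ => by simp [sgn]
    rw [h1, h2]
    ring
  rw [e, abs_le]
  have h1 := dual (g0 := fun u => G (false :: u)) (g1 := fun u => G (true :: u))
    (fun T => (abs_le.1 (h T)).2) hψ
  have h2 := dual (g0 := fun u => G (true :: u)) (g1 := fun u => G (false :: u))
    (fun T => by have := (abs_le.1 (h T)).1; linarith) hψ
  constructor <;> linarith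

/-! ### several copies -/

/-- the block of coins number `i` -/
def cblk (n : ℕ) (u : List Bool) (i : ℕ) : List Bool := (u.drop (i * n)).take n

/-- the outputs of the copies -/
def outs {γ : Type} (G : List Bool → γ) (n k : ℕ) (u : List Bool) : List γ :=
  (List.range k).map fun i => G (cblk n u i)

/-- the exclusive or of the first coins of the copies -/
def par (n k : ℕ) (u : List Bool) : Bool :=
  (List.range k).foldl (fun b i => xor b ((cblk n u i).headD false)) false

theorem cblk_zero {n : ℕ} {v u : List Bool} (hv : v.length = n) : cblk n (v ++ u) 0 = v := by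
  unfold cblk
  rw [Nat.zero_mul, List.drop_zero, ← hv, List.take_left]

theorem cblk_succ {n : ℕ} {v u : List Bool} (hv : v.length = n) (i : ℕ) :
    cblk n (v ++ u) (i + 1) = cblk n u i := by
  unfold cblk
  rw [Nat.add_mul, Nat.one_mul, Nat.add_comm, ← List.drop_drop]
  congr 2
  rw [← hv, List.drop_left]

theorem outs_succ {γ : Type} (G : List Bool → γ) {n k : ℕ} {v u : List Bool}
    (hv : v.length = n) : outs G n (k + 1) (v ++ u) = G v :: outs G n k u := by
  unfold outs
  rw [List.range_succ_eq_map, List.map_cons, List.map_map, cblk_zero hv]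
  congr 1
  refine List.map_congr_left fun i _ => ?_
  show G (cblk n (v ++ u) (i + 1)) = _
  rw [cblk_succ hv]

theorem foldl_xor (f : ℕ → Bool) : ∀ (l : List ℕ) (b : Bool),
    l.foldl (fun b i => xor b (f i)) b = xor b (l.foldl (fun b i => xor b (f i)) false)
  | [], b => by simp
  | i :: l, b => by
    rw [List.foldl_cons, List.foldl_cons, foldl_xor f l, foldl_xor f l (xor false (f i))]
    cases b <;> cases f i <;> simp

theorem par_succ {n k : ℕ} {v u : List Bool} (hv : v.length = n) :
    par n (k + 1) (v ++ u) = xor (v.headD false) (par n k u) := by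
  unfold par
  rw [List.range_succ_eq_map, List.foldl_cons, cblk_zero hv, Bool.false_xor, foldl_xor]
  congr 1
  rw [List.foldl_map]
  have h : ∀ (l : List ℕ) (b : Bool),
      l.foldl (fun b i => xor b ((cblk n (v ++ u) (i + 1)).headD false)) b =
      l.foldl (fun b i => xor b ((cblk n u i).headD false)) b := by
    intro l
    induction l with
    | nil => intro b; rfl
    | cons i l ih =>
      intro b
      rw [List.foldl_cons, List.foldl_cons, cblk_succ hv, ih]
  exact h _ _

/-- **the exclusive or of the copies** -/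
theorem xor_copies {γ : Type} {n : ℕ} {G : List Bool → γ} {τ : ℝ}
    (h : ∀ (ψ : γ → ℝ) (B : ℝ), (∀ y, |ψ y| ≤ B) →
      |EX n (fun u => sgn (u.headD false) * ψ (G u))| ≤ τ * B) :
    ∀ (k : ℕ) (φ : List γ → ℝ) (B : ℝ), (∀ y, |φ y| ≤ B) →
      |EX (k * n) (fun u => sgn (par n k u) * φ (outs G n k u))| ≤ τ ^ k * B := by
  intro k
  induction k with
  | zero =>
    intro φ B hφ
    rw [Nat.zero_mul, pow_zero, one_mul]
    refine abs_EX_le fun u _ => ?_
    rw [abs_mul, abs_sgn, one_mul]
    exact hφ _
  | succ k ih =>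
    intro φ B hφ
    have e : EX ((k + 1) * n) (fun u => sgn (par n (k + 1) u) * φ (outs G n (k + 1) u)) =
        EX n (fun v => sgn (v.headD false) *
          EX (k * n) (fun u => sgn (par n k u) * φ (G v :: outs G n k u))) := by
      rw [Nat.add_mul, Nat.one_mul, Nat.add_comm, EX_append]
      refine EX_congr fun v hv => ?_
      rw [← EX_mul_left]
      refine EX_congr fun u _ => ?_
      rw [outs_succ G hv, par_succ hv, sgn_xor, mul_assoc]
    rw [e, pow_succ, mul_comm (τ ^ k) τ, mul_assoc]
    exact h (fun y => EX (k * n) (fun u => sgn (par n k u) * φ (y :: outs G n k u))) _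
      fun y => ih (fun l => φ (y :: l)) B fun l => hφ _

end ORZ
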