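import Pool.Agent.Work.MP_609cce_lc.PwMap
import Pool.Agent.Work.MP_609cce_lc_szk.ZCount
import Pool.Agent.Work.MP_609cce_lc_szk.ZProb

/-!
# One copy of the samplers: a node of a block against the other nodes of the block
-/

namespace ORZ

open ORDist PTime Finset

/-- one member of each block, the member of the block number `i` being chosen by the bits `g i` -/
def selG (U : List (List Bool)) (m : ℕ) (g : ℕ → List Bool) : List (List Bool) :=
  (List.range m).map fun i => pick (blk U m i) (g i)

/-- the choice bits: for `b = false` the bits of the block `j` are replaced by `a`, for `b = true`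
they are changed if they are `a` -/
def chB (r j : ℕ) (a : List Bool) (b : Bool) (w : List Bool) (i : ℕ) : List Bool :=
  bif b then (bif decide (i = j) && decide (cblk r w i = a) then a.map (fun c => !c)
    else cblk r w i)
  else (bif decide (i = j) then a else cblk r w i)

theorem selG_congr {U : List (List Bool)} {m : ℕ} {g g' : ℕ → List Bool}
    (h : ∀ i < m, g i = g' i) : selG U m g = selG U m g' :=
  List.map_congr_left fun i hi => by rw [h i (List.mem_range.1 hi)]

theorem length_selG (U : List (List Bool)) (m : ℕ) (g : ℕ → List Bool) :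
    (selG U m g).length = m := by simp [selG]

theorem pow_le_blk {U : List (List Bool)} {m r i : ℕ} (hm : m * 2 ^ r ≤ U.length) (hi : i < m) :
    2 ^ r ≤ (blk U m i).length := by
  rw [length_blk hi]
  exact (Nat.le_div_iff_mul_le (by omega)).2 (by rwa [mul_comm])

theorem pick_mem {U : List (List Bool)} {m r i : ℕ} {w : List Bool} (hm : m * 2 ^ r ≤ U.length)
    (hi : i < m) (hw : w.length = r) : pick (blk U m i) w ∈ U :=
  (blk_sub U m i).subset ((halves_sub _ _).subset
    (pick_mem_halves (by rw [hw]; exact pow_le_blk hm hi)))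

theorem selG_subset {U : List (List Bool)} {m r : ℕ} {g : ℕ → List Bool}
    (hm : m * 2 ^ r ≤ U.length) (hg : ∀ i < m, (g i).length = r) : selG U m g ⊆ U := by
  intro v hv
  obtain ⟨i, hi, rfl⟩ := List.mem_map.1 hv
  rw [List.mem_range] at hi
  exact pick_mem hm hi (hg i hi)

theorem length_cblk {r m i : ℕ} {w : List Bool} (hw : m * r ≤ w.length) (hi : i < m) :
    (cblk r w i).length = r := length_bits hw hi

theorem length_chB {r j m : ℕ} {a w : List Bool} {b : Bool} (ha : a.length = r)
    (hw : m * r ≤ w.length) {i : ℕ} (hi : i < m) : (chB r j a b w i).length = r := by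
  have h := length_cblk hw hi
  unfold chB
  cases b
  · rw [cond_false]
    cases decide (i = j)
    · exact h
    · exact ha
  · rw [cond_true]
    cases (decide (i = j) && decide (cblk r w i = a))
    · exact h
    · rw [cond_true, List.length_map, ha]

theorem chB_ne {r j : ℕ} {a w : List Bool} (ha : a.length = r) (hr : 1 ≤ r) :
    chB r j a true w j ≠ a := by
  unfold chB
  rw [cond_true, decide_eq_true rfl, Bool.true_and]
  by_cases h : cblk r w j = a
  · rw [decide_eq_true h, cond_true]
    intro h1
    cases a with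
    | nil => rw [List.length_nil] at ha; omega
    | cons c a =>
      rw [List.map_cons] at h1
      have h2 := (List.cons.inj h1).1
      cases c <;> simp at h2
  · rw [decide_eq_false h, cond_false]
    exact h

/-- the node is selected for `b = false` -/
theorem mem_sel_false {U : List (List Bool)} {m r j : ℕ} {a w : List Bool} (hj : j < m) :
    pick (blk U m j) a ∈ selG U m (chB r j a false w) := by
  refine List.mem_map.2 ⟨j, List.mem_range.2 hj, ?_⟩
  unfold chB
  rw [cond_false, decide_eq_true rfl, cond_true]

/-- the node is not selected for `b = true` -/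
theorem notMem_sel_true {U : List (List Bool)} (hU : U.Nodup) {m r j : ℕ} {a w : List Bool}
    (hm : m * 2 ^ r ≤ U.length) (hr : 1 ≤ r) (ha : a.length = r) (hw : m * r ≤ w.length)
    (hj : j < m) : pick (blk U m j) a ∉ selG U m (chB r j a true w) := by
  intro hmem
  obtain ⟨i, hi, he⟩ := List.mem_map.1 hmem
  rw [List.mem_range] at hi
  have h1 := length_chB (j := j) (b := true) ha hw hi
  have hp := pick_mem_halves (B := blk U m j) (w := a)
    (by rw [ha]; exact pow_le_blk hm hj)
  have hp' := pick_mem_halves (B := blk U m i) (w := chB r j a true w i)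
    (by rw [h1]; exact pow_le_blk hm hi)
  rw [he] at hp'
  rcases lt_trichotomy i j with hij | hij | hij
  · exact blk_disjoint hU hij ((halves_sub _ _).subset hp') ((halves_sub _ _).subset hp)
  · subst hij
    exact halves_disjoint _ _ _ (hU.sublist (blk_sub U m i)) (by rw [h1, ha])
      (chB_ne ha hr) hp' hp
  · exact blk_disjoint hU hij ((halves_sub _ _).subset hp) ((halves_sub _ _).subset hp')

/-! ### means over sequences of blocks -/

/-- the bit string of a sequence of blocks -/
def flat {m r : ℕ} (w : Fin m → Fin r → Bool) : List Bool :=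
  (List.ofFn fun i => List.ofFn (w i)).flatten

theorem flat_cons {m r : ℕ} (a : Fin r → Bool) (w : Fin m → Fin r → Bool) :
    flat (Fin.cons a w : Fin (m + 1) → Fin r → Bool) = List.ofFn a ++ flat w := by
  unfold flat
  rw [List.ofFn_succ, List.flatten_cons]
  rfl

theorem EX_blocks (r : ℕ) : ∀ (m : ℕ) (f : List Bool → ℝ),
    EX (m * r) f = (∑ w : Fin m → Fin r → Bool, f (flat w)) / 2 ^ (m * r)
  | 0, f => by
    rw [Nat.zero_mul, EX_zero, Fintype.sum_unique, pow_zero, div_one]
    rfl
  | m + 1, f => by
    have e : (m + 1) * r = r + m * r := by ring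
    rw [e, EX_append]
    simp only [EX_blocks r m]
    rw [← (Fin.consEquiv fun _ : Fin (m + 1) => (Fin r → Bool)).sum_comp, Fintype.sum_prod_type]
    unfold EX
    rw [← Finset.sum_div, div_div, ← pow_add, Nat.add_comm (m * r) r]
    congr 1
    refine Finset.sum_congr rfl fun a _ => Finset.sum_congr rfl fun w _ => ?_
    exact congrArg f (flat_cons a w).symm

theorem cblk_flat {r : ℕ} : ∀ {m : ℕ} (w : Fin m → Fin r → Bool) (i : Fin m),
    cblk r (flat w) i.1 = List.ofFn (w i)
  | 0, w, i => i.elim0
  | m + 1, w, i => by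
    have e : w = (Fin.cons (w 0) (fun i => w i.succ) : Fin (m + 1) → Fin r → Bool) := by
      rw [← Fin.tail_def]
      exact (Fin.cons_self_tail w).symm
    rw [e, flat_cons]
    refine Fin.cases ?_ (fun i => ?_) i
    · rw [Fin.cons_zero]
      exact cblk_zero List.length_ofFn
    · rw [Fin.cons_succ, Fin.val_succ, cblk_succ List.length_ofFn]
      exact cblk_flat _ i

theorem PR_compl {γ : Type} (n : ℕ) (g : List Bool → γ) (T : Set γ) :
    PR n g Tᶜ = 1 - PR n g T := by
  classical
  have h0 : (1 : ℝ) - PR n g T = EX n (fun _ => 1) - PR n g T := by rw [EX_const]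
  rw [h0]
  unfold PR
  rw [← EX_sub]
  refine EX_congr fun u _ => ?_
  by_cases h : g u ∈ T
  · rw [if_pos h, if_neg (by simpa using h)]
    norm_num
  · rw [if_neg h, if_pos (by simpa using h)]
    norm_num

theorem PR_nonneg {γ : Type} (n : ℕ) (g : List Bool → γ) (T : Set γ) : 0 ≤ PR n g T := by
  classical
  have h0 : (0 : ℝ) = EX n (fun _ => 0) := by rw [EX_const]
  rw [h0]
  unfold PR
  refine EX_mono fun u _ => ?_
  split_ifs <;> norm_num

theorem PR_le_one {γ : Type} (n : ℕ) (g : List Bool → γ) (T : Set γ) : PR n g T ≤ 1 := by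
  have := PR_nonneg n g Tᶜ
  rw [PR_compl] at this
  linarith

open Classical in
theorem PR_blocks {γ : Type} {m r : ℕ} (g : List Bool → γ) (T : Set γ) :
    PR (m * r) g T = ((univ.filter fun w : Fin m → Fin r → Bool => g (flat w) ∈ T).card : ℝ) /
      2 ^ (m * r) := by
  unfold PR
  rw [EX_blocks, Finset.sum_boole]

/-! ### few outputs -/

/-- there are few bit strings of length at most `b` -/
theorem card_short {α : Type} [Fintype α] (f : α → List Bool) (b : ℕ)
    (h : ∀ a, (f a).length ≤ b) [DecidableEq (List Bool)] : (univ.image f).card ≤ 3 ^ b := by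
  have h1 : (univ.image f).card ≤ (univ : Finset (Fin b → Option Bool)).card := by
    refine Finset.card_le_card_of_injOn (fun l => fun i : Fin b => l[i.1]?)
      (fun _ _ => Finset.mem_univ _) ?_
    intro l hl l' hl' he
    rw [Finset.mem_coe] at hl hl'
    obtain ⟨a, _, rfl⟩ := Finset.mem_image.1 hl
    obtain ⟨a', _, rfl⟩ := Finset.mem_image.1 hl'
    refine List.ext_getElem? fun i => ?_
    by_cases hi : i < b
    · exact congrFun he ⟨i, hi⟩
    · rw [List.getElem?_eq_none (by have := h a; omega),
        List.getElem?_eq_none (by have := h a'; omega)]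
  refine h1.trans (le_of_eq ?_)
  rw [Finset.card_univ, Fintype.card_fun, Fintype.card_option, Fintype.card_bool, Fintype.card_fin]

theorem card_image_short {α γ : Type} [Fintype α] [Code γ] [DecidableEq γ] (f : α → γ) (b : ℕ)
    (h : ∀ a, sz (f a) ≤ b) : (univ.image f).card ≤ 3 ^ b := by
  have h1 := card_short (fun a => enc (f a)) b h
  refine le_trans ?_ h1
  refine Finset.card_le_card_of_injOn (fun c => enc c) ?_ ?_
  · intro c hc
    rw [Finset.mem_coe] at hc ⊢
    obtain ⟨a, _, rfl⟩ := Finset.mem_image.1 hc
    exact Finset.mem_image_of_mem _ (Finset.mem_univ _)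
  · intro c _ c' _ hcc
    exact enc_inj hcc

/-! ### closeness -/

/-- the choice bits of a sequence of blocks -/
def gOf {m r : ℕ} (w : Fin m → Fin r → Bool) (i : ℕ) : List Bool :=
  if h : i < m then List.ofFn (w ⟨i, h⟩) else []

theorem map_not_ofFn {r : ℕ} (a : Fin r → Bool) :
    (List.ofFn a).map (fun c => !c) = List.ofFn fun i => !a i := by
  rw [List.map_ofFn]
  rfl

theorem selG_false {U : List (List Bool)} {m r : ℕ} (j : Fin m) (a : Fin r → Bool)
    (w : Fin m → Fin r → Bool) :
    selG U m (chB r j (List.ofFn a) false (flat w)) = selG U m (gOf (Function.update w j a)) := by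
  refine selG_congr fun i hi => ?_
  unfold chB gOf
  rw [cond_false, dif_pos hi]
  by_cases h : i = j
  · subst h
    rw [decide_eq_true rfl, cond_true, Function.update_self]
  · rw [decide_eq_false h, cond_false, Function.update_of_ne (fun h' => h (congrArg Fin.val h'))]
    exact cblk_flat w ⟨i, hi⟩

theorem selG_true {U : List (List Bool)} {m r : ℕ} (j : Fin m) (a : Fin r → Bool)
    (w : Fin m → Fin r → Bool) :
    selG U m (chB r j (List.ofFn a) true (flat w)) =
      selG U m (gOf (updB (fun a i => !a i) w j a)) := by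
  refine selG_congr fun i hi => ?_
  unfold chB gOf updB
  rw [cond_true, dif_pos hi]
  have h0 : cblk r (flat w) i = List.ofFn (w ⟨i, hi⟩) := cblk_flat w ⟨i, hi⟩
  rw [h0]
  by_cases h : i = j
  · subst h
    rw [decide_eq_true rfl, Bool.true_and]
    by_cases h1 : w j = a
    · rw [if_pos h1, Function.update_self, ← map_not_ofFn, h1, decide_eq_true rfl, cond_true]
    · rw [if_neg h1, decide_eq_false fun h2 => h1 (List.ofFn_injective h2), cond_false]
  · rw [decide_eq_false h, Bool.false_and, cond_false]
    split_ifs with h1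
    · rw [Function.update_of_ne (fun h' => h (congrArg Fin.val h'))]
    · rfl

theorem length_gOf {m r : ℕ} (w : Fin m → Fin r → Bool) {i : ℕ} (hi : i < m) :
    (gOf w i).length = r := by
  unfold gOf
  rw [dif_pos hi, List.length_ofFn]

/-- **Some node is badly detected.** -/
theorem exists_close {γ : Type} [Code γ] (E : List (List Bool) → γ) {U : List (List Bool)}
    {m r b : ℕ} (hm : 1 ≤ m) (hU : m * 2 ^ r ≤ U.length)
    (hE : ∀ S : List (List Bool), S.length = m → S ⊆ U → sz (E S) ≤ b)
    (hb : 4 * b + 2 * m + 2 < r * m) :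
    ∃ (j : ℕ) (a : List Bool), j < m ∧ a.length = r ∧ ∀ T : Set γ,
      |PR (m * r) (fun w => E (selG U m (chB r j a false w))) T -
        PR (m * r) (fun w => E (selG U m (chB r j a true w))) T| ≤ 1 - 1 / (8 * 2 ^ r) := by
  classical
  by_contra hcon
  push Not at hcon
  have h1 : ∀ (j : Fin m) (a : Fin r → Bool), ∃ T : Set γ, 1 - 1 / (8 * 2 ^ r) <
      PR (m * r) (fun w => E (selG U m (chB r j (List.ofFn a) false w))) T -
        PR (m * r) (fun w => E (selG U m (chB r j (List.ofFn a) true w))) T := by
    intro j a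
    obtain ⟨T, hT⟩ := hcon j (List.ofFn a) j.2 List.length_ofFn
    rcases lt_abs.1 hT with h | h
    · exact ⟨T, h⟩
    · refine ⟨Tᶜ, ?_⟩
      rw [PR_compl, PR_compl]
      linarith
  choose T hT using h1
  let e : (Fin m → Fin r → Bool) → γ := fun w => E (selG U m (gOf w))
  have hs : Fintype.card (Fin r → Bool) = 2 ^ r := by simp
  have hpow : ((2 : ℝ) ^ r) ^ m = 2 ^ (m * r) := by rw [← pow_mul, mul_comm]
  have hpos : (0 : ℝ) < 2 ^ (m * r) := by positivity
  have hrpos : (0 : ℝ) < 2 ^ r := by positivity
  have hf : ∀ (j : Fin m) (a : Fin r → Bool), PR (m * r) (fun w => E (selG U m (chB r j (List.ofFn a) false w))) (T j a) =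
      ((univ.filter fun w : Fin m → Fin r → Bool => e (Function.update w j a) ∈ T j a).card : ℝ) /
        2 ^ (m * r) := by
    intro j a
    rw [PR_blocks]
    congr 3
    refine Finset.filter_congr fun w _ => ?_
    rw [selG_false]
  have ht : ∀ (j : Fin m) (a : Fin r → Bool), PR (m * r) (fun w => E (selG U m (chB r j (List.ofFn a) true w))) (T j a) =
      ((univ.filter fun w : Fin m → Fin r → Bool =>
        e (updB (fun a i => !a i) w j a) ∈ T j a).card : ℝ) / 2 ^ (m * r) := by
    intro j a
    rw [PR_blocks]
    congr 3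
    refine Finset.filter_congr fun w _ => ?_
    rw [selG_true]
  have hA : ∀ j a, 8 * Fintype.card (Fin r → Bool) *
      (univ.filter fun w : Fin m → Fin r → Bool => e (Function.update w j a) ∉ T j a).card ≤
        Fintype.card (Fin r → Bool) ^ m := by
    intro j a
    have h2 := hT j a
    have h3 := PR_nonneg (m * r) (fun w => E (selG U m (chB r j (List.ofFn a) true w))) (T j a)
    rw [hf j a] at h2
    have h4 : ((univ.filter fun w : Fin m → Fin r → Bool =>
        e (Function.update w j a) ∈ T j a).card : ℝ) +
        (univ.filter fun w : Fin m → Fin r → Bool =>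
          e (Function.update w j a) ∉ T j a).card = 2 ^ (m * r) := by
      rw [← Nat.cast_add, Finset.card_filter_add_card_filter_not, Finset.card_univ,
        Fintype.card_fun, Fintype.card_fin, hs]
      push_cast
      exact hpow
    rw [hs]
    have h5 : (8 * 2 ^ r * ((univ.filter fun w : Fin m → Fin r → Bool =>
        e (Function.update w j a) ∉ T j a).card : ℝ)) ≤ 2 ^ (m * r) := by
      generalize ((univ.filter fun w : Fin m → Fin r → Bool =>
        e (Function.update w j a) ∈ T j a).card : ℝ) = y at h2 h4
      generalize ((univ.filter fun w : Fin m → Fin r → Bool =>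
        e (Function.update w j a) ∉ T j a).card : ℝ) = z at h4 ⊢
      have h6 : 1 - 1 / (8 * 2 ^ r) < y / 2 ^ (m * r) := by linarith
      have h7 : z = 2 ^ (m * r) - y := by linarith
      rw [lt_div_iff₀ hpos] at h6
      have h8 : z ≤ 1 / (8 * 2 ^ r) * 2 ^ (m * r) := by
        rw [h7]
        linarith
      calc 8 * 2 ^ r * z ≤ 8 * 2 ^ r * (1 / (8 * 2 ^ r) * 2 ^ (m * r)) :=
            mul_le_mul_of_nonneg_left h8 (by positivity)
        _ = 2 ^ (m * r) := by field_simp
    rw [← hpow] at h5
    exact_mod_cast h5
  have hB : ∀ j a, 8 * Fintype.card (Fin r → Bool) *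
      (univ.filter fun w : Fin m → Fin r → Bool =>
        e (updB (fun a i => !a i) w j a) ∈ T j a).card ≤ Fintype.card (Fin r → Bool) ^ m := by
    intro j a
    have h2 := hT j a
    have h3 := PR_le_one (m * r) (fun w => E (selG U m (chB r j (List.ofFn a) false w))) (T j a)
    rw [ht j a] at h2
    rw [hs]
    have h5 : (8 * 2 ^ r * ((univ.filter fun w : Fin m → Fin r → Bool =>
        e (updB (fun a i => !a i) w j a) ∈ T j a).card : ℝ)) ≤ 2 ^ (m * r) := by
      generalize ((univ.filter fun w : Fin m → Fin r → Bool =>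
        e (updB (fun a i => !a i) w j a) ∈ T j a).card : ℝ) = z at h2 ⊢
      have h6 : z / 2 ^ (m * r) < 1 / (8 * 2 ^ r) := by linarith
      rw [div_lt_iff₀ hpos] at h6
      calc 8 * 2 ^ r * z ≤ 8 * 2 ^ r * (1 / (8 * 2 ^ r) * 2 ^ (m * r)) :=
            mul_le_mul_of_nonneg_left h6.le (by positivity)
        _ = 2 ^ (m * r) := by field_simp
    rw [← hpow] at h5
    exact_mod_cast h5
  have hN : (univ.image e).card ≤ 3 ^ b :=
    card_image_short e b fun w => hE _ (length_selG _ _ _)
      (selG_subset hU fun i hi => length_gOf w hi)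
  have h2 := decode e T (fun a i => !a i) hm hA hB hN
  rw [hs] at h2
  have h3 : 3 ^ b ≤ 2 ^ (2 * b) := by
    rw [pow_mul]
    exact Nat.pow_le_pow_left (by norm_num) _
  have h4 : 2 * ((2 ^ r) ^ (m / 2) * (3 ^ b * 2 ^ m)) ≤
      2 ^ (1 + (r * (m / 2) + (2 * b + m))) := by
    rw [pow_add, pow_one, pow_add, pow_add 2 (2 * b), pow_mul]
    exact Nat.mul_le_mul_left _ (Nat.mul_le_mul_left _ (Nat.mul_le_mul_right _ h3))
  rw [← pow_mul] at h2
  have h5 := (Nat.pow_le_pow_iff_right (by norm_num : 1 < 2)).1 (h2.trans h4)
  have h6 : 2 * (r * (m / 2)) ≤ r * m := by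
    calc 2 * (r * (m / 2)) = r * (2 * (m / 2)) := by ring
      _ ≤ r * m := Nat.mul_le_mul_left _ (by omega)
  omega

end ORZ
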